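import Pool.Agent.Helper21.BY.A6
import Pool.Agent.Helper21.BX.F4

/-!
Project BY (MP_4a5e7e_lc, `k = 3`): from the two reductions to a program.
-/

namespace Pool.Agent.Helper21.BY

open Pool.Agent.Helper91.PolyTime Pool.Agent.Helper7.BX
open Pool.Agent.Helper21.BX

private theorem F2_mono {r R : ℕ} (h : r ≤ R) (x : ℕ) : x ^ r + r ≤ x ^ R + R := by
  rcases Nat.eq_zero_or_pos x with rfl | hx
  · rcases Nat.eq_zero_or_pos r with rfl | hr
    · rcases Nat.eq_zero_or_pos R with rfl | hR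
      · exact le_rfl
      · exact (show 0 ^ 0 + 0 ≤ R by rw [pow_zero]; omega).trans (Nat.le_add_left R _)
    · exact (show 0 ^ r + r ≤ R by rw [zero_pow (by omega)]; omega).trans (Nat.le_add_left R _)
  · exact Nat.add_le_add (Nat.pow_le_pow_right hx h) h

/-- The two reductions give a machine that never errs (`mkM 3`, `mkM_right`, `mac_prog`, `qs_bound`, as in
`BX.AA_not` and `BX.exists_vio'`; the exponent is made at least `1`). -/
theorem exists_machine {χ : S → Bool} {A : Lang} (hA : ∀ y, y ∈ A ↔ χ y = true) {T : Lang}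
    (hT : InP T) (h1 : Ktt 3 A (A ∩ T)) (h2 : Ktt 3 A (A \ T)) :
    ∃ (e : S) (M : Mac) (r : ℕ), Prog (EE 3) e M r ∧ ∀ t, vio M χ t = false := by
  obtain ⟨s, hs, hsT⟩ := inP_iff.1 hT
  obtain ⟨q₁, D₁, hq₁, hD₁, H1⟩ := ktt_iff.1 h1
  obtain ⟨q₂, D₂, hq₂, hD₂, H2⟩ := ktt_iff.1 h2
  obtain ⟨p1, p2⟩ := ptf_mkM (k := 3) hs hq₁ hq₂ hD₁ hD₂
  have hlen : ∀ q, ((mkM 3 s q₁ q₂ D₁ D₂).qs q).length = 3 := fun q => by simp [mkM]
  obtain ⟨e, r1, he⟩ := mac_prog hlen hs p1 p2
  obtain ⟨r2, hr⟩ := qs_bound p2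
  refine ⟨e, mkM 3 s q₁ q₂ D₁ D₂, max 1 (max r1 r2), ⟨le_max_left _ _, ?_, ?_⟩, fun t => ?_⟩
  · intro q q' hq'
    exact (hr q q' hq').trans (F2_mono ((le_max_right _ _).trans (le_max_right _ _)) _)
  · intro q t ht
    exact he q t ((F2_mono ((le_max_left _ _).trans (le_max_right _ _)) _).trans ht)
  · refine mkM_right (k := 3) (s := s) (q₁ := q₁) (q₂ := q₂) (D₁ := D₁) (D₂ := D₂)
      (e := χ) (fun y => (H1 y).1) (fun y => (H2 y).1) (fun y => ?_) (fun y => ?_) t
    · have h3 := (H1 y).2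
      rw [hA] at h3
      rw [Bool.eq_iff_iff, h3]
      have : ∀ inst : (∀ x, Decidable (x ∈ A ∩ T)),
          (q₁ y).map (fun x => @decide (x ∈ A ∩ T) (inst x)) =
          (q₁ y).map (fun q => χ q && s q) := by
        intro inst
        refine List.map_congr_left fun x _ => ?_
        rw [Bool.eq_iff_iff, decide_eq_true_iff, Bool.and_eq_true, ← hsT, ← hA]
        exact Iff.rfl
      rw [this]
    · have h3 := (H2 y).2
      rw [hA] at h3
      rw [Bool.eq_iff_iff, h3]
      have : ∀ inst : (∀ x, Decidable (x ∈ A \ T)),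
          (q₂ y).map (fun x => @decide (x ∈ A \ T) (inst x)) =
          (q₂ y).map (fun q => χ q && !(s q)) := by
        intro inst
        refine List.map_congr_left fun x _ => ?_
        rw [Bool.eq_iff_iff, decide_eq_true_iff, Bool.and_eq_true, Bool.not_eq_true',
          ← Bool.not_eq_true, ← hsT, ← hA]
        exact Iff.rfl
      rw [this]

end Pool.Agent.Helper21.BY
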