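import Pool.Agent.Helper21.BY.F1
import Pool.Agent.Helper21.BY.F2

/-!
Project BY (MP_4a5e7e_lc, `k = 3`): the theorem.
-/

namespace Pool.Agent.Helper21.BY

open Pool.Agent.Helper7.BX
open Pool.Agent.Helper21.BX

theorem main_of (hex : ExPlan) :
    ∃ A : Lang, CompleteKtt 3 A ∧ ∀ T : Lang, InP T → ¬ (Ktt 3 A (A ∩ T) ∧ Ktt 3 A (A \ T)) := by
  by_cases h : ∀ T : Lang, InP T →
      ¬ (Ktt 3 (AS 1 false) (AS 1 false ∩ T) ∧ Ktt 3 (AS 1 false) (AS 1 false \ T))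
  · exact ⟨_, AS_complete 1 false, h⟩
  · push Not at h
    obtain ⟨T, hT, h1, h2⟩ := h
    obtain ⟨e, M, r, hM, hno⟩ := exists_machine (χ := inA (EE 3) 1 false) (fun _ => Iff.rfl) hT h1 h2
    obtain ⟨R, hR⟩ := two_sets (E := EE 3) rfl hex hM hno
    refine ⟨_, AS_complete R true, fun T' hT' h' => ?_⟩
    obtain ⟨e', M', r', hM', hno'⟩ :=
      exists_machine (χ := inA (EE 3) R true) (fun _ => Iff.rfl) hT' h'.1 h'.2
    obtain ⟨t, ht⟩ := hR e' M' r' hM'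
    rw [hno' t] at ht
    exact Bool.false_ne_true ht

end Pool.Agent.Helper21.BY
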