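import Pool.Agent.Helper21.BY.Ad
import Pool.Agent.Helper21.BX.A1

/-!
Project BY (MP_4a5e7e_lc, `k = 3`): the history of the plans; decoding.
-/

namespace Pool.Agent.Helper21.BY

open Pool.Agent.Helper21.BX

variable (E : Env) (R : ℕ) (s : Bool)

theorem hist_length (m : ℕ) : (hist E R s m).length = m := by
  induction m with
  | zero => rfl
  | succ m ih => simp [hist, ih]

/-- As `BX.hist_getD`. -/
theorem hist_getD {m m' : ℕ} (h : m < m') :
    (hist E R s m').getD m (false, []) = plan E R s m (hist E R s m) := by
  induction m' with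
  | zero => exact absurd h (Nat.not_lt_zero _)
  | succ n ih =>
    rw [hist]
    rcases Nat.lt_succ_iff_lt_or_eq.1 h with h1 | h1
    · rw [List.getD_append _ _ _ _ (by rw [hist_length]; exact h1)]
      exact ih h1
    · subst h1
      rw [List.getD_append_right _ _ _ _ (by rw [hist_length]), hist_length, Nat.sub_self]
      rfl

/-- Membership in terms of the plan of the window. -/
theorem inA_eq (q : S) :
    inA E R s q = inW E R s (plan E R s (win (lev q)) (hist E R s (win (lev q)))) q := by
  unfold inA lowh
  rw [hist_getD E R s (Nat.lt_succ_self _)]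

/-- Below the window the history gives the set. -/
theorem lowh_hist {m : ℕ} {q : S} (h : lev q < aw m) :
    lowh E R s (hist E R s m) q = inA E R s q := by
  rw [inA_eq]
  unfold lowh
  rw [hist_getD E R s (win_lt h)]

private theorem A3_msk_att {m : ℕ} :
    inA E R s (msk (nw m)) = pB (nw m) (plan E R s m (hist E R s m)).2 := by
  rw [inA_eq, lev_msk, win_att le_rfl (nw_le_tw m)]
  unfold inW
  rw [lev_msk, win_att le_rfl (nw_le_tw m)]
  unfold rul isCod inI
  rw [isMsk_msk, lev_msk]
  simp [nw_le_tw m]

private theorem A3_sh_att {m : ℕ} {c : S} (h1 : nw m ≤ c.length) (h2 : c.length ≤ tw m) :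
    inA E R s (sh (fi (pB (nw m) (plan E R s m (hist E R s m)).2)) c) = Kd E c := by
  rw [inA_eq, lev_sh, win_att h1 h2]
  unfold inW
  rw [lev_sh, win_att h1 h2]
  have h3 : fi (pB (nw m) (plan E R s m (hist E R s m)).2) + 1 < 3 := by
    unfold fi
    split_ifs <;> omega
  unfold rul isCod inI
  rw [isMsk_sh, isFre_sh, isSh_sh, lev_sh, rest_sh, idx_sh]
  simp [h1, h2, h3]

/-- In an attack interval the forced share has the value of the instance. -/
theorem decode_att {m : ℕ} {c : S} (h1 : nw m ≤ c.length) (h2 : c.length ≤ tw m) :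
    Kd E c = if inA E R s (msk (nw m)) then inA E R s (sh 1 c) else inA E R s (sh 0 c) := by
  have h3 := A3_sh_att E R s h1 h2
  rw [A3_msk_att]
  cases hb : pB (nw m) (plan E R s m (hist E R s m)).2 with
  | true =>
    rw [hb] at h3
    rw [if_pos rfl]
    exact h3.symm
  | false =>
    rw [hb] at h3
    rw [if_neg (by simp)]
    exact h3.symm

/-- Outside the attack intervals: `sh 0 c` is `K c or β`, `sh 1 c` is `K c and β`, the mask is `β`. -/
theorem decode_ser {m : ℕ} {c : S} (hm : win c.length = m)
    (h : ¬ (nw m ≤ c.length ∧ c.length ≤ tw m)) :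
    Kd E c = if inA E R s (msk c.length) then inA E R s (sh 1 c) else inA E R s (sh 0 c) := by
  have hI : (decide (nw m ≤ c.length) && decide (c.length ≤ tw m)) = false := by
    rw [Bool.eq_false_iff]
    intro h'
    simp only [Bool.and_eq_true, decide_eq_true_eq] at h'
    exact h h'
  have e1 : inA E R s (msk c.length) = bl E s m c.length := by
    rw [inA_eq, lev_msk, hm]
    unfold inW
    rw [lev_msk, hm]
    unfold rul isCod inI
    rw [isMsk_msk, lev_msk, hI]
    simp
  have e2 : ∀ a, a + 1 < 3 → inA E R s (sh a c) = (if a = 0 then Kd E c || bl E s m c.length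
      else Kd E c && bl E s m c.length) := by
    intro a ha
    rw [inA_eq, lev_sh, hm]
    unfold inW
    rw [lev_sh, hm]
    unfold rul isCod inI
    rw [isMsk_sh, isFre_sh, isSh_sh, lev_sh, rest_sh, idx_sh, hI]
    simp [ha]
  rw [e1, e2 0 (by omega), e2 1 (by omega)]
  cases bl E s m c.length <;> simp

/-- The machine has `3` queries. -/
theorem macS_qs_length (hk : E.k = 3) (m : ℕ) (q : S) : ((macS E s m).qs q).length = 3 := by
  simp [macS, mac, hk]

private theorem A3_ins {M : Mac} {κ n ν t a : ℕ} {f : S → Bool} {N : ℕ} (hκ : κ ≠ 0)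
    (hf : ∀ w, f w = true → val M κ n ν t a false (fun _ => false) w = true) :
    (ins M n ν (findS f N)).1.length ≤ t ∧ (ins M n ν (findS f N)).2.length ≤ t := by
  cases h : findS f N with
  | none => exact ⟨Nat.zero_le _, Nat.zero_le _⟩
  | some w =>
    have h1 := hf w (findS_some h).2
    unfold val at h1
    rw [Bool.and_eq_true, Bool.and_eq_true] at h1
    have h2 := h1.1.1
    unfold legit at h2
    simp only [Bool.and_eq_true, Bool.or_eq_true, decide_eq_true_eq, hκ, false_or] at h2
    exact h2.2

/-- The instances of the special bit have length at most `tw m`: they come from plans that are legitimate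
for the kinds `1`, `2` (`findS_some`, `val`, `legit`), or are empty. -/
theorem spi_length (m : ℕ) : (spi E s m).1.length ≤ tw m ∧ (spi E s m).2.length ≤ tw m := by
  unfold spi
  cases s with
  | true =>
    rw [if_pos rfl]
    unfold dd hw
    have h := (A3_ins (M := macS E false m) (κ := 1) (n := nw m) (ν := vw m) (t := tw m)
      (a := aw m) (f := hP (macS E false m) (al E m) (nw m) (vw m) (tw m) (aw m))
      (N := WW (nw m)) one_ne_zero (fun w hw => by
        unfold hP at hw
        rw [Bool.and_eq_true] at hw
        exact hw.1)).1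
    exact ⟨h, h⟩
  | false =>
    rw [if_neg (by simp)]
    unfold al xw
    exact A3_ins (M := macS E true m) (κ := 2) (n := nw m) (ν := vw m) (t := tw m)
      (a := aw m) (f := xP (macS E true m) (nw m) (vw m) (tw m) (aw m))
      (N := WW (nw m)) two_ne_zero (fun w hw => by
        unfold xP at hw
        rw [Bool.and_eq_true] at hw
        exact hw.1)

end Pool.Agent.Helper21.BY
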