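import Pool.Agent.Helper21.BY.Gd
import Pool.Agent.Helper21.BX.Vs

/-!
Project BY (MP_4a5e7e_lc, `k = 3`): a valid plan works for all values of the unknown bits.
-/

namespace Pool.Agent.Helper21.BY

open Pool.Agent.Helper21.BX

theorem rel_length {M : Mac} {n ν : ℕ} {w : S} (hq : ∀ q, (M.qs q).length = 3) :
    (rel M n ν w).length = 16 := by
  simp only [rel, tgt, List.length_append, List.length_cons, List.length_nil,
    List.flatMap_cons, List.flatMap_nil, hq]

theorem nms_length (R : List S) : (nms R).length = 2 * R.length := by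
  unfold nms
  induction R with
  | nil => simp
  | cons r R ih =>
    rw [List.flatMap_cons, List.length_append, ih]
    simp only [List.length_cons, List.length_nil]
    omega

theorem mem_nms {R : List S} {s : S} : s ∈ nms R ↔ ∃ r ∈ R, s = false :: r ∨ s = true :: rest r := by
  unfold nms
  rw [List.mem_flatMap]
  simp only [List.mem_cons, List.not_mem_nil, or_false]

/-- The bits `X s`, `s` in `l`, select from `l` exactly the members with `X` (`BX.mem_sel_map` with the
identity). -/
theorem mem_sel_self {l : List S} {X : S → Bool} {s : S} :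
    s ∈ sel (l.map X) l ↔ s ∈ l ∧ X s = true := by
  have h := mem_sel_map X (fun t : S => t) l (p := s)
  rw [List.map_id'] at h
  rw [h]
  constructor
  · rintro ⟨⟨r, h1, h2⟩, h3⟩
    exact ⟨h2 ▸ h1, h3⟩
  · rintro ⟨h1, h2⟩
    exact ⟨⟨s, h1, rfl⟩, h2⟩

private theorem Vs_getD_mem {R : List S} {j : ℕ} (hj : j < R.length) : R.getD j [] ∈ R := by
  rw [List.getD_eq_getElem _ _ hj]
  exact List.getElem_mem hj

private theorem Vs_sv_sym {R : List S} {X Y : S → Bool} {p : Bool} (hR : R.length = 16)
    (h : ∀ s ∈ nms R, X s = Y s) {j : ℕ} (hj : j < 19) :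
    sv X p (sym R j) = sv Y p (sym R j) := by
  unfold sym
  by_cases h0 : j = 0
  · rw [if_pos h0]
    rfl
  · rw [if_neg h0]
    by_cases h1 : j = 1
    · rw [if_pos h1]
      rfl
    · rw [if_neg h1]
      by_cases h2 : j = 2
      · rw [if_pos h2]
        rfl
      · rw [if_neg h2]
        have hm : R.getD (j - 3) [] ∈ R := Vs_getD_mem (by omega)
        exact h _ (mem_nms.2 ⟨_, hm, Or.inr rfl⟩)

private theorem Vs_any_congr {α : Type} {l : List α} {f g : α → Bool} (h : ∀ x ∈ l, f x = g x) :
    l.any f = l.any g := by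
  induction l with
  | nil => rfl
  | cons x l ih =>
    rw [List.any_cons, List.any_cons, h x List.mem_cons_self,
      ih (fun y hy => h y (List.mem_cons_of_mem _ hy))]

/-- `evP` depends on the unknown bits only through the names of the relevant strings: for the forced share
`q` the name is `true :: rest q`, for the strings outside of the attack interval `false :: q`; the hosts
use `[]`, `[false]`, `[false, true]` and `true :: rest r` with `r = (rel M n ν w).getD j []`, `j < 16`, which is in
`rel M n ν w` (`rel_length`). -/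
theorem evP_congr {M : Mac} {κ n ν τ a : ℕ} {mode : Bool} {low : S → Bool} {w : S} {p : Bool}
    {X Y : S → Bool} (hq : ∀ q, (M.qs q).length = 3)
    (h : ∀ s ∈ nms (rel M n ν w), X s = Y s) {q : S} (hr : q ∈ rel M n ν w) :
    evP M κ n ν τ a mode low w p X q = evP M κ n ν τ a mode low w p Y q := by
  have hR := rel_length (M := M) (n := n) (ν := ν) (w := w) hq
  have hfv : fv X p (pH M n ν w) q = fv Y p (pH M n ν w) q := by
    unfold fv
    refine Vs_any_congr (fun r hr' => ?_)
    congr 1
    unfold pH at hr'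
    rw [List.mem_map] at hr'
    obtain ⟨i, _, rfl⟩ := hr'
    unfold hv
    rw [Vs_sv_sym hR h (Fin.isLt _), Vs_sv_sym hR h (Fin.isLt _), Vs_sv_sym hR h (Fin.isLt _)]
  have h1 : X (true :: rest q) = Y (true :: rest q) := h _ (mem_nms.2 ⟨q, hr, Or.inr rfl⟩)
  have h2 : X (false :: q) = Y (false :: q) := h _ (mem_nms.2 ⟨q, hr, Or.inl rfl⟩)
  unfold evP ev
  rw [hfv, h1, h2]

/-- So does `cnd`. -/
theorem cnd_congr {M : Mac} {κ n ν : ℕ} {w : S} {p : Bool} {X Y : S → Bool}
    (hq : ∀ q, (M.qs q).length = 3) (h : ∀ s ∈ nms (rel M n ν w), X s = Y s) :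
    cnd M κ n ν w X p = cnd M κ n ν w Y p := by
  have hR := rel_length (M := M) (n := n) (ν := ν) (w := w) hq
  have h1 : X (true :: pR1 M n ν w) = Y (true :: pR1 M n ν w) :=
    h _ (mem_nms.2 ⟨_, Vs_getD_mem (by rw [hR]; exact Fin.isLt _), Or.inr rfl⟩)
  have h2 : X (true :: pR2 M n ν w) = Y (true :: pR2 M n ν w) :=
    h _ (mem_nms.2 ⟨_, Vs_getD_mem (by rw [hR]; exact Fin.isLt _), Or.inr rfl⟩)
  unfold cnd
  rw [h1, h2]

/-- As `BX.val_sound`: take the string `xs` of the bits `X s`, `s` in `nms (rel M n ν w)`, which has length `32`. -/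
theorem val_sound {M : Mac} {κ n ν τ a : ℕ} {mode : Bool} {low : S → Bool} {w : S}
    (hq : ∀ q, (M.qs q).length = 3) (h : val M κ n ν τ a mode low w = true) (X : S → Bool) (p : Bool)
    (hc : cnd M κ n ν w X p = true) :
    ∃ t ∈ tgt M n ν w, vio M (evP M κ n ν τ a mode low w p X) t = true := by
  have hR := rel_length (M := M) (n := n) (ν := ν) (w := w) hq
  unfold val at h
  rw [Bool.and_eq_true, List.all_eq_true] at h
  have hlen : ((nms (rel M n ν w)).map X).length = 32 := by
    rw [List.length_map, nms_length, hR]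
  have h2 := h.2 _ (mem_allB.2 hlen)
  rw [List.all_eq_true] at h2
  have h3 := h2 p (by cases p <;> simp)
  have hX : ∀ s ∈ nms (rel M n ν w),
      decide (s ∈ sel ((nms (rel M n ν w)).map X) (nms (rel M n ν w))) = X s := by
    intro s hs
    by_cases hx : X s = true
    · rw [hx]
      exact decide_eq_true (mem_sel_self.2 ⟨hs, hx⟩)
    · rw [Bool.not_eq_true] at hx
      rw [hx]
      refine decide_eq_false (fun hmem => ?_)
      have := (mem_sel_self.1 hmem).2
      rw [hx] at this
      exact Bool.noConfusion this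
  rw [cnd_congr hq hX, hc] at h3
  simp only [Bool.not_true, Bool.false_or] at h3
  rw [List.any_eq_true] at h3
  obtain ⟨t, ht, hv'⟩ := h3
  have key : ∀ q ∈ rel M n ν w, evP M κ n ν τ a mode low w p
      (fun s => decide (s ∈ sel ((nms (rel M n ν w)).map X) (nms (rel M n ν w)))) q =
      evP M κ n ν τ a mode low w p X q := fun q hqr => evP_congr hq hX hqr
  refine ⟨t, ht, ?_⟩
  have ht' : t ∈ rel M n ν w := List.mem_append_left _ ht
  have hqs : ∀ q ∈ M.qs t, q ∈ rel M n ν w := fun q hqt =>
    List.mem_append_right _ (List.mem_flatMap.2 ⟨t, ht, hqt⟩)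
  unfold vio at hv' ⊢
  rw [key t ht'] at hv'
  rw [← hv']
  congr 2
  refine List.map_congr_left (fun q hqt => ?_)
  rw [key q (hqs q hqt)]

end Pool.Agent.Helper21.BY
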