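import Pool.Agent.Helper21.BY.A3
import Pool.Agent.Helper21.BY.Vs

/-!
Project BY (MP_4a5e7e_lc, `k = 3`): if there is a plan, the machine of the window errs.

Compare `BX.A5`.
-/

namespace Pool.Agent.Helper21.BY

open Pool.Agent.Helper21.BX

variable (E : Env) (R : ℕ) (s : Bool)

/-- The unknown bits. -/
noncomputable def XA (x : S) : Bool :=
  match x with
  | [] => false
  | true :: c => Kd E c
  | false :: q => inA E R s q

/-- Guarded symbols are as the unguarded ones, if they are allowed. -/
theorem sy_eq {M : Mac} {κ n ν l : ℕ} {w x : S} {p p' : Bool} (h : sok M κ n ν w l x = true)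
    (hp : isP x = true → p' = p) : sy (Kd E) p' l x = sv (XA E R s) p x := by
  match x, h, hp with
  | [], _, _ => rfl
  | [false], _, _ => rfl
  | true :: c, h, _ =>
    have h1 : c.length ≤ l := by
      unfold sok isI at h
      simp only [List.headD_cons, Bool.not_true, Bool.false_or, Bool.and_eq_true,
        decide_eq_true_eq, List.length_cons] at h
      omega
    change (decide (c.length ≤ l) && Kd E c) = Kd E c
    rw [decide_eq_true h1, Bool.true_and]
  | false :: a :: t, _, hp =>
    have h1 : isP (false :: a :: t) = true := by simp [isP]
    exact hp h1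

private theorem A5_cod {q : S} (hc : isCod 3 q = true) (hm : isMsk q = false)
    (hf : isFre q = false) : isSh 3 q = true := by
  unfold isCod at hc
  rw [hm, hf] at hc
  simpa using hc

private theorem A5_noncod {q : S} (hc : isCod 3 q = false) : inA E R s q = false := by
  rw [inA_eq]
  unfold inW rul
  rw [hc]
  simp

private theorem A5_any {l : List (S × Hst)} {f g : S × Hst → Bool} (h : ∀ r ∈ l, f r = g r) :
    l.any f = l.any g := by
  induction l with
  | nil => rfl
  | cons r l ih =>
    rw [List.any_cons, List.any_cons, h r List.mem_cons_self,
      ih (fun r' hr' => h r' (List.mem_cons_of_mem _ hr'))]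

/-- In the attack interval of window `m`, if `P` is the plan of the window. `hp` says that the special bit is
the same at all the strings in whose hosts it is allowed. -/
theorem ev_att {m κ : ℕ} {P : Bool × S} (hP : plan E R s m (hist E R s m) = P) {mode : Bool}
    {low : S → Bool} {key q : S} {p : Bool}
    (hl : legit (macS E s m) κ (nw m) (vw m) (tw m) P.2 = true)
    (hp : ∀ l x, sok (macS E s m) κ (nw m) (vw m) P.2 l x = true → isP x = true →
      (P.1 && spv E R s m l) = p)
    (hc : isCod 3 q = true) (hi : inI (nw m) (tw m) q = true) :
    ev (nw m) (tw m) (aw m) mode low key (pB (nw m) P.2) (pH (macS E s m) (nw m) (vw m) P.2) p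
      (XA E R s) q = inA E R s q := by
  have hi' := hi
  unfold inI at hi'
  rw [Bool.and_eq_true, decide_eq_true_eq, decide_eq_true_eq] at hi'
  have hwin : win (lev q) = m := win_att hi'.1 hi'.2
  rw [inA_eq, hwin, hP]
  unfold inW rul ev
  rw [hwin, hi, hc]
  simp only [if_true]
  cases hm : isMsk q with
  | true => simp
  | false =>
    simp only [if_false, Bool.false_eq_true]
    cases hs : isSh 3 q && decide (idx q = fi (pB (nw m) P.2)) with
    | true =>
      simp only [if_true]
      rw [Bool.and_eq_true] at hs
      rw [hs.1]
      rfl
    | false =>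
      simp only [if_false, Bool.false_eq_true]
      unfold fv fvg hv
      refine A5_any (fun r hr => ?_)
      by_cases hrq : r.1 = q
      · rw [decide_eq_true hrq, Bool.true_and, Bool.true_and]
        unfold legit at hl
        rw [Bool.and_eq_true, List.all_eq_true] at hl
        have h1 := hl.1 r hr
        rw [Bool.and_eq_true, Bool.and_eq_true, hrq] at h1
        rw [sy_eq E R s h1.1.1 (hp _ _ h1.1.1), sy_eq E R s h1.1.2 (hp _ _ h1.1.2),
          sy_eq E R s h1.2 (hp _ _ h1.2)]
      · rw [decide_eq_false hrq, Bool.false_and, Bool.false_and]

/-- Outside the attack interval the unknown bits are those of the set. -/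
private theorem A5_X (q : S) : XA E R s (false :: q) = inA E R s q := rfl

private theorem A5_win {m l : ℕ} (h1 : aw m ≤ l) (h2 : l < nw m) : win l = m :=
  win_eq h1 ((h2.trans_le (nw_le_tw m)).trans (tw_lt_aw m))

/-- Membership at the service levels. -/
private theorem A5_ser {m : ℕ} {q : S} (hc : isCod 3 q = true) (h1 : aw m ≤ lev q)
    (h2 : lev q < nw m) : inA E R s q = (if isMsk q then bl E s m (lev q)
      else if isFre q then false
      else if idx q = 0 then (isSh 3 q && Kd E (rest q)) || bl E s m (lev q)
      else (isSh 3 q && Kd E (rest q)) && bl E s m (lev q)) := by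
  have hwin := A5_win h1 h2
  have hi : inI (nw m) (tw m) q = false := by
    unfold inI
    rw [decide_eq_false (by omega)]
    rfl
  rw [inA_eq, hwin]
  unfold inW rul
  rw [hwin, hi, hc]
  simp only [if_true, Bool.false_eq_true, if_false]

/-- As `BX.evP_eq_false`: the plan is 0-valid. -/
theorem evP_false {m : ℕ} {w : S} (hw : plan E R s m (hist E R s m) = (false, w))
    (hl : w.length = WW (nw m))
    (h : val (macS E s m) 0 (nw m) (vw m) (tw m) (aw m) false (fun _ => false) w = true) (q : S) :
    evP (macS E s m) 0 (nw m) (vw m) (tw m) (aw m) false (fun _ => false) w false (XA E R s) q =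
      inA E R s q := by
  have h' := h
  unfold val at h'
  rw [Bool.and_eq_true, Bool.and_eq_true] at h'
  have hkey : inA E R s (pK (macS E s m) (nw m) (vw m) w) = true := by
    have h1 := h'.1.2
    simp only [decide_true, Bool.not_true, Bool.or_self, Bool.false_or] at h1
    unfold keyok at h1
    simp only [Bool.and_eq_true, decide_eq_true_eq] at h1
    obtain ⟨⟨⟨k1, k2⟩, k3⟩, k4⟩ := h1
    have hc : isCod 3 (pK (macS E s m) (nw m) (vw m) w) = true := by
      unfold isCod
      rw [k1]
      simp
    have hb : bl E s m (lev (pK (macS E s m) (nw m) (vw m) w)) = true := by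
      unfold bl
      rw [decide_eq_true k4, Bool.true_and]
      refine findS_isSome.2 ⟨w, hl, ?_⟩
      unfold v0
      rw [h]
      simp
    rw [A5_ser E R s hc k3 k4, hb]
    obtain ⟨a, c, ha, he⟩ := isSh_iff.1 k1
    rw [he] at k2 ⊢
    rw [isMsk_sh, isFre_sh]
    simp [k2]
  unfold evP
  cases hc : isCod 3 q with
  | false =>
    rw [A5_noncod E R s hc]
    unfold ev
    rw [hc]
    simp
  | true =>
    cases hi : inI (nw m) (tw m) q with
    | true =>
      exact ev_att E R s hw h'.1.1 (fun l x _ _ => by rw [Bool.false_and]) hc hi
    | false =>
      unfold ev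
      rw [hc, hi]
      simp only [if_true, Bool.false_eq_true, if_false]
      rw [A5_X]
      split_ifs with hlt
      · by_cases hq : q = pK (macS E s m) (nw m) (vw m) w
        · rw [hq, hkey]
          simp
        · simp [hq]
      · rfl

/-- As `BX.evP_eq_true`: there is no 0-valid plan, so `bl E s m l = false` for all `l`; the plan is legitimate. -/
theorem evP_true {m : ℕ} {w : S} (hw : plan E R s m (hist E R s m) = (false, w))
    (hl : legit (macS E s m) 0 (nw m) (vw m) (tw m) w = true)
    (h : ∀ w' : S, w'.length = WW (nw m) →
      val (macS E s m) 0 (nw m) (vw m) (tw m) (aw m) false (fun _ => false) w' = false) (q : S) :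
    evP (macS E s m) 0 (nw m) (vw m) (tw m) (aw m) true (lowh E R s (hist E R s m)) w false
      (XA E R s) q = inA E R s q := by
  have hb : ∀ l, bl E s m l = false := by
    intro l
    cases hbl : bl E s m l with
    | false => rfl
    | true =>
      unfold bl at hbl
      rw [Bool.and_eq_true] at hbl
      obtain ⟨w', h1, h2⟩ := findS_isSome.1 hbl.2
      unfold v0 at h2
      rw [h w' h1] at h2
      simp at h2
  unfold evP
  cases hc : isCod 3 q with
  | false =>
    rw [A5_noncod E R s hc]
    unfold ev
    rw [hc]
    simp
  | true =>
    cases hi : inI (nw m) (tw m) q with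
    | true =>
      exact ev_att E R s hw hl (fun l x _ _ => by rw [Bool.false_and]) hc hi
    | false =>
      unfold ev
      rw [hc, hi]
      simp only [if_true, Bool.false_eq_true, if_false]
      rw [A5_X]
      split_ifs with hlt hla
      · exact lowh_hist E R s hla
      · rw [not_lt] at hla
        rw [A5_ser E R s hc hla hlt, hb]
        cases hm : isMsk q with
        | true =>
          have hsh : isSh 3 q = false := by
            unfold isMsk at hm
            rw [decide_eq_true_eq] at hm
            rw [hm]
            exact isSh_msk _ _
          rw [hsh]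
          simp
        | false =>
          cases hf : isFre q with
          | true => simp
          | false =>
            rw [A5_cod hc hm hf]
            by_cases h0 : idx q = 0
            · simp [h0]
            · simp [h0]
      · rfl

/-- The kind of the plans that are used if there is no static plan. -/
def kin (s : Bool) : ℕ := if s then 2 else 1

/-- The plan is of kind `1` or `2` (in mode `false` all the strings outside of the attack interval are unknown,
`[]` is not a code). `hu`: the special bit may be used where it is allowed. -/
theorem evP_fb {m : ℕ} {w : S} (hw : plan E R s m (hist E R s m) = (true, w))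
    (hl : legit (macS E s m) (kin s) (nw m) (vw m) (tw m) w = true)
    (hu : ∀ l x, sok (macS E s m) (kin s) (nw m) (vw m) w l x = true → isP x = true →
      usb R l (spi E s m) = true) (q : S) :
    evP (macS E s m) (kin s) (nw m) (vw m) (tw m) (aw m) false (fun _ => false) w
      (Kd E (spi E s m).1 && Kd E (spi E s m).2) (XA E R s) q = inA E R s q := by
  have hk : kin s ≠ 0 := by
    unfold kin
    cases s <;> simp
  unfold evP
  rw [if_neg hk]
  cases hc : isCod 3 q with
  | false =>
    rw [A5_noncod E R s hc]
    unfold ev
    rw [hc]
    simp
  | true =>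
    cases hi : inI (nw m) (tw m) q with
    | true =>
      refine ev_att E R s hw hl (fun l x h1 h2 => ?_) hc hi
      unfold spv
      rw [hu l x h1 h2, Bool.true_and, Bool.true_and]
    | false =>
      have hq : q ≠ [] := by
        rintro rfl
        exact absurd hc (by decide)
      unfold ev
      rw [hc, hi]
      simp only [if_true, Bool.false_eq_true, if_false]
      rw [A5_X]
      simp [hq]

/-- There is a static plan for window `m`. -/
def Stat (m : ℕ) : Prop :=
  ∃ w : S, w.length = WW (nw m) ∧
    (val (macS E s m) 0 (nw m) (vw m) (tw m) (aw m) false (fun _ => false) w = true ∨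
      val (macS E s m) 0 (nw m) (vw m) (tw m) (aw m) true (lowh E R s (hist E R s m)) w = true)

/-- If there is a static plan, the machine of window `m` errs at a target of some plan (`val_sound` with
`p = false`). -/
theorem window_st (hk : E.k = 3) {m : ℕ} (h : Stat E R s m) :
    ∃ (w : S), ∃ t ∈ tgt (macS E s m) (nw m) (vw m) w, vio (macS E s m) (inA E R s) t = true := by
  cases hf : findS (val (macS E s m) 0 (nw m) (vw m) (tw m) (aw m) false (fun _ => false))
      (WW (nw m)) with
  | some w =>
    have hp : plan E R s m (hist E R s m) = (false, w) := by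
      unfold plan
      rw [hf]
    obtain ⟨hl, hv⟩ := findS_some hf
    obtain ⟨t, ht, h1⟩ := val_sound (macS_qs_length E s hk m) hv (XA E R s) false (by simp [cnd])
    refine ⟨w, t, ht, ?_⟩
    rw [funext (evP_false E R s hp hl hv)] at h1
    exact h1
  | none =>
    have hno : ∀ w' : S, w'.length = WW (nw m) →
        val (macS E s m) 0 (nw m) (vw m) (tw m) (aw m) false (fun _ => false) w' = false := by
      intro w' hw'
      cases hv : val (macS E s m) 0 (nw m) (vw m) (tw m) (aw m) false (fun _ => false) w' with
      | false => rfl
      | true =>
        have := findS_isSome.2 ⟨w', hw', hv⟩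
        rw [hf] at this
        simp at this
    obtain ⟨w0, hl0, h0⟩ := h
    rcases h0 with h0 | h0
    · rw [hno w0 hl0] at h0
      exact absurd h0 (by simp)
    · cases hg : findS (val (macS E s m) 0 (nw m) (vw m) (tw m) (aw m) true
          (lowh E R s (hist E R s m))) (WW (nw m)) with
      | none =>
        have := findS_isSome.2 ⟨w0, hl0, h0⟩
        rw [hg] at this
        simp at this
      | some w =>
        have hp : plan E R s m (hist E R s m) = (false, w) := by
          unfold plan
          rw [hf, hg]
        obtain ⟨hl, hv⟩ := findS_some hg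
        obtain ⟨t, ht, h1⟩ := val_sound (macS_qs_length E s hk m) hv (XA E R s) false
          (by simp [cnd])
        have hlg : legit (macS E s m) 0 (nw m) (vw m) (tw m) w = true := by
          unfold val at hv
          rw [Bool.and_eq_true, Bool.and_eq_true] at hv
          exact hv.1.1
        refine ⟨w, t, ht, ?_⟩
        rw [funext (evP_true E R s hp hlg hno)] at h1
        exact h1

/-- If there is no static plan, the plan of kind `1` or `2` is used; if the condition on the special bit is
true, the machine errs at a target. -/
theorem window_fb (hk : E.k = 3) {m : ℕ} (h : ¬ Stat E R s m) {w : S} (hw : fbk E s m = some w)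
    (hu : ∀ l x, sok (macS E s m) (kin s) (nw m) (vw m) w l x = true → isP x = true →
      usb R l (spi E s m) = true)
    (hc : cnd (macS E s m) (kin s) (nw m) (vw m) w (XA E R s)
      (Kd E (spi E s m).1 && Kd E (spi E s m).2) = true) :
    ∃ t ∈ tgt (macS E s m) (nw m) (vw m) w, vio (macS E s m) (inA E R s) t = true := by
  have hf : findS (val (macS E s m) 0 (nw m) (vw m) (tw m) (aw m) false (fun _ => false))
      (WW (nw m)) = none := by
    cases hf : findS (val (macS E s m) 0 (nw m) (vw m) (tw m) (aw m) false (fun _ => false))
      (WW (nw m)) with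
    | none => rfl
    | some v =>
      obtain ⟨h1, h2⟩ := findS_some hf
      exact absurd ⟨v, h1, Or.inl h2⟩ h
  have hg : findS (val (macS E s m) 0 (nw m) (vw m) (tw m) (aw m) true
      (lowh E R s (hist E R s m))) (WW (nw m)) = none := by
    cases hg : findS (val (macS E s m) 0 (nw m) (vw m) (tw m) (aw m) true
      (lowh E R s (hist E R s m))) (WW (nw m)) with
    | none => rfl
    | some v =>
      obtain ⟨h1, h2⟩ := findS_some hg
      exact absurd ⟨v, h1, Or.inr h2⟩ h
  have hp : plan E R s m (hist E R s m) = (true, w) := by
    unfold plan
    rw [hf, hg, hw]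
  have hv : val (macS E s m) (kin s) (nw m) (vw m) (tw m) (aw m) false (fun _ => false) w =
      true := by
    cases s with
    | true =>
      have h1 : xw E m = some w := hw
      unfold xw at h1
      have h2 := (findS_some h1).2
      unfold xP at h2
      rw [Bool.and_eq_true] at h2
      exact h2.1
    | false =>
      have h1 : BY.hw E m = some w := hw
      unfold BY.hw at h1
      have h2 := (findS_some h1).2
      unfold hP at h2
      rw [Bool.and_eq_true] at h2
      exact h2.1
  have hlg : legit (macS E s m) (kin s) (nw m) (vw m) (tw m) w = true := by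
    have h1 := hv
    unfold val at h1
    rw [Bool.and_eq_true, Bool.and_eq_true] at h1
    exact h1.1.1
  obtain ⟨t, ht, h1⟩ := val_sound (macS_qs_length E s hk m) hv (XA E R s)
    (Kd E (spi E s m).1 && Kd E (spi E s m).2) hc
  refine ⟨t, ht, ?_⟩
  rw [funext (evP_fb E R s hp hlg hu)] at h1
  exact h1

end Pool.Agent.Helper21.BY
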