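import Pool.Agent.Helper21.BY.A5
import Pool.Agent.Helper21.BX.A2
import Pool.Agent.Helper21.BX.A6

/-!
Project BY (MP_4a5e7e_lc, `k = 3`): one of the two sets defeats all the machines.
-/

namespace Pool.Agent.Helper21.BY

open Pool.Agent.Helper21.BX
open Pool.Agent.Helper91.PolyTime (upr pr upr_pr)

/-- `aw` grows fast: induction, `aw (m + 1) = 2 ^ ((aw m) ^ 2 + 1)` and `m ≤ aw m`. -/
theorem mul_le_aw (C : ℕ) : ∃ m₀ : ℕ, ∀ m, m₀ ≤ m → C * (m + 1) ≤ aw m := by
  refine ⟨C + 2, fun m hm => ?_⟩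
  obtain ⟨j, rfl⟩ : ∃ j, m = j + 1 := ⟨m - 1, by omega⟩
  have h1 : aw (j + 1) = 2 ^ ((aw j) ^ 2 + 1) := rfl
  have h2 : j ≤ aw j := le_aw j
  have h3 : 2 ^ (j ^ 2 + 1) ≤ aw (j + 1) := by
    rw [h1]
    exact Nat.pow_le_pow_right (by norm_num) (by have := Nat.pow_le_pow_left h2 2; omega)
  refine le_trans ?_ h3
  have h4 : j ^ 2 + 1 ≤ 2 ^ (j ^ 2) := Nat.lt_two_pow_self
  have h5 : C * (j + 1 + 1) ≤ j * (j + 1 + 1) := Nat.mul_le_mul_right _ (by omega)
  rw [pow_succ]
  nlinarith [h4, h5, sq_nonneg ((j : ℤ) - 1)]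

/-- Each pair of programs occurs at arbitrarily late windows (`BX.pg_inf`). -/
theorem pgs_inf (e e' : S) (N : ℕ) : ∃ m, N ≤ m ∧ pgs false (pg m) = e ∧ pgs true (pg m) = e' := by
  obtain ⟨m, h1, h2⟩ := pg_inf (pr e e') N
  refine ⟨m, h1, ?_, ?_⟩
  · rw [h2]
    simp [pgs]
  · rw [h2]
    simp [pgs]

theorem A6_key (r x j : ℕ) (hx : x ≤ 2 ^ j) : x ^ r + r ≤ 2 ^ (j * r + r + 1) := by
  have h1 : x ^ r ≤ 2 ^ (j * r) := by
    rw [pow_mul]
    exact Nat.pow_le_pow_left hx r
  have h2 : r ≤ 2 ^ r := Nat.lt_two_pow_self.le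
  have h3 : 2 ^ (j * r) ≤ 2 ^ (j * r + r) := Nat.pow_le_pow_right (by norm_num) (by omega)
  have h4 : 2 ^ r ≤ 2 ^ (j * r + r) := Nat.pow_le_pow_right (by norm_num) (by omega)
  rw [pow_succ]
  omega

/-- Three rounds of a polynomial, starting with the bound of the scales, stay below `tw m`. -/
theorem A6_num (r : ℕ) : ∃ m₀ : ℕ, ∀ m, m₀ ≤ m →
    (((vw m + 2) ^ r + r) ^ r + r) ^ r + r ≤ tw m := by
  obtain ⟨m₀, h₀⟩ := mul_le_aw (r ^ 3 + (2 * r ^ 3 + (r + 1) * (r ^ 2 + r + 1)) + 1)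
  refine ⟨m₀, fun m hm => ?_⟩
  have h := h₀ m hm
  have h0 : vw m + 2 ≤ 2 ^ (aw m * m + 2) := by
    have e1 : vw m = 2 ^ (aw m * m) := rfl
    have e2 : 1 ≤ 2 ^ (aw m * m) := Nat.one_le_two_pow
    rw [e1, pow_add]
    omega
  have h1 := A6_key r _ _ h0
  have h2 := A6_key r _ _ h1
  have h3 := A6_key r _ _ h2
  refine h3.trans ?_
  have e0 : tw m = 2 ^ (aw m) ^ 2 := rfl
  rw [e0]
  refine Nat.pow_le_pow_right (by norm_num) ?_
  have e : (((aw m * m + 2) * r + r + 1) * r + r + 1) * r + r + 1 =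
      aw m * m * r ^ 3 + (2 * r ^ 3 + (r + 1) * (r ^ 2 + r + 1)) := by ring
  rw [e]
  set D := 2 * r ^ 3 + (r + 1) * (r ^ 2 + r + 1) with hD
  have ha : 1 ≤ aw m := by
    have : 1 ≤ (r ^ 3 + D + 1) * (m + 1) := Nat.mul_pos (by omega) (by omega)
    omega
  have h4 : aw m * ((r ^ 3 + D + 1) * (m + 1)) ≤ aw m * aw m := Nat.mul_le_mul_left _ h
  have h5 : D ≤ aw m * D := Nat.le_mul_of_pos_left _ ha
  have h6 : aw m * ((r ^ 3 + D + 1) * (m + 1)) =
      aw m * m * r ^ 3 + aw m * D + aw m * (r ^ 3 + D * m + m + 1) := by ring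
  nlinarith [h4, h5, h6, Nat.zero_le (aw m * (r ^ 3 + D * m + m + 1))]

/-- `M` is a machine with `3` queries of polynomial length, given by the program `e`. -/
def Prog (E : Env) (e : S) (M : Mac) (r : ℕ) : Prop :=
  1 ≤ r ∧ (∀ q, ∀ q' ∈ M.qs q, q'.length ≤ q.length ^ r + r) ∧
    ∀ q t, q.length ^ r + r ≤ t → (mac E e t).side q = M.side q ∧
      (mac E e t).tab q = M.tab q ∧ (mac E e t).qs q = M.qs q

theorem A6_mono (r : ℕ) {x y : ℕ} (h : x ≤ y) : x ^ r + r ≤ y ^ r + r :=
  Nat.add_le_add_right (Nat.pow_le_pow_left h r) r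

theorem A6_self {r : ℕ} (hr : 1 ≤ r) (x : ℕ) : x ≤ x ^ r + r :=
  (Nat.le_self_pow (by omega) x).trans (Nat.le_add_right _ _)

/-- The clocked machine agrees with the machine on strings that are not too long. -/
theorem A6_acc {E : Env} {e : S} {M : Mac} {r m : ℕ} {s : Bool} (hM : Prog E e M r)
    (he : pgs s (pg m) = e)
    (hnum : (((vw m + 2) ^ r + r) ^ r + r) ^ r + r ≤ tw m) {q : S}
    (hq : q.length ≤ ((vw m + 2) ^ r + r) ^ r + r) :
    (macS E s m).side q = M.side q ∧ (macS E s m).tab q = M.tab q ∧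
      (macS E s m).qs q = M.qs q := by
  have h : macS E s m = mac E e (tw m) := by
    unfold macS
    rw [he]
  rw [h]
  exact hM.2.2 q (tw m) ((A6_mono r hq).trans hnum)

theorem A6_getD {α : Type} (l : List α) (i : ℕ) (d : α) : l.getD i d ∈ l ∨ l.getD i d = d := by
  by_cases h : i < l.length
  · left
    rw [List.getD_eq_getElem _ _ h]
    exact List.getElem_mem h
  · right
    exact List.getD_eq_default _ _ (by omega)

theorem A6_pS_le (n ν : ℕ) (w : S) : pS n ν w ≤ ν := by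
  unfold pS pw
  split_ifs with h
  · exact h
  · exact Nat.zero_le _

theorem A6_lenY {n ν : ℕ} {w v : S} {X : ℕ} (hv : v.length ≤ n ^ 2) (hn : n ^ 2 ≤ X)
    (hX : pS n ν w ≤ X) :
    (fre (v ++ List.replicate (pS n ν w - n ^ 2) false)).length ≤ X + 2 := by
  simp only [fre, List.length_cons, List.length_append, List.length_replicate]
  omega

/-- The lengths of the targets and of their queries. -/
theorem A6_tgt {E : Env} {e : S} {M : Mac} {r m : ℕ} {s : Bool} (hM : Prog E e M r)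
    (he : pgs s (pg m) = e)
    (hnum : (((vw m + 2) ^ r + r) ^ r + r) ^ r + r ≤ tw m) {w : S} {X : ℕ}
    (hn : nw m ^ 2 ≤ X) (hX : X ≤ vw m) (hw : pS (nw m) (vw m) w ≤ X) {t : S}
    (ht : t ∈ tgt (macS E s m) (nw m) (vw m) w) :
    t.length ≤ (X + 2) ^ r + r ∧
      ∀ q ∈ (macS E s m).qs t, q.length ≤ ((X + 2) ^ r + r) ^ r + r := by
  have hr := hM.1
  have hV : X + 2 ≤ vw m + 2 := by omega
  have b1 : X + 2 ≤ (X + 2) ^ r + r := A6_self hr _
  have b2 : (X + 2) ^ r + r ≤ (vw m + 2) ^ r + r := A6_mono r hV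
  have b3 : (vw m + 2) ^ r + r ≤ ((vw m + 2) ^ r + r) ^ r + r := A6_self hr _
  have hYl : (pY (nw m) (vw m) w).length ≤ X + 2 :=
    A6_lenY (by rw [List.length_take]; exact min_le_left _ _) hn hw
  have hYl2 : (pY2 (nw m) (vw m) w).length ≤ X + 2 :=
    A6_lenY (by rw [List.length_take]; exact min_le_left _ _) hn hw
  have hqs : ∀ q : S, q.length ≤ X + 2 → ∀ q' ∈ (macS E s m).qs q,
      q'.length ≤ (X + 2) ^ r + r := by
    intro q hq q' hq'
    rw [(A6_acc hM he hnum (hq.trans (b1.trans (b2.trans b3)))).2.2] at hq'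
    exact (hM.2.1 q q' hq').trans (A6_mono r hq)
  have key : t.length ≤ (X + 2) ^ r + r := by
    unfold tgt at ht
    simp only [List.mem_cons, List.not_mem_nil, or_false] at ht
    rcases ht with rfl | rfl | rfl | rfl
    · exact hYl.trans b1
    · exact hYl2.trans b1
    · unfold pZ
      rcases A6_getD ((macS E s m).qs (pY (nw m) (vw m) w)) (pC (nw m) w).2.1 [] with h | h
      · exact hqs _ hYl _ h
      · rw [h]
        exact Nat.zero_le _
    · unfold pZ2
      rcases A6_getD ((macS E s m).qs (pY2 (nw m) (vw m) w)) (pC (nw m) w).2.2.1 [] with h | h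
      · exact hqs _ hYl2 _ h
      · rw [h]
        exact Nat.zero_le _
  refine ⟨key, fun q hq => ?_⟩
  rw [(A6_acc hM he hnum (key.trans (b2.trans b3))).2.2] at hq
  exact (hM.2.1 t q hq).trans (A6_mono r key)

theorem A6_sq_le {m : ℕ} (hm : 2 ≤ m) : nw m ^ 2 ≤ vw m := by
  have e1 : nw m ^ 2 = 2 ^ (aw m * 2) := by
    unfold nw
    rw [← pow_mul]
  rw [e1]
  exact Nat.pow_le_pow_right (by norm_num) (Nat.mul_le_mul_left _ hm)

/-- All the targets of the window are short enough: the clocked machine errs there iff the machine does.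
(`tgt`: `pY`, `pY2` have length at most `max (nw m ^ 2) (vw m) + 2`, and `nw m ^ 2 ≤ vw m` for `2 ≤ m`; `pZ`, `pZ2` are queries of
these or empty.) -/
theorem vio_mac {E : Env} {e : S} {M : Mac} {r m : ℕ} {s : Bool} (hM : Prog E e M r)
    (he : pgs s (pg m) = e) (hm : 2 ≤ m)
    (hnum : (((vw m + 2) ^ r + r) ^ r + r) ^ r + r ≤ tw m) {w t : S}
    (ht : t ∈ tgt (macS E s m) (nw m) (vw m) w) {χ : S → Bool}
    (h : vio (macS E s m) χ t = true) : vio M χ t = true := by
  have hr := hM.1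
  obtain ⟨h1, h2⟩ := A6_tgt hM he hnum (A6_sq_le hm) le_rfl (A6_pS_le _ _ w) ht
  have b3 : (vw m + 2) ^ r + r ≤ ((vw m + 2) ^ r + r) ^ r + r := A6_self hr _
  obtain ⟨g1, g2, g3⟩ := A6_acc hM he hnum (h1.trans b3)
  unfold vio at h ⊢
  rw [g3] at h2
  rw [g1, g2, g3] at h
  have hmap : (M.qs t).map (fun q => ((macS E s m).side q != M.side t) && χ q) =
      (M.qs t).map (fun q => (M.side q != M.side t) && χ q) := by
    refine List.map_congr_left ?_
    intro q hq
    rw [(A6_acc hM he hnum (h2 q hq)).1]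
  rw [hmap] at h
  exact h

/-- The lengths of the instances of a plan whose scale is `x`: they are parts of queries of targets. -/
theorem pR_length {E : Env} {e : S} {M : Mac} {r m : ℕ} {s : Bool} (hM : Prog E e M r)
    (he : pgs s (pg m) = e) (hm : 2 ≤ m)
    (hnum : (((vw m + 2) ^ r + r) ^ r + r) ^ r + r ≤ tw m) {w : S} {x : ℕ}
    (hx : nw m ^ 2 ≤ x) (hx' : x ≤ vw m) (hw : pS (nw m) (vw m) w = x) :
    (pR1 (macS E s m) (nw m) (vw m) w).length ≤ ((x + 2) ^ r + r) ^ r + r ∧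
      (pR2 (macS E s m) (nw m) (vw m) w).length ≤ ((x + 2) ^ r + r) ^ r + r := by
  have _ := hm
  have hr := hM.1
  have key : ∀ i : ℕ, (rest ((rel (macS E s m) (nw m) (vw m) w).getD i [])).length ≤
      ((x + 2) ^ r + r) ^ r + r := by
    intro i
    have hrest : ∀ q : S, (rest q).length ≤ q.length := by
      intro q
      unfold rest
      rw [List.length_drop]
      omega
    refine (hrest _).trans ?_
    rcases A6_getD (rel (macS E s m) (nw m) (vw m) w) i [] with h | h
    · unfold rel at h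
      rcases List.mem_append.1 h with h | h
      · exact (A6_tgt hM he hnum hx hx' hw.le h).1.trans (A6_self hr _)
      · obtain ⟨t, ht, hq⟩ := List.mem_flatMap.1 h
        exact (A6_tgt hM he hnum hx hx' hw.le ht).2 _ hq
    · rw [h]
      exact Nat.zero_le _
  exact ⟨key _, key _⟩

/-- Numbers: the exponent of the second set. -/
theorem A6_R (r : ℕ) : ∃ R : ℕ, ∀ l : ℕ, ((2 * l ^ 2 + 2) ^ r + r) ^ r + r ≤ l ^ R + R := by
  have key : ∀ l y j : ℕ, 2 ≤ l → y ≤ l ^ j → y ^ r + r ≤ l ^ (j * r + r + 1) := by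
    intro l y j hl hy
    have h1 : y ^ r ≤ l ^ (j * r) := by
      rw [pow_mul]
      exact Nat.pow_le_pow_left hy r
    have h2 : r ≤ l ^ r := (Nat.lt_pow_self hl).le
    have h3 : l ^ (j * r) ≤ l ^ (j * r + r) := Nat.pow_le_pow_right (by omega) (by omega)
    have h4 : l ^ r ≤ l ^ (j * r + r) := Nat.pow_le_pow_right (by omega) (by omega)
    rw [pow_succ]
    nlinarith [h1, h2, h3, h4, Nat.zero_le (l ^ (j * r + r))]
  set E := (4 * r + r + 1) * r + r + 1 with hE
  set B := ((2 * 1 ^ 2 + 2) ^ r + r) ^ r + r with hB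
  refine ⟨E + B, fun l => ?_⟩
  rcases Nat.lt_or_ge l 2 with hl | hl
  · have h1 : 2 * l ^ 2 + 2 ≤ 2 * 1 ^ 2 + 2 := by
      have : l ^ 2 ≤ 1 ^ 2 := Nat.pow_le_pow_left (by omega) 2
      omega
    have h2 := A6_mono r (A6_mono r h1)
    omega
  · have h0 : 2 * l ^ 2 + 2 ≤ l ^ 4 := by
      have h1 : 4 ≤ l ^ 2 := by nlinarith
      have h2 : l ^ 4 = l ^ 2 * l ^ 2 := by ring
      rw [h2]
      nlinarith
    have h2 := key l _ _ hl (key l _ _ hl h0)
    have h3 : l ^ E ≤ l ^ (E + B) := Nat.pow_le_pow_right (by omega) (by omega)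
    exact (h2.trans h3).trans (Nat.le_add_right _ _)

/-- Numbers: twice two rounds of a polynomial, starting with the square, stay below `vw m`. -/
theorem A6_num2 (r : ℕ) : ∃ m₀ : ℕ, ∀ m, m₀ ≤ m →
    2 * (((nw m ^ 2 + 2) ^ r + r) ^ r + r) ≤ vw m := by
  refine ⟨2 + (3 * r ^ 2 + r * (r + 1) + r + 1 + 1), fun m hm => ?_⟩
  have ha : 1 ≤ aw m := by
    have := le_aw m
    omega
  have h0 : nw m ^ 2 + 2 ≤ 2 ^ (2 * aw m + 1) := by
    have e1 : nw m ^ 2 = 2 ^ (2 * aw m) := by
      unfold nw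
      rw [← pow_mul, mul_comm]
    have e2 : 2 ^ 1 ≤ 2 ^ (2 * aw m) := Nat.pow_le_pow_right (by norm_num) (by omega)
    rw [e1, pow_succ]
    omega
  have h1 := A6_key r _ _ h0
  have h2 := A6_key r _ _ h1
  have h3 : vw m = 2 ^ (aw m * m) := rfl
  rw [h3]
  calc 2 * (((nw m ^ 2 + 2) ^ r + r) ^ r + r)
      ≤ 2 * 2 ^ (((2 * aw m + 1) * r + r + 1) * r + r + 1) := Nat.mul_le_mul_left _ h2
    _ = 2 ^ ((((2 * aw m + 1) * r + r + 1) * r + r + 1) + 1) := by rw [pow_succ]; ring
    _ ≤ 2 ^ (aw m * m) := ?_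
  refine Nat.pow_le_pow_right (by norm_num) ?_
  have h4 : aw m * (2 + (3 * r ^ 2 + r * (r + 1) + r + 1 + 1)) ≤ aw m * m := Nat.mul_le_mul_left _ hm
  refine le_trans ?_ h4
  have e : (((2 * aw m + 1) * r + r + 1) * r + r + 1) + 1 =
      2 * aw m * r ^ 2 + (2 * r ^ 2 + 2 * r + 2) := by ring
  rw [e]
  nlinarith [Nat.mul_le_mul_right (2 * r ^ 2 + 2 * r + 2) ha, Nat.zero_le (aw m * r ^ 2),
    Nat.zero_le (aw m * r), Nat.zero_le (r ^ 2)]

/-- A power of two between a number and its double. -/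
theorem A6_two {X : ℕ} (h : 1 ≤ X) : ∃ i, X ≤ 2 ^ i ∧ 2 ^ i ≤ 2 * X := by
  refine ⟨Nat.log 2 X + 1, (Nat.lt_pow_succ_log_self (by norm_num) X).le, ?_⟩
  rw [pow_succ]
  have := Nat.pow_log_le_self 2 (x := X) (by omega)
  omega

/-- The hypothesis of `ExPlan` on the levels. -/
theorem A6_lev {E : Env} {e : S} {M : Mac} {r m : ℕ} {s : Bool} (hM : Prog E e M r)
    (he : pgs s (pg m) = e)
    (hnum : (((vw m + 2) ^ r + r) ^ r + r) ^ r + r ≤ tw m) {i : ℕ} (hi : 2 ^ i ≤ vw m) (u : S)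
    (hu : u.length = 2 ^ i) (q : S) (hq : q ∈ (macS E s m).qs (fre u)) :
    lev q ≤ tw m ∧ ∀ q' ∈ (macS E s m).qs q, lev q' ≤ tw m := by
  have hr := hM.1
  have b1 : vw m + 2 ≤ (vw m + 2) ^ r + r := A6_self hr _
  have b2 : (vw m + 2) ^ r + r ≤ ((vw m + 2) ^ r + r) ^ r + r := A6_self hr _
  have b3 : ((vw m + 2) ^ r + r) ^ r + r ≤ tw m := (A6_self hr _).trans hnum
  have hl : (fre u).length ≤ vw m + 2 := by
    simp only [fre, List.length_cons]
    omega
  rw [(A6_acc hM he hnum (hl.trans (b1.trans b2))).2.2] at hq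
  have h1 : q.length ≤ (vw m + 2) ^ r + r := (hM.2.1 _ q hq).trans (A6_mono r hl)
  refine ⟨(lev_le_length q).trans (h1.trans (b2.trans b3)), fun q' hq' => ?_⟩
  rw [(A6_acc hM he hnum (h1.trans b2)).2.2] at hq'
  exact (lev_le_length q').trans (((hM.2.1 _ q' hq').trans (A6_mono r h1)).trans b3)

/-- The two sets: if `M` never errs at the set of kind `false` (exponent `1`), then for some `R` each machine
errs somewhere at the set of kind `true` with the exponent `R`.

Proof. `R` is such that `((2 * l ^ 2 + 2) ^ r + r) ^ r + r ≤ l ^ R + R` for all `l`. Let `M'` be given by the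
program `e'` with the exponent `r'`, and assume that it never errs. Take a late window `m` with the pair
`(e, e')` (`pgs_inf`). By `vio_mac` and `window_st` there is no static plan, neither for `s = false`
(`R = 1`) nor for `s = true`. By `ExPlan` for `macS E true m` and the scale `nw m ^ 2 = 2 ^ (2 * aw m)` the plan
`xw E m = some w₂` exists. Let `(c, c')` be its instances `al E m`; they have length at most
`((nw m ^ 2 + 2) ^ r' + r') ^ r' + r'`, so the least power of two `2 ^ i ≥ nw m ^ 2, |c|, |c'|` is at most `vw m` and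
`scok (nw m) (al E m) (2 ^ i)` is true. By `ExPlan` for `macS E false m` and the scale `2 ^ i` the plan
`hw E m = some w₁` exists. In it the special bit is allowed only at levels `≥ 2 ^ i ≥ |c|, |c'|`, so
`usb 1 l (c, c')`; as `M` does not err, `window_fb` gives that `cnd` is false: the special bit
`K c and K c'` is not `K d`, where `d = pR1 ..` is the instance of `w₁`; so `K d = not (K c and K c')`, which is
`cnd` for `w₂` and the special bit `K d and K d` of the set of kind `true`. The special bit is allowed in `w₂` only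
at levels `l ≥ nw m, |c|, |c'|`, so `2 ^ i ≤ 2 * l ^ 2` (`scok`), and `|d| ≤ ((2 ^ i + 2) ^ r + r) ^ r + r ≤ l ^ R + R`. So
`window_fb` and `vio_mac` show that `M'` errs. -/
theorem two_sets {E : Env} (hk : E.k = 3) (hex : ExPlan) {e : S} {M : Mac} {r : ℕ}
    (hM : Prog E e M r) (hno : ∀ t, vio M (inA E 1 false) t = false) :
    ∃ R : ℕ, ∀ (e' : S) (M' : Mac) (r' : ℕ), Prog E e' M' r' →
      ∃ t, vio M' (inA E R true) t = true := by
  obtain ⟨R, hR⟩ := A6_R r
  refine ⟨R, fun e' M' r' hM' => ?_⟩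
  by_contra hcon
  have hno' : ∀ t, vio M' (inA E R true) t = false := fun t => by
    rw [← Bool.not_eq_true]
    exact fun h => hcon ⟨t, h⟩
  obtain ⟨n₀, hex⟩ := hex
  obtain ⟨m₁, hm₁⟩ := A6_num r
  obtain ⟨m₂, hm₂⟩ := A6_num r'
  obtain ⟨m₃, hm₃⟩ := A6_num2 r'
  obtain ⟨m, hm, he, he'⟩ := pgs_inf e e' (m₁ + m₂ + m₃ + n₀ + 4)
  have hn₁ := hm₁ m (by omega)
  have hn₂ := hm₂ m (by omega)
  have hn₃ := hm₃ m (by omega)
  have hm4 : 4 ≤ m := by omega
  have ha : m ≤ aw m := le_aw m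
  have hanw : aw m < nw m := aw_lt_nw m
  have hnn : n₀ ≤ nw m := by omega
  have hvt : vw m ≤ tw m := by
    have e1 : vw m = 2 ^ (aw m * m) := rfl
    have e2 : tw m = 2 ^ (aw m) ^ 2 := rfl
    rw [e1, e2]
    exact Nat.pow_le_pow_right (by norm_num) (by nlinarith)
  have hsq : ∀ a : ℕ, 4 ≤ a → a * a ≤ 2 ^ a := by
    intro a ha
    induction a, ha using Nat.le_induction with
    | base => norm_num
    | succ n hn ih =>
      rw [pow_succ]
      nlinarith
  have hexp : ∀ i : ℕ, 2 ^ i ≤ vw m → i ≤ nw m := by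
    intro i hi
    have h1 : i ≤ aw m * m := (Nat.pow_le_pow_iff_right (by norm_num)).1 hi
    have h2 : aw m * m ≤ aw m * aw m := Nat.mul_le_mul_left _ ha
    exact h1.trans (h2.trans (hsq _ (by omega)))
  -- no static plans
  have hs₁ : ¬ Stat E 1 false m := by
    intro h
    obtain ⟨w, t, ht, hv⟩ := window_st E 1 false hk h
    have := vio_mac hM he (by omega) hn₁ ht hv
    rw [hno t] at this
    exact Bool.noConfusion this
  have hs₂ : ¬ Stat E R true m := by
    intro h
    obtain ⟨w, t, ht, hv⟩ := window_st E R true hk h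
    have := vio_mac hM' he' (by omega) hn₂ ht hv
    rw [hno' t] at this
    exact Bool.noConfusion this
  -- the plan of kind 2
  have hpw : 2 ^ (2 * aw m) = nw m ^ 2 := by
    unfold nw
    rw [← pow_mul, mul_comm]
  have hn2v : nw m ^ 2 ≤ vw m := A6_sq_le (by omega)
  have hx2 : ∃ w : S, w.length = WW (nw m) ∧
      xP (macS E true m) (nw m) (vw m) (tw m) (aw m) w = true := by
    rcases hex (macS E true m) (nw m) (vw m) (tw m) (aw m) (2 * aw m)
      (lowh E R true (hist E R true m)) hnn (hexp _ (by rw [hpw]; exact hn2v)) hpw.ge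
      (by rw [hpw]; exact hn2v) (by rw [hpw]; exact hn2v.trans hvt) (macS_qs_length E true hk m)
      (fun u hu q hq => A6_lev hM' he' hn₂ (by rw [hpw]; exact hn2v) u hu q hq) with h | h
    · exact absurd h hs₂
    · obtain ⟨w, h1, h2, h3⟩ := h.2
      refine ⟨w, h1, ?_⟩
      unfold xP
      rw [h3, h2, hpw]
      simp
  obtain ⟨w₂, hw₂⟩ : ∃ w₂, xw E m = some w₂ := Option.isSome_iff_exists.1 (findS_isSome.2 hx2)
  have hw₂' := findS_some (show findS _ _ = some w₂ from hw₂)
  have hal : al E m = (pR1 (macS E true m) (nw m) (vw m) w₂, pR2 (macS E true m) (nw m) (vw m) w₂) := by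
    unfold al
    rw [hw₂]
    rfl
  have hps₂ : pS (nw m) (vw m) w₂ = nw m ^ 2 := by
    have := hw₂'.2
    unfold xP at this
    rw [Bool.and_eq_true, decide_eq_true_eq] at this
    exact this.2
  have hlen := pR_length hM' he' (by omega) hn₂ le_rfl hn2v hps₂
  set c := pR1 (macS E true m) (nw m) (vw m) w₂ with hc
  set c' := pR2 (macS E true m) (nw m) (vw m) w₂ with hc'
  have hbase : nw m ^ 2 ≤ ((nw m ^ 2 + 2) ^ r' + r') ^ r' + r' := by
    have b1 : nw m ^ 2 ≤ nw m ^ 2 + 2 := Nat.le_add_right _ _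
    exact b1.trans ((A6_self hM'.1 _).trans (A6_self hM'.1 _))
  obtain ⟨i, hi1, hi2⟩ := A6_two (X := max (nw m ^ 2) (max c.length c'.length))
    (le_max_of_le_left (Nat.one_le_pow _ _ (nw_pos m)))
  have hmax : max (nw m ^ 2) (max c.length c'.length) ≤ ((nw m ^ 2 + 2) ^ r' + r') ^ r' + r' :=
    max_le hbase (max_le hlen.1 hlen.2)
  have hiv : 2 ^ i ≤ vw m := hi2.trans ((Nat.mul_le_mul_left 2 hmax).trans hn₃)
  have hn2i : nw m ^ 2 ≤ 2 ^ i := (le_max_left _ _).trans hi1
  have hx1 : ∃ w : S, w.length = WW (nw m) ∧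
      hP (macS E false m) (al E m) (nw m) (vw m) (tw m) (aw m) w = true := by
    rcases hex (macS E false m) (nw m) (vw m) (tw m) (aw m) i
      (lowh E 1 false (hist E 1 false m)) hnn (hexp _ hiv) hn2i hiv (hiv.trans hvt)
      (macS_qs_length E false hk m)
      (fun u hu q hq => A6_lev hM he hn₁ hiv u hu q hq) with h | h
    · exact absurd h hs₁
    · obtain ⟨w, h1, h2, h3⟩ := h.1
      refine ⟨w, h1, ?_⟩
      unfold hP scok
      rw [h3, h2, hal]
      have g1 : c.length ≤ 2 ^ i := ((le_max_left _ _).trans (le_max_right _ _)).trans hi1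
      have g2 : c'.length ≤ 2 ^ i := ((le_max_right _ _).trans (le_max_right _ _)).trans hi1
      have g3 : 2 ^ i ≤ 2 * nw m ^ 2 ∨ 2 ^ i ≤ 2 * c.length ∨ 2 ^ i ≤ 2 * c'.length := by
        rcases max_cases (nw m ^ 2) (max c.length c'.length) with ⟨h, _⟩ | ⟨h, _⟩
        · rw [h] at hi2
          exact Or.inl hi2
        · rw [h] at hi2
          rcases max_cases c.length c'.length with ⟨h', _⟩ | ⟨h', _⟩
          · rw [h'] at hi2
            exact Or.inr (Or.inl hi2)
          · rw [h'] at hi2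
            exact Or.inr (Or.inr hi2)
      simp only [Bool.true_and, Bool.and_eq_true, Bool.or_eq_true, decide_eq_true_eq]
      exact ⟨⟨⟨hn2i, g1⟩, g2⟩, by rcases g3 with h | h | h <;> tauto⟩
  obtain ⟨w₁, hw₁⟩ : ∃ w₁, hw E m = some w₁ := Option.isSome_iff_exists.1 (findS_isSome.2 hx1)
  have hw₁' := findS_some (show findS _ _ = some w₁ from hw₁)
  set d := pR1 (macS E false m) (nw m) (vw m) w₁ with hd
  have hdd : dd E m = (d, d) := by
    unfold dd
    rw [hw₁]
    rfl
  have hsc : scok (nw m) (c, c') (pS (nw m) (vw m) w₁) = true := by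
    have := hw₁'.2
    unfold hP at this
    rw [Bool.and_eq_true, hal] at this
    exact this.2
  set x := pS (nw m) (vw m) w₁ with hx
  unfold scok at hsc
  simp only [Bool.and_eq_true, Bool.or_eq_true, decide_eq_true_eq] at hsc
  obtain ⟨⟨⟨hx0, hxc⟩, hxc'⟩, hxd⟩ := hsc
  have hxv : x ≤ vw m := A6_pS_le _ _ _
  have hdlen : d.length ≤ ((x + 2) ^ r + r) ^ r + r :=
    (pR_length hM he (by omega) hn₁ hx0 hxv hx.symm).1
  -- the set of kind false
  have hspf : spi E false m = (c, c') := by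
    unfold spi
    exact hal
  have hspt : spi E true m = (d, d) := by
    unfold spi
    exact hdd
  have hnot : ¬ (cnd (macS E false m) (kin false) (nw m) (vw m) w₁ (XA E 1 false)
      (Kd E (spi E false m).1 && Kd E (spi E false m).2) = true) := by
    intro hcn
    obtain ⟨t, ht, hv⟩ := window_fb E 1 false hk hs₁ (w := w₁) (by unfold fbk; exact hw₁)
      (fun l y h1 h2 => by
        rw [hspf]
        unfold sok at h1
        rw [Bool.and_eq_true] at h1
        have h3 := h1.2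
        rw [h2] at h3
        have h4 : x ≤ l := by simpa [kin] using h3
        unfold usb
        simp only [pow_one, Bool.and_eq_true, decide_eq_true_eq]
        exact ⟨by omega, by omega⟩) hcn
    have := vio_mac hM he (by omega) hn₁ ht hv
    rw [hno t] at this
    exact Bool.noConfusion this
  have hKd : Kd E d = !(Kd E c && Kd E c') := by
    rw [hspf] at hnot
    have h5 : cnd (macS E false m) (kin false) (nw m) (vw m) w₁ (XA E 1 false)
        (Kd E c && Kd E c') = ((Kd E c && Kd E c') == Kd E d) := rfl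
    dsimp only at hnot
    rw [h5] at hnot
    cases h6 : Kd E d <;> cases h7 : (Kd E c && Kd E c') <;> simp_all
  -- the set of kind true
  obtain ⟨t, ht, hv⟩ := window_fb E R true hk hs₂ (w := w₂) (by unfold fbk; exact hw₂)
    (fun l y h1 h2 => by
      rw [hspt]
      unfold sok at h1
      rw [Bool.and_eq_true] at h1
      have h3 := h1.2
      rw [h2] at h3
      have h4 : nw m ≤ l ∧ c.length ≤ l ∧ c'.length ≤ l := by
        simpa [kin, and_assoc] using h3
      have h5 : x ≤ 2 * l ^ 2 := by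
        have e0 : 1 ≤ l := (nw_pos m).trans_le h4.1
        have e1 : nw m ^ 2 ≤ l ^ 2 := Nat.pow_le_pow_left h4.1 2
        have e2 : l ≤ l ^ 2 := Nat.le_self_pow (by norm_num) l
        rcases hxd with (h | h) | h <;> omega
      have h6 : d.length ≤ l ^ R + R :=
        hdlen.trans ((A6_mono r (A6_mono r (by omega))).trans (hR l))
      unfold usb
      simp only [Bool.and_eq_true, decide_eq_true_eq]
      exact ⟨h6, h6⟩)
    (by
      rw [hspt]
      have h5 : cnd (macS E true m) (kin true) (nw m) (vw m) w₂ (XA E R true)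
        (Kd E d && Kd E d) = ((Kd E d && Kd E d) == !(Kd E c && Kd E c')) := rfl
      dsimp only
      rw [h5, hKd]
      simp)
  have := vio_mac hM' he' (by omega) hn₂ ht hv
  rw [hno' t] at this
  exact Bool.noConfusion this

end Pool.Agent.Helper21.BY
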