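import Pool.Agent.Helper21.BY.Gd
import Pool.Agent.Helper21.BX.Ad

/-!
Project BY (MP_4a5e7e_lc, Q2 for `k = 3`): the sets, definitions.

Window `m` belongs to the pair of programs `pgs false m`, `pgs true m` (all the pairs occur at infinitely
many windows). There are two kinds of sets, `s = false` and `s = true`, and an exponent `R`. The set of kind
`s` attacks the program `pgs s m` at window `m`: by the first static plan if there is one (0-valid first),
otherwise by the first plan of kind `1` (`s = false`) or of kind `2` (`s = true`). The special bit is
`K c and K c'` with `(c, c') = spi s m`: for `s = false` the two instances of the first plan of kind `2` for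
`pgs true m`, for `s = true` (twice) the instance of the first plan of kind `1` for `pgs false m`.
-/

namespace Pool.Agent.Helper21.BY

open Pool.Agent.Helper21.BX hiding val legit keyok evP ev pY pY2 pD pB pZ pZ2 tgt rel pL pK WW v0 bl
  rul inW lowh dfl plan hist inA
open Pool.Agent.Helper91.PolyTime (upr pr)

/-- The program attacked by the set of kind `s`, if `e` is the pair of the window. -/
def pgs (s : Bool) (e : S) : S := if s then (upr e).2 else (upr e).1

/-- The machine attacked by the set of kind `s` at window `m`. -/
def macS (E : Env) (s : Bool) (m : ℕ) : Mac := mac E (pgs s (pg m)) (tw m)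

/-- The bound for the scales at window `m`. -/
def vw (m : ℕ) : ℕ := 2 ^ (aw m * m)

/-! ### plans of kind 1 and 2 -/

/-- A plan of kind `2` (for the second program) whose scale is `n ^ 2`. -/
noncomputable def xP (M : Mac) (n ν t a : ℕ) (w : S) : Bool :=
  val M 2 n ν t a false (fun _ => false) w && decide (pS n ν w = n ^ 2)

/-- The first plan of kind `2` of window `m` (for the second program). -/
noncomputable def xw (E : Env) (m : ℕ) : Option S :=
  findS (xP (macS E true m) (nw m) (vw m) (tw m) (aw m)) (WW (nw m))

/-- The two instances of a plan, if there is one. -/
noncomputable def ins (M : Mac) (n ν : ℕ) : Option S → S × S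
  | some w => (pR1 M n ν w, pR2 M n ν w)
  | none => ([], [])

/-- The instances of the plan `xw`. -/
noncomputable def al (E : Env) (m : ℕ) : S × S := ins (macS E true m) (nw m) (vw m) (xw E m)

/-- The scale `x` is right for the plan of kind `1`: at least `n ^ 2` and the lengths of `c`, at most twice
one of these numbers. -/
def scok (n : ℕ) (c : S × S) (x : ℕ) : Bool :=
  (decide (n ^ 2 ≤ x) && decide (c.1.length ≤ x) && decide (c.2.length ≤ x)) &&
    (decide (x ≤ 2 * n ^ 2) || decide (x ≤ 2 * c.1.length) || decide (x ≤ 2 * c.2.length))

/-- A plan of kind `1` (for the first program) with a right scale. -/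
noncomputable def hP (M : Mac) (c : S × S) (n ν t a : ℕ) (w : S) : Bool :=
  val M 1 n ν t a false (fun _ => false) w && scok n c (pS n ν w)

/-- The first plan of kind `1` of window `m` (for the first program). -/
noncomputable def hw (E : Env) (m : ℕ) : Option S :=
  findS (hP (macS E false m) (al E m) (nw m) (vw m) (tw m) (aw m)) (WW (nw m))

/-- The instance of the plan `hw` (twice). -/
noncomputable def dd (E : Env) (m : ℕ) : S × S :=
  ((ins (macS E false m) (nw m) (vw m) (hw E m)).1, (ins (macS E false m) (nw m) (vw m) (hw E m)).1)

/-- The instances of the special bit. -/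
noncomputable def spi (E : Env) (s : Bool) (m : ℕ) : S × S := if s then dd E m else al E m

/-- The plan that is used if there is no static plan. -/
noncomputable def fbk (E : Env) (s : Bool) (m : ℕ) : Option S := if s then xw E m else hw E m

/-! ### the set -/

/-- The value of a symbol in the host of a string of level `l`: `kd` evaluates instances of length at
most `l`. -/
def sy (kd : S → Bool) (p : Bool) (l : ℕ) : S → Bool
  | [] => true
  | true :: c => decide (c.length ≤ l) && kd c
  | [false] => false
  | false :: _ :: _ => p

/-- The value of a free string of level `l`. -/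
def fvg (k0 k1 k2 : S → Bool) (p : Bool) (l : ℕ) (H : List (S × Hst)) (q : S) : Bool :=
  H.any (fun r => decide (r.1 = q) &&
    ((sy k0 p l r.2.1 || sy k1 p l r.2.2.1) && sy k2 p l r.2.2.2))

/-- The instance may be used for the special bit at level `l`. -/
def usb (R l : ℕ) (c : S × S) : Bool :=
  decide (c.1.length ≤ l ^ R + R) && decide (c.2.length ≤ l ^ R + R)

/-- The special bit at level `l`. -/
noncomputable def spv (E : Env) (R : ℕ) (s : Bool) (m l : ℕ) : Bool :=
  usb R l (spi E s m) && (Kd E (spi E s m).1 && Kd E (spi E s m).2)

/-- The rule for the set: `att` says that the level is in an attack interval, which begins at `n`; `b` is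
the bit of the plan, `f` the value if `q` is a free string or a free share, `Kc` the value of the complete
set, `β` the bit of the level. -/
def rul (att : Bool) (n : ℕ) (b f Kc β : Bool) (q : S) : Bool :=
  if isCod 3 q then
    (if att then
      (if isMsk q then b && decide (lev q = n)
      else if isSh 3 q && decide (idx q = fi b) then Kc
      else f)
    else
      (if isMsk q then β
      else if isFre q then false
      else if idx q = 0 then Kc || β
      else Kc && β))
  else false

/-- `w` is a 0-valid plan of window `m` with a key of level `l`. -/
noncomputable def v0 (E : Env) (s : Bool) (m l : ℕ) (w : S) : Bool :=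
  val (macS E s m) 0 (nw m) (vw m) (tw m) (aw m) false (fun _ => false) w &&
    decide (lev (pK (macS E s m) (nw m) (vw m) w) = l)

/-- The bit of the level `l` of window `m`, outside the attack interval. -/
noncomputable def bl (E : Env) (s : Bool) (m l : ℕ) : Bool :=
  decide (l < nw m) && (findS (v0 E s m l) (WW (nw m))).isSome

/-- Membership of `q` in the set, if `P` is the plan of its window (the bit says that the plan is of kind `1`
or `2`). -/
noncomputable def inW (E : Env) (R : ℕ) (s : Bool) (P : Bool × S) (q : S) : Bool :=
  rul (inI (nw (win (lev q))) (tw (win (lev q))) q) (nw (win (lev q)))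
    (pB (nw (win (lev q))) P.2)
    (fvg (Kd E) (Kd E) (Kd E) (P.1 && spv E R s (win (lev q)) (lev q)) (lev q)
      (pH (macS E s (win (lev q))) (nw (win (lev q))) (vw (win (lev q))) P.2) q)
    (isSh 3 q && Kd E (rest q)) (bl E s (win (lev q)) (lev q)) q

/-- Membership of `q`, if `h` is the list of the plans. -/
noncomputable def lowh (E : Env) (R : ℕ) (s : Bool) (h : List (Bool × S)) (q : S) : Bool :=
  inW E R s (h.getD (win (lev q)) (false, [])) q

/-- The default plan. -/
noncomputable def dfl (n : ℕ) : S := List.replicate (WW n) false

/-- The plan of window `m`, if `h` is the list of the plans of the windows before. -/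
noncomputable def plan (E : Env) (R : ℕ) (s : Bool) (m : ℕ) (h : List (Bool × S)) : Bool × S :=
  match findS (val (macS E s m) 0 (nw m) (vw m) (tw m) (aw m) false (fun _ => false))
    (WW (nw m)) with
  | some w => (false, w)
  | none =>
    match findS (val (macS E s m) 0 (nw m) (vw m) (tw m) (aw m) true (lowh E R s h))
      (WW (nw m)) with
    | some w => (false, w)
    | none =>
      match fbk E s m with
      | some w => (true, w)
      | none => (false, dfl (nw m))

/-- The list of the plans of the windows before `m`. -/
noncomputable def hist (E : Env) (R : ℕ) (s : Bool) : ℕ → List (Bool × S)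
  | 0 => []
  | m + 1 => hist E R s m ++ [plan E R s m (hist E R s m)]

/-- The characteristic function of the set. -/
noncomputable def inA (E : Env) (R : ℕ) (s : Bool) (q : S) : Bool :=
  lowh E R s (hist E R s (win (lev q) + 1)) q

end Pool.Agent.Helper21.BY
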