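import Pool.Agent.Helper21.BY.N3
import Pool.Agent.Helper21.BX.F2

/-!
Project BY (MP_4a5e7e_lc, `k = 3`): the sets are complete for NEXP.
-/

namespace Pool.Agent.Helper21.BY

open Pool.Agent.Helper91.PolyTime Pool.Agent.Helper7.BX
open Pool.Agent.Helper21.BX

/-- The sets. -/
def AS (R : ℕ) (s : Bool) : Lang := {q | inA (EE 3) R s q = true}

/-- The queries for the instance `c`. -/
def q3 (c : S) : List S :=
  [msk (if att c.length then BX.pw c.length (wpar c.length).2 else c.length), sh 0 c, sh 1 c]

/-- The evaluation of the answers. -/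
def D3 (ans : List Bool) : Bool := if ans.headD false then ans.getD 2 false else ans.getD 1 false

/-- `decode_att`, `decode_ser`, `att_iff` (compare `BX.DD_correct`). -/
theorem D3_correct (R : ℕ) (s : Bool) (c : S) :
    D3 ((q3 c).map (fun q => inA (EE 3) R s q)) = Kd (EE 3) c := by
  have hq : (q3 c).map (fun q => inA (EE 3) R s q) =
      [inA (EE 3) R s (msk (if att c.length then BX.pw c.length (wpar c.length).2 else c.length)),
        inA (EE 3) R s (sh 0 c), inA (EE 3) R s (sh 1 c)] := rfl
  rw [hq]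
  by_cases ha : att c.length = true
  · obtain ⟨h1, h2⟩ := (att_iff c.length).1 ha
    have h3 : BX.pw c.length (wpar c.length).2 = nw (win c.length) := by
      rw [wpar_eq]
      exact pw_eq h1
    rw [if_pos ha, h3, decode_att (EE 3) R s h1 h2]
    rfl
  · rw [decode_ser (EE 3) R s (m := win c.length) rfl (fun h => ha ((att_iff c.length).2 h)),
      if_neg ha]
    rfl

variable {α : Type} [PEnc α]

theorem ptf_q3 {c : α → S} (hc : PTF c) : PTF (fun a => q3 (c a)) := by
  have hl : PTF (fun a => (c a).length) := PTF.length hc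
  have hatt : PTF (fun a => att (c a).length) := ptf_att hl
  have h1 : PTF (fun a => BX.pw (c a).length (wpar (c a).length).2) :=
    ptf_pw hl (ptf_wpar hl).snd
  exact PTF.cons (ptf_msk (F2_ite hatt h1 hl)) (PTF.cons (ptf_sh (PTF.const 0) hc)
    (PTF.cons (ptf_sh (PTF.const 1) hc) (PTF.const [])))

theorem ptf_D3 {ans : α → List Bool} (ha : PTF ans) : PTF (fun a => D3 (ans a)) := by
  have hh : PTF (fun a => (ans a).headD false) := ptf_headD ha (PTF.const false)
  have hg : ∀ j : ℕ, PTF (fun a => (ans a).getD j false) := fun j =>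
    ptf_getD (PTF.const j) ha (PTF.const false)
  exact F2_ite hh (hg 2) (hg 1)

/-- `inNEXP_iff`, `ptf_VAY`, `VA_spec`. -/
theorem AS_inNEXP (R : ℕ) (s : Bool) : InNEXP (AS R s) := by
  exact inNEXP_iff.2 ⟨fun p => VA (EE 3) R s p.1 p.2, rA R, ptf_VAY (UP_EE 3) (VP_EE 3) R s,
    fun x => VA_spec (EE 3) R s x⟩

/-- As `BX.AA_complete`. -/
theorem AS_complete (R : ℕ) (s : Bool) : CompleteKtt 3 (AS R s) := by
  refine ⟨AS_inNEXP R s, fun C hC => ?_⟩
  obtain ⟨f, hf, hfC⟩ := K_complete hC
  refine ktt_iff.2 ⟨fun x => q3 (f x), fun p => D3 p.2, ptf_q3 hf, ptf_D3 PTF.id.snd,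
    fun x => ⟨le_refl 3, ?_⟩⟩
  have hmap : ∀ l : List S, (l.map fun y => @decide (y ∈ AS R s)
      (Classical.propDecidable _)) = l.map (fun q => inA (EE 3) R s q) := by
    intro l
    refine List.map_congr_left fun y _ => ?_
    by_cases h : inA (EE 3) R s y = true
    · rw [h]
      exact @decide_eq_true _ (Classical.propDecidable _) h
    · rw [Bool.not_eq_true] at h
      rw [h]
      refine @decide_eq_false _ (Classical.propDecidable _) fun h' => ?_
      have h'' : inA (EE 3) R s y = true := h'
      rw [h] at h''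
      exact Bool.false_ne_true h''
  rw [hfC x, hmap, ← Kd_EE 3]
  show Kd (EE 3) (f x) = true ↔ D3 ((q3 (f x)).map (fun q => inA (EE 3) R s q)) = true
  rw [D3_correct]

end Pool.Agent.Helper21.BY
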