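import Pool.Agent.Helper21.BX.Gd

/-!
Project BY (MP_4a5e7e_lc, Q2 for `k = 3`, idea of helper71): the finite game of the proof, definitions.

Strings: masks `msk l`, free strings `fre u`, shares `sh 0 c` and `sh 1 c`. In the attack interval
`[n, τ]` the mask `msk n` has the value `b`; the share `sh (fi b) c` has the value `K c` (it is forced),
so `K c` is the value of `sh 1 c` if `msk n` is in the set and the value of `sh 0 c` if not. The other
share of `c` and the free strings are free; a free string `q` has a host `(s, s', s'')` and the value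
`(s or s') and s''`, where each symbol is `0`, `1`, the special bit or `K c` for some `c`.
-/

namespace Pool.Agent.Helper21.BY

open Pool.Agent.Helper21.BX

/-- The value of a symbol: `[]` is `1`, `[false]` is `0`, the other strings that begin with `false` are the
special bit `p`, and `true :: c` is the unknown bit `X (true :: c)` (the value of `K c`). -/
def sv (X : S → Bool) (p : Bool) : S → Bool
  | [] => true
  | true :: c => X (true :: c)
  | [false] => false
  | false :: _ :: _ => p

/-- Hosts. -/
abbrev Hst := S × S × S

/-- The value of a host. -/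
def hv (X : S → Bool) (p : Bool) (h : Hst) : Bool := (sv X p h.1 || sv X p h.2.1) && sv X p h.2.2

/-- The value of a free string. -/
def fv (X : S → Bool) (p : Bool) (H : List (S × Hst)) (q : S) : Bool :=
  H.any (fun r => decide (r.1 = q) && hv X p r.2)

/-- The number of the forced share. -/
def fi (b : Bool) : ℕ := if b then 1 else 0

/-- The characteristic function of the set, as seen at the attack interval `[n, τ]` (service levels
`[a, n)`) with the plan `(b, H)`; `X` gives the unknown bits, `X (true :: c)` the bit `K c` and
`X (false :: q)` the bit of a string `q` outside of the attack interval; `p` is the special bit.  In mode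
`true` the function `low` gives the set below level `a`, and at the service levels only the shares with
number `0` are unknown, everything else is `false`.  In mode `false` all the bits below level `n` are
unknown, but the bit of `key` is `true`. -/
def ev (n τ a : ℕ) (mode : Bool) (low : S → Bool) (key : S) (b : Bool) (H : List (S × Hst))
    (p : Bool) (X : S → Bool) (q : S) : Bool :=
  if isCod 3 q then
    (if inI n τ q then
      (if isMsk q then b && decide (lev q = n)
      else if isSh 3 q && decide (idx q = fi b) then X (true :: rest q)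
      else fv X p H q)
    else if lev q < n then
      (if mode then
        (if lev q < a then low q else isSh 3 q && decide (idx q = 0) && X (false :: q))
      else decide (q = key) || X (false :: q))
    else X (false :: q))
  else false

/-! ### plans -/

/-- The constant part of a plan: the bit `b`, the places of `z`, `z2`, `key`, of the two instances, and the
symbols of the hosts (`0`: zero, `1`: one, `2`: special bit, `j + 3`: the instance of the relevant string
number `j`). -/
abbrev Cst := Bool × Fin 3 × Fin 3 × Fin 16 × Fin 16 × Fin 16 × (Fin 16 → Fin 19 × Fin 19 × Fin 19)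

/-- A finite type is coded by strings of one length. -/
theorem exists_dec (α : Type) [Finite α] [Nonempty α] :
    ∃ (N : ℕ) (dec : S → α), ∀ c, ∃ δ : S, δ.length = N ∧ dec δ = c := by
  classical
  have key : ∀ i N : ℕ, i < 2 ^ N → ∃ δ : S, δ.length = N ∧ num δ = i := by
    intro i N
    induction N generalizing i with
    | zero =>
      intro h
      refine ⟨[], rfl, ?_⟩
      simp only [pow_zero, Nat.lt_one_iff] at h
      rw [h]
      rfl
    | succ N ih =>
      intro h
      obtain ⟨δ, h1, h2⟩ := ih (i / 2) (by rw [pow_succ] at h; omega)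
      refine ⟨decide (i % 2 = 1) :: δ, by simp [h1], ?_⟩
      have h3 : num (decide (i % 2 = 1) :: δ) = (if decide (i % 2 = 1) = true then 1 else 0) +
          2 * num δ := rfl
      rw [h3, h2]
      rcases Nat.mod_two_eq_zero_or_one i with h4 | h4
      · rw [h4]
        simp
        omega
      · rw [h4]
        simp
        omega
  obtain ⟨n, ⟨e⟩⟩ := Finite.exists_equiv_fin α
  refine ⟨n, fun δ => if h : num δ < n then e.symm ⟨num δ, h⟩ else Classical.arbitrary α,
    fun c => ?_⟩
  obtain ⟨δ, h1, h2⟩ := key (e c).val n ((e c).isLt.trans Nat.lt_two_pow_self)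
  refine ⟨δ, h1, ?_⟩
  have h3 : num δ < n := by
    rw [h2]
    exact (e c).isLt
  dsimp only
  rw [dif_pos h3]
  have h4 : (⟨num δ, h3⟩ : Fin n) = e c := Fin.ext h2
  rw [h4, Equiv.symm_apply_apply]

/-- The length of the constant part. -/
noncomputable def CC : ℕ := (exists_dec Cst).choose

/-- Decoding of the constant part. -/
noncomputable def dec : S → Cst := (exists_dec Cst).choose_spec.choose

theorem dec_surj (c : Cst) : ∃ δ : S, δ.length = CC ∧ dec δ = c :=
  (exists_dec Cst).choose_spec.choose_spec c

/-- A power of two, clipped. -/
def pw (C n : ℕ) : ℕ := if 2 ^ n ≤ C then 2 ^ n else 0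

/-- The length of the plans. -/
noncomputable def WW (n : ℕ) : ℕ := 2 * n ^ 2 + n + CC

/-- The scale of a plan: a power of two, at most `ν`. -/
def pS (n ν : ℕ) (w : S) : ℕ := pw ν (lead ((w.drop (2 * n ^ 2)).take n))

/-- The targets of a plan. -/
def pY (n ν : ℕ) (w : S) : S := fre (w.take (n ^ 2) ++ List.replicate (pS n ν w - n ^ 2) false)

def pY2 (n ν : ℕ) (w : S) : S :=
  fre ((w.drop (n ^ 2)).take (n ^ 2) ++ List.replicate (pS n ν w - n ^ 2) false)

/-- The constant part of a plan. -/
noncomputable def pC (n : ℕ) (w : S) : Cst := dec ((w.drop (2 * n ^ 2 + n)).take CC)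

/-- The bit `b` of a plan. -/
noncomputable def pB (n : ℕ) (w : S) : Bool := (pC n w).1

noncomputable def pZ (M : Mac) (n ν : ℕ) (w : S) : S :=
  (M.qs (pY n ν w)).getD (pC n w).2.1 []

noncomputable def pZ2 (M : Mac) (n ν : ℕ) (w : S) : S :=
  (M.qs (pY2 n ν w)).getD (pC n w).2.2.1 []

/-- The targets of a plan. -/
noncomputable def tgt (M : Mac) (n ν : ℕ) (w : S) : List S :=
  [pY n ν w, pY2 n ν w, pZ M n ν w, pZ2 M n ν w]

/-- The relevant strings of a plan: the targets and their queries. -/
noncomputable def rel (M : Mac) (n ν : ℕ) (w : S) : List S :=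
  tgt M n ν w ++ (tgt M n ν w).flatMap M.qs

/-- The key of a plan. -/
noncomputable def pK (M : Mac) (n ν : ℕ) (w : S) : S := (rel M n ν w).getD (pC n w).2.2.2.1 []

/-- The two instances of a plan. -/
noncomputable def pR1 (M : Mac) (n ν : ℕ) (w : S) : S :=
  rest ((rel M n ν w).getD (pC n w).2.2.2.2.1 [])

noncomputable def pR2 (M : Mac) (n ν : ℕ) (w : S) : S :=
  rest ((rel M n ν w).getD (pC n w).2.2.2.2.2.1 [])

/-- Symbols. -/
def sym (R : List S) (j : ℕ) : S :=
  if j = 0 then [false] else if j = 1 then [] else if j = 2 then [false, true] else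
    true :: rest (R.getD (j - 3) [])

/-- The hosts of a plan. -/
noncomputable def pH (M : Mac) (n ν : ℕ) (w : S) : List (S × Hst) :=
  (List.finRange 16).map (fun i : Fin 16 => ((rel M n ν w).getD (i : ℕ) [],
    (sym (rel M n ν w) ((pC n w).2.2.2.2.2.2 i).1,
      sym (rel M n ν w) ((pC n w).2.2.2.2.2.2 i).2.1,
      sym (rel M n ν w) ((pC n w).2.2.2.2.2.2 i).2.2)))

/-- The symbol is an instance. -/
def isI (s : S) : Bool := s.headD false

/-- The symbol is the special bit. -/
def isP (s : S) : Bool := !s.headD false && decide (2 ≤ s.length)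

/-- The symbol may be used in the host of a string of level `l`: instances are not longer than `l`; the
special bit is allowed only if `l` is at least the scale (kind `1`), or at least `n` and the lengths of
the two instances (kind `2`). -/
noncomputable def sok (M : Mac) (κ n ν : ℕ) (w : S) (l : ℕ) (s : S) : Bool :=
  (!isI s || decide (s.length ≤ l + 1)) &&
    (!isP s || ((!decide (κ = 1) || decide (pS n ν w ≤ l)) &&
      (!decide (κ = 2) || (decide (n ≤ l) && decide ((pR1 M n ν w).length ≤ l) &&
        decide ((pR2 M n ν w).length ≤ l)))))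

/-- Legitimate plans. -/
noncomputable def legit (M : Mac) (κ n ν τ : ℕ) (w : S) : Bool :=
  (pH M n ν w).all (fun r => sok M κ n ν w (lev r.1) r.2.1 && sok M κ n ν w (lev r.1) r.2.2.1 &&
    sok M κ n ν w (lev r.1) r.2.2.2) &&
  (decide (κ = 0) || (decide ((pR1 M n ν w).length ≤ τ) && decide ((pR2 M n ν w).length ≤ τ)))

/-- The key is a share with number `0` at a service level. -/
noncomputable def keyok (M : Mac) (n ν a : ℕ) (w : S) : Bool :=
  isSh 3 (pK M n ν w) && decide (idx (pK M n ν w) = 0) && decide (a ≤ lev (pK M n ν w)) &&
    decide (lev (pK M n ν w) < n)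

/-- The characteristic function of the set for the plan `w` (for the kinds `1`, `2` there is no key). -/
noncomputable def evP (M : Mac) (κ n ν τ a : ℕ) (mode : Bool) (low : S → Bool) (w : S) (p : Bool)
    (X : S → Bool) (q : S) : Bool :=
  ev n τ a mode low (if κ = 0 then pK M n ν w else []) (pB n w) (pH M n ν w) p X q

/-- The condition on the special bit: it is `0` (kind `0`), it is `K r1` (kind `1`), it is
`not (K r1 and K r2)` (kind `2`). -/
noncomputable def cnd (M : Mac) (κ n ν : ℕ) (w : S) (X : S → Bool) (p : Bool) : Bool :=
  if κ = 0 then !p else if κ = 1 then p == X (true :: pR1 M n ν w) else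
    p == !(X (true :: pR1 M n ν w) && X (true :: pR2 M n ν w))

/-- The names of the unknown bits that belong to a list of strings. -/
def nms (R : List S) : List S := R.flatMap (fun q => [false :: q, true :: rest q])

/-- The plan `w` is valid (kind `0`: in mode `false` it is 0-valid, in mode `true` 1-valid): legitimate, and
for all values of the unknown bits with the condition the machine errs at one of the targets. -/
noncomputable def val (M : Mac) (κ n ν τ a : ℕ) (mode : Bool) (low : S → Bool) (w : S) : Bool :=
  legit M κ n ν τ w && (!decide (κ = 0) || mode || keyok M n ν a w) &&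
    (allB 32).all (fun xs => [false, true].all (fun p =>
      !cnd M κ n ν w (fun s => decide (s ∈ sel xs (nms (rel M n ν w)))) p ||
      (tgt M n ν w).any (vio M (evP M κ n ν τ a mode low w p
        (fun s => decide (s ∈ sel xs (nms (rel M n ν w))))))))

/-- The existence of plans (kind `0` is static; `1` and `2` are used for the two sets). -/
def ExPlan : Prop :=
  ∃ n₀ : ℕ, ∀ (M : Mac) (n ν τ a i : ℕ) (low : S → Bool), n₀ ≤ n → i ≤ n → n ^ 2 ≤ 2 ^ i →
    2 ^ i ≤ ν → 2 ^ i ≤ τ → (∀ q, (M.qs q).length = 3) →
    (∀ u : S, u.length = 2 ^ i → ∀ q ∈ M.qs (fre u), lev q ≤ τ ∧ ∀ q' ∈ M.qs q, lev q' ≤ τ) →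
    (∃ w : S, w.length = WW n ∧ (val M 0 n ν τ a false (fun _ => false) w = true ∨
      val M 0 n ν τ a true low w = true)) ∨
    ((∃ w : S, w.length = WW n ∧ pS n ν w = 2 ^ i ∧
        val M 1 n ν τ a false (fun _ => false) w = true) ∧
      (∃ w : S, w.length = WW n ∧ pS n ν w = 2 ^ i ∧
        val M 2 n ν τ a false (fun _ => false) w = true))

end Pool.Agent.Helper21.BY
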