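import Pool.Agent.Helper21.BY.P5
import Pool.Agent.Helper21.BY.A3
import Pool.Agent.Helper21.BX.N1

/-!
Project BY (MP_4a5e7e_lc, `k = 3`): with a large clock the clocked functions are right, I.
-/

namespace Pool.Agent.Helper21.BY

open Pool.Agent.Helper21.BX

variable (E : Env) {C R m : ℕ} {s : Bool}

/-- `findS_eq`. -/
theorem xwC_eq (h : 2 ^ WW (nw m) ≤ C) :
    xwC E C (pg m) (nw m) (vw m) (tw m) (aw m) = xw E m := by
  unfold xwC xw zz
  rw [findS_eq h]
  rfl

theorem alC_eq (h : 2 ^ WW (nw m) ≤ C) :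
    alC E C (pg m) (nw m) (vw m) (tw m) (aw m) = al E m := by
  unfold alC al
  rw [xwC_eq E h]
  rfl

theorem hwC_eq (h : 2 ^ WW (nw m) ≤ C) :
    hwC E C (pg m) (nw m) (vw m) (tw m) (aw m) = hw E m := by
  unfold hwC hw zz
  rw [alC_eq E h, findS_eq h]
  rfl

theorem spiC_eq (h : 2 ^ WW (nw m) ≤ C) :
    spiC E C s (pg m) (nw m) (vw m) (tw m) (aw m) = spi E s m := by
  unfold spiC spi ddC dd
  rw [hwC_eq E h, alC_eq E h]
  rfl

theorem fbkC_eq (h : 2 ^ WW (nw m) ≤ C) :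
    fbkC E C s (pg m) (nw m) (vw m) (tw m) (aw m) = fbk E s m := by
  unfold fbkC fbk
  rw [hwC_eq E h, xwC_eq E h]

/-- `BX.KdC_eq` and `spi_length`. -/
theorem spvC_eq {l : ℕ} (h : 2 ^ WW (nw m) ≤ C) (h2 : 2 ^ 2 ^ tw m ≤ C) :
    spvC E C R s (pg m) (nw m) (vw m) (tw m) (aw m) l = spv E R s m l := by
  obtain ⟨h3, h4⟩ := spi_length E s m
  have key : ∀ c : S, c.length ≤ tw m → KdC E C c = Kd E c := by
    intro c hc
    refine KdC_eq E (le_trans ?_ h2)
    exact Nat.pow_le_pow_right (by norm_num) (Nat.pow_le_pow_right (by norm_num) hc)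
  unfold spvC spv
  rw [spiC_eq E h, key _ h3, key _ h4]

theorem v0C_eq {l : ℕ} : v0C E s (pg m) (nw m) (vw m) (tw m) (aw m) l = v0 E s m l := by
  rfl

theorem blC_eq {l : ℕ} (h : 2 ^ WW (nw m) ≤ C) :
    blC E C s (pg m) (nw m) (vw m) (tw m) (aw m) l = bl E s m l := by
  unfold blC bl zz
  rw [v0C_eq, findS_eq h]

/-- `BX.wpar_eq`, and the parameters with a large clock: `nw m ≤ vw m`? is not needed, all the three are at
most `C`. -/
theorem par_eq (h1 : nw m ≤ C) (h2 : vw m ≤ C) (h3 : tw m ≤ C) :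
    pn C (m, aw m) = nw m ∧ pv C (m, aw m) = vw m ∧ pt C (m, aw m) = tw m :=
  ⟨BX.pw_eq h1, BX.pw_eq h2, BX.pw_eq h3⟩

private theorem N1_sy {l : ℕ} (h : 2 ^ 2 ^ l ≤ C) (p : Bool) (x : S) :
    sy (KdC E C) p l x = sy (Kd E) p l x := by
  match x with
  | [] => rfl
  | [false] => rfl
  | false :: _ :: _ => rfl
  | true :: c =>
    show (decide (c.length ≤ l) && KdC E C c) = (decide (c.length ≤ l) && Kd E c)
    by_cases hc : c.length ≤ l
    · have h1 : 2 ^ 2 ^ c.length ≤ C := by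
        refine le_trans ?_ h
        exact Nat.pow_le_pow_right (by norm_num) (Nat.pow_le_pow_right (by norm_num) hc)
      rw [KdC_eq E h1]
    · rw [decide_eq_false hc, Bool.false_and, Bool.false_and]

/-- The guards of `sy` make `KdC` right for instances of length at most the level. -/
theorem fvg_KdC {l : ℕ} (h : 2 ^ 2 ^ l ≤ C) {p : Bool} {H : List (S × Hst)} {q : S} :
    fvg (KdC E C) (KdC E C) (KdC E C) p l H q = fvg (Kd E) (Kd E) (Kd E) p l H q := by
  unfold fvg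
  simp only [N1_sy E h]

/-- For a share the length of `rest q` is `lev q`; for the other strings `isSh` is `false`. -/
theorem inC_eq {P : Bool × S} {q : S} (h0 : nw (win (lev q)) ≤ C) (h1 : vw (win (lev q)) ≤ C)
    (h2 : 2 ^ WW (nw (win (lev q))) ≤ C) (h3 : 2 ^ 2 ^ lev q ≤ C)
    (h4 : 2 ^ 2 ^ tw (win (lev q)) ≤ C) :
    inC E C R s P (wpar (lev q)) q = inW E R s P q := by
  have ht : tw (win (lev q)) ≤ C := by
    refine le_trans ?_ h4
    exact (Nat.lt_two_pow_self.le).trans (Nat.lt_two_pow_self.le)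
  obtain ⟨e1, e2, e3⟩ := par_eq h0 h1 ht
  have e4 : (isSh 3 q && KdC E C (rest q)) = (isSh 3 q && Kd E (rest q)) := by
    by_cases hq : isSh 3 q = true
    · have h5 : 1 ≤ lead q := by
        simp only [isSh, Bool.and_eq_true, decide_eq_true_eq] at hq
        exact hq.1.1
      have h6 : (rest q).length = lev q := by
        unfold lev
        rw [if_pos h5]
      have h7 : 2 ^ 2 ^ (rest q).length ≤ C := by
        rw [h6]
        exact h3
      rw [KdC_eq E h7]
    · have hq' : isSh 3 q = false := by simpa using hq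
      rw [hq', Bool.false_and, Bool.false_and]
  unfold inC inW
  rw [wpar_eq]
  simp only
  rw [e1, e2, e3, e4, spvC_eq E h2 h4, blC_eq E h2, fvg_KdC E h3]
  rfl

theorem lowC_eq {h : List (Bool × S)} {q : S} (h0 : nw (win (lev q)) ≤ C)
    (h1 : vw (win (lev q)) ≤ C) (h2 : 2 ^ WW (nw (win (lev q))) ≤ C) (h3 : 2 ^ 2 ^ lev q ≤ C)
    (h4 : 2 ^ 2 ^ tw (win (lev q)) ≤ C) :
    lowC E C R s h q = lowh E R s h q := by
  unfold lowC lowh
  rw [inC_eq E h0 h1 h2 h3 h4, wpar_eq]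

end Pool.Agent.Helper21.BY
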