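import Pool.Agent.Helper21.BY.N1

/-!
Project BY (MP_4a5e7e_lc, `k = 3`): with a large clock the clocked functions are right, II (compare `BX.N2`).
-/

namespace Pool.Agent.Helper21.BY

open Pool.Agent.Helper21.BX

/-- `val` depends only on `low` below level `a`. -/
theorem val_congr_low {M : Mac} {κ n ν τ a : ℕ} {mode : Bool} {low low' : S → Bool} {w : S}
    (h : ∀ q, lev q < a → low q = low' q) :
    val M κ n ν τ a mode low w = val M κ n ν τ a mode low' w := by
  have he : ∀ (p : Bool) (X : S → Bool),
      evP M κ n ν τ a mode low w p X = evP M κ n ν τ a mode low' w p X := by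
    intro p X
    funext q
    unfold evP ev
    by_cases ha : lev q < a
    · rw [h q ha]
    · simp only [ha, if_false]
  unfold val
  simp only [he]

theorem WW_mono {n n' : ℕ} (h : n ≤ n') : WW n ≤ WW n' := by
  unfold WW
  have := Nat.pow_le_pow_left h 2
  omega

theorem le_WW (n : ℕ) : n ≤ WW n := by
  unfold WW
  omega

/-- `m ≤ aw m`. -/
theorem vw_le_tw (m : ℕ) : vw m ≤ tw m := by
  unfold vw tw
  refine Nat.pow_le_pow_right (by norm_num) ?_
  rw [sq]
  exact Nat.mul_le_mul_left _ (le_aw m)

/-- As `BX.planC_eq`. For `lev q < aw m` the window `m' = win (lev q)` is smaller than `m`, so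
`tw m' < aw (m' + 1) ≤ aw m < nw m ≤ WW (nw m)`, and `2 ^ tw m' ≤ 2 ^ aw m = nw m ≤ WW (nw m)`. -/
theorem planC_eq (E : Env) {C R m : ℕ} {s : Bool} {h : List (Bool × S)}
    (h2 : 2 ^ WW (nw m) ≤ C) :
    planC E C R s (pg m) (nw m) (vw m) (tw m) (aw m) h = plan E R s m h := by
  have hC : nw m ≤ C := (le_WW (nw m)).trans (Nat.lt_two_pow_self.le.trans h2)
  have hlow : val (macS E s m) 0 (nw m) (vw m) (tw m) (aw m) true (lowC E C R s h) =
      val (macS E s m) 0 (nw m) (vw m) (tw m) (aw m) true (lowh E R s h) := by
    funext w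
    refine val_congr_low (fun q hq => ?_)
    have hw : win (lev q) < m := win_lt hq
    have h3 : aw (win (lev q) + 1) ≤ aw m := aw_strictMono.monotone hw
    have h4 := tw_lt_aw (win (lev q))
    have h5 := aw_lt_nw m
    have h6 := nw_le_tw (win (lev q))
    have h7 := vw_le_tw (win (lev q))
    refine lowC_eq E (by omega) (by omega) ?_ ?_ ?_
    · exact (Nat.pow_le_pow_right (by norm_num) (WW_mono (by omega))).trans h2
    · refine (Nat.pow_le_pow_right (by norm_num) ?_).trans h2
      refine le_trans ?_ (le_WW (nw m))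
      exact Nat.pow_le_pow_right (by norm_num) hq.le
    · refine (Nat.pow_le_pow_right (by norm_num) ?_).trans h2
      refine le_trans ?_ (le_WW (nw m))
      exact Nat.pow_le_pow_right (by norm_num) (by omega)
  unfold planC plan
  unfold zz
  rw [findS_eq h2, findS_eq h2, fbkC_eq E h2]
  change (match findS (val (macS E s m) 0 (nw m) (vw m) (tw m) (aw m) false (fun _ => false))
      (WW (nw m)) with
    | some w => (false, w)
    | none => (match findS (val (macS E s m) 0 (nw m) (vw m) (tw m) (aw m) true
        (lowC E C R s h)) (WW (nw m)) with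
      | some w => (false, w)
      | none => (match fbk E s m with
        | some w => (true, w)
        | none => (false, List.replicate (WW (nw m)) false)))) = _
  rw [hlow]
  rfl

/-- As `BX.hisC_eq`. -/
theorem hisC_eq (E : Env) {C R m : ℕ} {s : Bool} (h1 : tw m ≤ C) (h2 : 2 ^ WW (nw m) ≤ C) :
    hisC E C R s (m + 1) = hist E R s (m + 1) := by
  have hplan : ∀ i ≤ m, planC E C R s (pg i) (pn C (i, aw i)) (pv C (i, aw i)) (pt C (i, aw i))
      (aw i) (hist E R s i) = plan E R s i (hist E R s i) := by
    intro i hi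
    have hai : aw i ≤ aw m := aw_strictMono.monotone hi
    have hn : nw i ≤ nw m := Nat.pow_le_pow_right (by norm_num) hai
    have ht : tw i ≤ tw m :=
      Nat.pow_le_pow_right (by norm_num) (Nat.pow_le_pow_left hai 2)
    obtain ⟨e1, e2, e3⟩ := par_eq (C := C) (m := i) ((nw_le_tw i).trans (ht.trans h1))
      ((vw_le_tw i).trans (ht.trans h1)) (ht.trans h1)
    rw [e1, e2, e3]
    exact planC_eq E ((Nat.pow_le_pow_right (by norm_num) (WW_mono hn)).trans h2)
  have hst_eq : ∀ i ≤ m, (hst E C R s)^[i] ((0, 0), []) = ((i, aw i), hist E R s i) := by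
    intro i
    induction i with
    | zero => intro _; rfl
    | succ i ih =>
      intro hi
      rw [Function.iterate_succ_apply', ih (by omega)]
      unfold hst
      simp only
      rw [hplan i (by omega)]
      have hai : aw (i + 1) ≤ aw m := aw_strictMono.monotone hi
      have h5 := aw_lt_nw m
      have h6 : 2 ^ ((aw i) ^ 2 + 1) ≤ C := by
        change aw (i + 1) ≤ C
        have := nw_le_tw m
        omega
      rw [BX.pw_eq h6]
      rfl
  unfold hisC
  rw [Function.iterate_succ_apply', hst_eq m le_rfl]
  unfold hst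
  simp only
  rw [hplan m le_rfl]
  rfl

end Pool.Agent.Helper21.BY
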