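import Pool.Agent.Helper21.BY.P6
import Pool.Agent.Helper21.BY.N2
import Pool.Agent.Helper21.BX.N3

/-!
Project BY (MP_4a5e7e_lc, `k = 3`): the verifier of the set is right (compare `BX.N3`).
-/

namespace Pool.Agent.Helper21.BY

open Pool.Agent.Helper21.BX

/-- The rule is monotone in the value of the host, of the complete set and in the bit of the level. -/
theorem rul_mono {att b f κ β f' κ' β' : Bool} {n : ℕ} {q : S} (hf : f = true → f' = true)
    (hκ : κ = true → κ' = true) (hβ : β = true → β' = true)
    (h : rul att n b f κ β q = true) : rul att n b f' κ' β' q = true := by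
  revert h
  unfold rul
  split_ifs <;> intro h <;>
    first
    | exact h
    | exact hf h
    | exact hκ h
    | exact hβ h
    | (cases κ <;> cases κ' <;> cases β <;> cases β' <;> simp_all)

/-- Outside the attack intervals the plan does not matter. -/
theorem rul_false (n n' : ℕ) (b b' f f' κ β : Bool) (q : S) :
    rul false n b f κ β q = rul false n' b' f' κ β q := by
  unfold rul
  simp only [Bool.false_eq_true, if_false]

private theorem N3_sy {k k' : S → Bool} {p p' : Bool} {l : ℕ} {x : S}
    (hk : ∀ c, c.length ≤ l → k c = true → k' c = true) (hp : p = true → p' = true)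
    (h : sy k p l x = true) : sy k' p' l x = true := by
  match x, h with
  | [], _ => rfl
  | true :: c, h =>
    have h' : (decide (c.length ≤ l) && k c) = true := h
    rw [Bool.and_eq_true, decide_eq_true_eq] at h'
    show (decide (c.length ≤ l) && k' c) = true
    rw [Bool.and_eq_true, decide_eq_true_eq]
    exact ⟨h'.1, hk c h'.1 h'.2⟩
  | [false], h => exact absurd h (by simp [sy])
  | false :: _ :: _, h => exact hp h

/-- The instance of a symbol. -/
private def N3_ic : S → S
  | true :: c => c
  | _ => []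

private theorem N3_sy_one {k k0 : S → Bool} {p : Bool} {l : ℕ} {x : S}
    (hk : (N3_ic x).length ≤ l → k (N3_ic x) = true → k0 (N3_ic x) = true)
    (h : sy k p l x = true) : sy k0 p l x = true := by
  match x, hk, h with
  | [], _, _ => rfl
  | true :: c, hk, h =>
    have h' : (decide (c.length ≤ l) && k c) = true := h
    rw [Bool.and_eq_true, decide_eq_true_eq] at h'
    show (decide (c.length ≤ l) && k0 c) = true
    rw [Bool.and_eq_true, decide_eq_true_eq]
    exact ⟨h'.1, hk h'.1 h'.2⟩
  | [false], _, h => exact absurd h (by simp [sy])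
  | false :: _ :: _, _, h => exact h

/-- Monotone in the evaluators and in the special bit: if a pair in `H` has the value `1`, it has the value
`1` after the change. -/
theorem fvg_mono {k0 k1 k2 k0' k1' k2' : S → Bool} {p p' : Bool} {l : ℕ} {H : List (S × Hst)} {q : S}
    (h0 : ∀ c, c.length ≤ l → k0 c = true → k0' c = true)
    (h1 : ∀ c, c.length ≤ l → k1 c = true → k1' c = true)
    (h2 : ∀ c, c.length ≤ l → k2 c = true → k2' c = true) (hp : p = true → p' = true)
    (h : fvg k0 k1 k2 p l H q = true) : fvg k0' k1' k2' p' l H q = true := by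
  unfold fvg at h ⊢
  rw [List.any_eq_true] at h ⊢
  obtain ⟨r, hr, h3⟩ := h
  refine ⟨r, hr, ?_⟩
  simp only [Bool.and_eq_true, Bool.or_eq_true] at h3 ⊢
  refine ⟨h3.1, ?_, N3_sy h2 hp h3.2.2⟩
  rcases h3.2.1 with h4 | h4
  · exact Or.inl (N3_sy h0 hp h4)
  · exact Or.inr (N3_sy h1 hp h4)

/-- If the value is `1`, then it is `1` already with evaluators that know one instance each: there are
`c0`, `c1`, `c2` such that the value is `1` for all evaluators that agree with `k0` at `c0`, with `k1` at `c1`, with
`k2` at `c2` (take the symbols of a pair in `H` with the value `1`). -/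
theorem fvg_one {k : S → Bool} {p : Bool} {l : ℕ} {H : List (S × Hst)} {q : S}
    (h : fvg k k k p l H q = true) : ∃ c0 c1 c2 : S, ∀ k0 k1 k2 : S → Bool,
      (c0.length ≤ l → k c0 = true → k0 c0 = true) →
      (c1.length ≤ l → k c1 = true → k1 c1 = true) →
      (c2.length ≤ l → k c2 = true → k2 c2 = true) → fvg k0 k1 k2 p l H q = true := by
  unfold fvg at h
  rw [List.any_eq_true] at h
  obtain ⟨r, hr, h3⟩ := h
  simp only [Bool.and_eq_true, Bool.or_eq_true] at h3
  refine ⟨N3_ic r.2.1, N3_ic r.2.2.1, N3_ic r.2.2.2, fun k0 k1 k2 h0 h1 h2 => ?_⟩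
  unfold fvg
  rw [List.any_eq_true]
  refine ⟨r, hr, ?_⟩
  simp only [Bool.and_eq_true, Bool.or_eq_true]
  refine ⟨h3.1, ?_, N3_sy_one h2 h3.2.2⟩
  rcases h3.2.1 with h4 | h4
  · exact Or.inl (N3_sy_one h0 h4)
  · exact Or.inr (N3_sy_one h1 h4)

private theorem N3_blocks {B : ℕ} (f : ℕ → S) (n : ℕ) (hf : ∀ j < n, (f j).length ≤ B) :
    ∃ g0 : S, g0.length = n * B ∧ ∀ j < n, ∀ t : S, seg (g0 ++ t) B j (f j).length = f j := by
  induction n with
  | zero => exact ⟨[], by simp, fun j hj => absurd hj (Nat.not_lt_zero _)⟩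
  | succ n ih =>
    obtain ⟨g0, h1, h2⟩ := ih (fun j hj => hf j (Nat.lt_succ_of_lt hj))
    have hn := hf n (Nat.lt_succ_self n)
    refine ⟨g0 ++ (f n ++ List.replicate (B - (f n).length) false), ?_, ?_⟩
    · rw [List.length_append, List.length_append, List.length_replicate, h1, Nat.succ_mul]
      omega
    · intro j hj t
      rw [List.append_assoc]
      rcases Nat.lt_succ_iff_lt_or_eq.1 hj with h3 | h3
      · exact h2 j h3 _
      · subst h3
        unfold seg
        rw [List.drop_left' h1, List.append_assoc]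
        exact List.take_left' rfl

/-- Seven given parts: six of them in blocks of length `B`, the last one after them. -/
theorem exists_seg {B N : ℕ} (f : ℕ → S) (hf : ∀ j < 6, (f j).length ≤ B)
    (hN : 6 * B + (f 6).length ≤ N) :
    ∃ g : S, g.length = N ∧ ∀ j < 7, seg g B j (f j).length = f j := by
  obtain ⟨g0, h1, h2⟩ := N3_blocks (B := B) f 6 hf
  refine ⟨g0 ++ (f 6 ++ List.replicate (N - (6 * B + (f 6).length)) false), ?_, ?_⟩
  · rw [List.length_append, List.length_append, List.length_replicate, h1]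
    omega
  · intro j hj
    rcases Nat.lt_succ_iff_lt_or_eq.1 hj with h3 | h3
    · exact h2 j h3 _
    · subst h3
      unfold seg
      rw [List.drop_left' h1]
      exact List.take_left' rfl

/-- A part has the full length if the string is long enough. -/
theorem seg_length {g : S} {B j L : ℕ} (h : j * B + L ≤ g.length) : (seg g B j L).length = L := by
  unfold seg
  rw [List.length_take, List.length_drop]
  omega

/-- The exponent. -/
noncomputable def rA (R : ℕ) : ℕ := CC + R + 20

/-- Numbers for a coded string of length `x` and level `l ≤ x`, `a ≤ l`, `m ≤ a`, `C = 2 ^ (x ^ r + r)`. -/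
theorem N3_numY (R x l a m : ℕ) (hl : l ≤ x) (ha : a ≤ l) (hm : m ≤ a) :
    2 ^ a ≤ 2 ^ (x ^ rA R + rA R) ∧ 2 ^ (a * m) ≤ 2 ^ (x ^ rA R + rA R) ∧
      2 ^ a ^ 2 ≤ 2 ^ (x ^ rA R + rA R) ∧
      (2 ^ a ≤ l → 2 ^ WW (2 ^ a) ≤ 2 ^ (x ^ rA R + rA R)) ∧
      6 * 2 ^ (l ^ R + R + l) + WW (2 ^ a) ≤ 2 ^ (x ^ rA R + rA R) := by
  have hax : a ≤ x := ha.trans hl
  have hmx : m ≤ x := hm.trans hax
  have hr : 20 ≤ rA R := Nat.le_add_left _ _
  have hx1 : x ≤ x ^ rA R := Nat.le_self_pow (by omega) x
  have hx2 : x ^ 2 ≤ x ^ rA R := by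
    rcases Nat.eq_zero_or_pos x with h | h
    · subst h
      simp
    · exact Nat.pow_le_pow_right h (by omega)
  have ha2 : a ^ 2 ≤ x ^ 2 := Nat.pow_le_pow_left hax 2
  have ham : a * m ≤ x ^ 2 := by
    rw [pow_two]
    exact Nat.mul_le_mul hax hmx
  refine ⟨Nat.pow_le_pow_right (by norm_num) (by omega),
    Nat.pow_le_pow_right (by norm_num) (by omega),
    Nat.pow_le_pow_right (by norm_num) (by omega), ?_, ?_⟩
  · intro h
    refine Nat.pow_le_pow_right (by norm_num) ?_
    have h0 : 2 ^ a ≤ x := h.trans hl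
    have h1 : (2 ^ a) ^ 2 ≤ x ^ 2 := Nat.pow_le_pow_left h0 2
    have h2 : 2 * x ^ 2 + x ≤ x ^ rA R + 10 := by
      rcases Nat.lt_or_ge x 2 with h3 | h3
      · interval_cases x <;> simp
      · have h4 : x ^ 4 ≤ x ^ rA R := Nat.pow_le_pow_right (by omega) (by omega)
        have h5 : 2 * 2 ≤ x * x := Nat.mul_le_mul h3 h3
        have h6 : x ^ 2 * 4 ≤ x ^ 2 * (x * x) := Nat.mul_le_mul_left _ h5
        have h7 : x ^ 4 = x ^ 2 * (x * x) := by ring
        have h8 : x ≤ x ^ 2 := Nat.le_self_pow (by norm_num) x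
        omega
    unfold WW
    have h9 : rA R = CC + R + 20 := rfl
    omega
  · have e1 : l ^ R + R + l ≤ x ^ R + R + x := by
      have := Nat.pow_le_pow_left hl R
      omega
    have h1 : 2 ^ (l ^ R + R + l) ≤ 2 ^ (x ^ R + R + x) := Nat.pow_le_pow_right (by norm_num) e1
    have h2 : (2 ^ a) ^ 2 ≤ 2 ^ (2 * x) := by
      rw [← pow_mul]
      exact Nat.pow_le_pow_right (by norm_num) (by omega)
    have h3 : 2 ^ a ≤ 2 ^ (2 * x) := Nat.pow_le_pow_right (by norm_num) (by omega)
    have h4 : CC + 9 ≤ 2 ^ (CC + 8) := Nat.lt_two_pow_self (n := CC + 8)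
    have hA : 1 ≤ 2 ^ (x ^ R + R + x) := Nat.one_le_two_pow
    have hB : 1 ≤ 2 ^ (2 * x) := Nat.one_le_two_pow
    have h5 : 2 ^ (x ^ R + R + x) * 2 ^ (2 * x) * 2 ^ (CC + 8) ≤ 2 ^ (x ^ rA R + rA R) := by
      rw [← pow_add, ← pow_add]
      refine Nat.pow_le_pow_right (by norm_num) ?_
      have h9 : rA R = CC + R + 20 := rfl
      have h10 : x ^ R + 3 * x ≤ x ^ rA R + 12 := by
        rcases Nat.lt_or_ge x 2 with h3 | h3
        · interval_cases x
          · have : 0 ^ R ≤ 1 := by
              rcases Nat.eq_zero_or_pos R with h | h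
              · subst h
                simp
              · rw [Nat.zero_pow h]
                omega
            omega
          · simp
        · have h5 : x ^ 3 ≤ x ^ (CC + 20) := Nat.pow_le_pow_right (by omega) (by omega)
          have h6 : 2 * 2 ≤ x * x := Nat.mul_le_mul h3 h3
          have h7 : x * 4 ≤ x * (x * x) := Nat.mul_le_mul_left _ h6
          have h8 : x ^ 3 = x * (x * x) := by ring
          have h11 : 1 + 3 * x ≤ x ^ (CC + 20) := by omega
          have h12 : 1 ≤ x ^ R := Nat.one_le_pow _ _ (by omega)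
          have h13 : x ^ rA R = x ^ R * x ^ (CC + 20) := by
            rw [← pow_add, h9]
            congr 1
            omega
          have h14 : x ^ R * (1 + 3 * x) ≤ x ^ R * x ^ (CC + 20) := Nat.mul_le_mul_left _ h11
          have h15 : 1 * (3 * x) ≤ x ^ R * (3 * x) := Nat.mul_le_mul_right _ h12
          have h16 : x ^ R * (1 + 3 * x) = x ^ R + x ^ R * (3 * x) := by ring
          omega
      omega
    have h6 : 2 ^ (x ^ R + R + x) * 2 ^ (2 * x) * (CC + 9) ≤
        2 ^ (x ^ R + R + x) * 2 ^ (2 * x) * 2 ^ (CC + 8) := Nat.mul_le_mul_left _ h4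
    set A := 2 ^ (x ^ R + R + x) with hAd
    set D := 2 ^ (2 * x) with hDd
    have h7 : A * 1 ≤ A * D := Nat.mul_le_mul_left _ hB
    have h8 : 1 * D ≤ A * D := Nat.mul_le_mul_right _ hA
    have h9 : 1 * CC ≤ A * D * CC := Nat.mul_le_mul_right _ (Nat.mul_pos hA hB)
    have h10 : A * D * (CC + 9) = A * D * CC + 9 * (A * D) := by ring
    unfold WW
    omega

/-- The verifier, with the parameters of the window; `B = 2 ^ (l ^ R + R + l)` with `l = lev q`. In an attack
interval `hisC_eq`, `spiC_eq` show that the plan and the instances are right, otherwise use `rul_false`. -/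
theorem VA_eq (E : Env) (R : ℕ) (s : Bool) (q g : S)
    (hg : g.length = 2 ^ (q.length ^ rA R + rA R)) :
    VA E R s q g = rul (inI (nw (win (lev q))) (tw (win (lev q))) q) (nw (win (lev q)))
      (pB (nw (win (lev q))) (plan E R s (win (lev q)) (hist E R s (win (lev q)))).2)
      (fvg (vk E g (2 ^ (lev q ^ R + R + lev q)) 0) (vk E g (2 ^ (lev q ^ R + R + lev q)) 1)
        (vk E g (2 ^ (lev q ^ R + R + lev q)) 2)
        ((plan E R s (win (lev q)) (hist E R s (win (lev q)))).1 &&
          (usb R (lev q) (spi E s (win (lev q))) &&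
            (vk E g (2 ^ (lev q ^ R + R + lev q)) 4 (spi E s (win (lev q))).1 &&
              vk E g (2 ^ (lev q ^ R + R + lev q)) 5 (spi E s (win (lev q))).2))) (lev q)
        (pH (macS E s (win (lev q))) (nw (win (lev q))) (vw (win (lev q)))
          (plan E R s (win (lev q)) (hist E R s (win (lev q)))).2) q)
      (isSh 3 q && vk E g (2 ^ (lev q ^ R + R + lev q)) 3 (rest q))
      (decide (lev q < nw (win (lev q))) && v0 E s (win (lev q)) (lev q)
        (seg g (2 ^ (lev q ^ R + R + lev q)) 6 (WW (nw (win (lev q)))))) q := by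
  have hx := lev_le q
  have ha : aw (win (lev q)) ≤ lev q := (win_spec (lev q)).1
  have hm : win (lev q) ≤ aw (win (lev q)) := le_aw _
  obtain ⟨h1, h2, h3, h4, h5⟩ := N3_numY R q.length (lev q) (aw (win (lev q))) (win (lev q)) hx ha hm
  rw [← hg] at h1 h2 h3 h4 h5
  obtain ⟨e1, e2, e3⟩ := par_eq (C := g.length) (m := win (lev q)) h1 h2 h3
  have e4 : bB R g.length (lev q) = 2 ^ (lev q ^ R + R + lev q) := by
    unfold bB
    refine BX.pw_eq ?_
    omega
  unfold VA
  rw [wpar_eq, e4]
  unfold VB
  simp only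
  rw [e1, e2, e3, v0C_eq]
  by_cases hi : inI (nw (win (lev q))) (tw (win (lev q))) q = true
  · have hn : nw (win (lev q)) ≤ lev q := by
      unfold inI at hi
      rw [Bool.and_eq_true, decide_eq_true_eq] at hi
      exact hi.1
    have h6 : 2 ^ WW (nw (win (lev q))) ≤ g.length := h4 hn
    rw [hisC_eq E (m := win (lev q)) h3 h6, hist_getD E R s (Nat.lt_succ_self _),
      spiC_eq E h6]
    rfl
  · rw [Bool.not_eq_true] at hi
    rw [hi]
    exact rul_false _ _ _ _ _ _ _ _ _

/-- For instances `c` of length at most `max l (l ^ R + R)` a block contains a string of length `2 ^ |c|`, so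
`vk` implies `Kd` (`findS_isSome`). -/
theorem vk_Kd {E : Env} {R l j : ℕ} {g c : S} (hc : c.length ≤ l ^ R + R + l) (hj : j < 6)
    (hg : 6 * 2 ^ (l ^ R + R + l) ≤ g.length) (h : vk E g (2 ^ (l ^ R + R + l)) j c = true) :
    Kd E c = true := by
  have h1 : 2 ^ c.length ≤ 2 ^ (l ^ R + R + l) := Nat.pow_le_pow_right (by norm_num) hc
  have h2 : BX.pw g.length c.length = 2 ^ c.length := BX.pw_eq (by omega)
  unfold vk at h
  rw [h2] at h
  refine findS_isSome.2 ⟨_, seg_length ?_, h⟩
  have h3 : j * 2 ^ (l ^ R + R + l) ≤ 5 * 2 ^ (l ^ R + R + l) :=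
    Nat.mul_le_mul_right _ (by omega)
  omega

/-- Membership is witnessed by strings of length `2 ^ (|q| ^ r + r)`.

Proof. Use `VA_eq` and `inA_eq`, `inW`. From right to left: `rul_mono`, `fvg_mono`, `vk_Kd` (the guards of `sy` and `usb`),
`findS_isSome`. From left to right: let `wit c` be a string of length `2 ^ |c|` with `V c (wit c)` if `Kd E c`
(otherwise any string of this length); take `c0`, `c1`, `c2` from `fvg_one` if the value of `fvg` is `1`
(otherwise `[]`), and let `exists_seg` give `g` with the blocks `wit c0`, `wit c1`, `wit c2`, `wit (rest q)`,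
`wit (spi ..).1`, `wit (spi ..).2` (if an instance is longer than `l ^ R + R + l`, take `[]` in place of it: then the
guard is false anyway) and a plan for the bit of the level. -/
theorem VA_spec (E : Env) (R : ℕ) (s : Bool) (q : S) :
    inA E R s q = true ↔ ∃ g : S, g.length = 2 ^ (q.length ^ rA R + rA R) ∧ VA E R s q g = true := by
  have hx := lev_le q
  have ha : aw (win (lev q)) ≤ lev q := (win_spec (lev q)).1
  have hm : win (lev q) ≤ aw (win (lev q)) := le_aw _
  obtain ⟨-, -, -, -, h5⟩ := N3_numY R q.length (lev q) (aw (win (lev q))) (win (lev q)) hx ha hm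
  have h6 : 6 * 2 ^ (lev q ^ R + R + lev q) + WW (nw (win (lev q))) ≤
      2 ^ (q.length ^ rA R + rA R) := h5
  have hsh : isSh 3 q = true → (rest q).length = lev q := by
    intro hq
    have h7 : 1 ≤ lead q := by
      simp only [isSh, Bool.and_eq_true, decide_eq_true_eq] at hq
      exact hq.1.1
    unfold lev
    rw [if_pos h7]
  rw [inA_eq]
  unfold inW
  constructor
  · intro h
    have hwit : ∀ c : S, ∃ v : S, v.length = 2 ^ c.length ∧
        (Kd E c = true → E.V c v = true) := by
      intro c
      by_cases hK : Kd E c = true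
      · obtain ⟨v, hv, hv'⟩ := findS_isSome.1 hK
        exact ⟨v, hv, fun _ => hv'⟩
      · exact ⟨List.replicate _ false, List.length_replicate, fun h => absurd h hK⟩
    choose wit hwl hwv using hwit
    obtain ⟨g2, hg2, hv2⟩ : ∃ g2 : S, g2.length = WW (nw (win (lev q))) ∧
        ((findS (v0 E s (win (lev q)) (lev q)) (WW (nw (win (lev q))))).isSome = true →
          v0 E s (win (lev q)) (lev q) g2 = true) := by
      by_cases hK : (findS (v0 E s (win (lev q)) (lev q))
          (WW (nw (win (lev q))))).isSome = true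
      · obtain ⟨v, hv, hv'⟩ := findS_isSome.1 hK
        exact ⟨v, hv, fun _ => hv'⟩
      · exact ⟨List.replicate _ false, List.length_replicate, fun h => absurd h hK⟩
    obtain ⟨c0, c1, c2, hc⟩ : ∃ c0 c1 c2 : S, fvg (Kd E) (Kd E) (Kd E)
        ((plan E R s (win (lev q)) (hist E R s (win (lev q)))).1 &&
          spv E R s (win (lev q)) (lev q)) (lev q)
        (pH (macS E s (win (lev q))) (nw (win (lev q))) (vw (win (lev q)))
          (plan E R s (win (lev q)) (hist E R s (win (lev q)))).2) q = true →
        ∀ k0 k1 k2 : S → Bool,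
        (c0.length ≤ lev q → Kd E c0 = true → k0 c0 = true) →
        (c1.length ≤ lev q → Kd E c1 = true → k1 c1 = true) →
        (c2.length ≤ lev q → Kd E c2 = true → k2 c2 = true) → fvg k0 k1 k2
        ((plan E R s (win (lev q)) (hist E R s (win (lev q)))).1 &&
          spv E R s (win (lev q)) (lev q)) (lev q)
        (pH (macS E s (win (lev q))) (nw (win (lev q))) (vw (win (lev q)))
          (plan E R s (win (lev q)) (hist E R s (win (lev q)))).2) q = true := by
      by_cases hf : fvg (Kd E) (Kd E) (Kd E)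
        ((plan E R s (win (lev q)) (hist E R s (win (lev q)))).1 &&
          spv E R s (win (lev q)) (lev q)) (lev q)
        (pH (macS E s (win (lev q))) (nw (win (lev q))) (vw (win (lev q)))
          (plan E R s (win (lev q)) (hist E R s (win (lev q)))).2) q = true
      · obtain ⟨c0, c1, c2, hc⟩ := fvg_one hf
        exact ⟨c0, c1, c2, fun _ => hc⟩
      · exact ⟨[], [], [], fun h => absurd h hf⟩
    let cl : S → S := fun c => if c.length ≤ lev q ^ R + R + lev q then wit c else []
    let f : ℕ → S := fun j => if j = 0 then cl c0 else if j = 1 then cl c1 else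
      if j = 2 then cl c2 else if j = 3 then cl (rest q) else
      if j = 4 then cl (spi E s (win (lev q))).1 else
      if j = 5 then cl (spi E s (win (lev q))).2 else g2
    have hcl : ∀ c, (cl c).length ≤ 2 ^ (lev q ^ R + R + lev q) := by
      intro c
      by_cases hc' : c.length ≤ lev q ^ R + R + lev q
      · have e : cl c = wit c := if_pos hc'
        rw [e, hwl]
        exact Nat.pow_le_pow_right (by norm_num) hc'
      · have e : cl c = [] := if_neg hc'
        rw [e]
        exact Nat.zero_le _
    have f0 : f 0 = cl c0 := rfl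
    have f1 : f 1 = cl c1 := rfl
    have f2 : f 2 = cl c2 := rfl
    have f3 : f 3 = cl (rest q) := rfl
    have f4 : f 4 = cl (spi E s (win (lev q))).1 := rfl
    have f5 : f 5 = cl (spi E s (win (lev q))).2 := rfl
    have f6 : f 6 = g2 := rfl
    have hf : ∀ j < 6, (f j).length ≤ 2 ^ (lev q ^ R + R + lev q) := by
      intro j hj
      interval_cases j
      · exact hcl c0
      · exact hcl c1
      · exact hcl c2
      · exact hcl (rest q)
      · exact hcl (spi E s (win (lev q))).1
      · exact hcl (spi E s (win (lev q))).2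
    obtain ⟨g, hgl, hgs⟩ := exists_seg (N := 2 ^ (q.length ^ rA R + rA R)) f hf
      (by rw [f6, hg2]; exact h6)
    have hvk : ∀ j < 6, ∀ c : S, c.length ≤ lev q ^ R + R + lev q → f j = cl c →
        Kd E c = true → vk E g (2 ^ (lev q ^ R + R + lev q)) j c = true := by
      intro j hj c hcL hfj hK
      have h1 : 2 ^ c.length ≤ 2 ^ (lev q ^ R + R + lev q) :=
        Nat.pow_le_pow_right (by norm_num) hcL
      have h2 : BX.pw g.length c.length = 2 ^ c.length := BX.pw_eq (by rw [hgl]; omega)
      have e : cl c = wit c := if_pos hcL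
      have h3 := hgs j (by omega)
      rw [hfj, e, hwl] at h3
      unfold vk
      rw [h2, h3]
      exact hwv c hK
    refine ⟨g, hgl, ?_⟩
    rw [VA_eq E R s q g hgl]
    refine rul_mono ?_ ?_ ?_ h
    · intro hF
      have hF2 := hc hF (vk E g (2 ^ (lev q ^ R + R + lev q)) 0)
        (vk E g (2 ^ (lev q ^ R + R + lev q)) 1) (vk E g (2 ^ (lev q ^ R + R + lev q)) 2)
        (fun hl => hvk 0 (by norm_num) c0 (by omega) f0)
        (fun hl => hvk 1 (by norm_num) c1 (by omega) f1)
        (fun hl => hvk 2 (by norm_num) c2 (by omega) f2)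
      refine fvg_mono (fun _ _ h => h) (fun _ _ h => h) (fun _ _ h => h) ?_ hF2
      intro hp
      unfold spv usb at hp
      unfold usb
      simp only [Bool.and_eq_true, decide_eq_true_eq] at hp ⊢
      refine ⟨hp.1, hp.2.1, ?_, ?_⟩
      · exact hvk 4 (by norm_num) _ (by have := hp.2.1.1; omega) f4 hp.2.2.1
      · exact hvk 5 (by norm_num) _ (by have := hp.2.1.2; omega) f5 hp.2.2.2
    · intro hK
      rw [Bool.and_eq_true] at hK ⊢
      exact ⟨hK.1, hvk 3 (by norm_num) _ (by have := hsh hK.1; omega) f3 hK.2⟩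
    · intro hK
      unfold bl at hK
      rw [Bool.and_eq_true] at hK ⊢
      have h3 := hgs 6 (by norm_num)
      rw [f6, hg2] at h3
      rw [h3]
      exact ⟨hK.1, hv2 hK.2⟩
  · rintro ⟨g, hg, h⟩
    rw [VA_eq E R s q g hg] at h
    have hg6 : 6 * 2 ^ (lev q ^ R + R + lev q) ≤ g.length := by
      rw [hg]
      omega
    refine rul_mono ?_ ?_ ?_ h
    · intro hF
      refine fvg_mono (fun c hl hv => vk_Kd (R := R) (l := lev q) (by omega) (by norm_num) hg6 hv)
        (fun c hl hv => vk_Kd (R := R) (l := lev q) (by omega) (by norm_num) hg6 hv)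
        (fun c hl hv => vk_Kd (R := R) (l := lev q) (by omega) (by norm_num) hg6 hv) ?_ hF
      intro hp
      unfold usb at hp
      unfold spv usb
      simp only [Bool.and_eq_true, decide_eq_true_eq] at hp ⊢
      refine ⟨hp.1, hp.2.1, ?_, ?_⟩
      · exact vk_Kd (R := R) (l := lev q) (by have := hp.2.1.1; omega) (by norm_num) hg6 hp.2.2.1
      · exact vk_Kd (R := R) (l := lev q) (by have := hp.2.1.2; omega) (by norm_num) hg6 hp.2.2.2
    · intro hK
      rw [Bool.and_eq_true] at hK ⊢
      exact ⟨hK.1, vk_Kd (R := R) (l := lev q) (by have := hsh hK.1; omega) (by norm_num) hg6 hK.2⟩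
    · intro hK
      unfold bl
      rw [Bool.and_eq_true] at hK ⊢
      refine ⟨hK.1, findS_isSome.2 ⟨_, seg_length ?_, hK.2⟩⟩
      rw [hg]
      exact h6

end Pool.Agent.Helper21.BY
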