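import Pool.Agent.Helper21.BY.Ad
import Pool.Agent.Helper21.BX.Px7b

/-!
Project BY (MP_4a5e7e_lc, `k = 3`): computations in polynomial time, I: symbols, hosts, parts of plans.
-/

namespace Pool.Agent.Helper21.BY

open Pool.Agent.Helper91.PolyTime
open Pool.Agent.Helper21.BX

variable {α β γ : Type} [PEnc α] [PEnc β] [PEnc γ]

/-- `BY.pw` is `BX.pw`. -/
theorem ptf_pwY {C n : α → ℕ} (hC : PTF C) (hn : PTF n) : PTF (fun a => pw (C a) (n a)) :=
  BX.ptf_pw hC hn

theorem ptf_iteY {c : α → Bool} {f g : α → β} (hc : PTF c) (hf : PTF f) (hg : PTF g) :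
    PTF (fun a => if c a = true then f a else g a) := by
  refine (PTF.cond hc hf hg).of_eq fun a => ?_
  cases c a <;> rfl

/-- Any function of the first `N` symbols of a string. Induction on `N`, for all `F`:
`F (l.take (N + 1))` is `F []` if `l = []`, and otherwise `F (b :: l.tail.take N)` with `b` the first symbol (two
cases). -/
theorem ptf_fin (N : ℕ) (F : S → β) {δ : α → S} (h : PTF δ) : PTF (fun a => F ((δ a).take N)) := by
  induction N generalizing F α with
  | zero => exact PTF.const (F [])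
  | succ N ih =>
    have e : PTF (fun p : α × Bool × S => p.2.2) := PTF.id.snd.snd
    have e1 : PTF (fun p : α × Bool × S => (fun w : S => F (true :: w)) (p.2.2.take N)) :=
      ih (fun w => F (true :: w)) e
    have e2 : PTF (fun p : α × Bool × S => (fun w : S => F (false :: w)) (p.2.2.take N)) :=
      ih (fun w => F (false :: w)) e
    refine (PTF.listCase (o := δ) (n := fun _ => F [])
      (s := fun _ b l => bif b then F (true :: l.take N) else F (false :: l.take N)) h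
      (PTF.const (F [])) (PTF.cond PTF.id.snd.fst e1 e2)).of_eq fun a => ?_
    cases hd : δ a with
    | nil => rfl
    | cons b l => cases b <;> rfl

/-- `CC` is a constant. -/
theorem ptf_WW {n : α → ℕ} (hn : PTF n) : PTF (fun a => WW (n a)) :=
  PTF.add (PTF.add (PTF.mul (PTF.const 2) (PTF.pow hn 2)) hn) (PTF.const CC)

theorem ptf_pS {n ν : α → ℕ} {w : α → S} (hn : PTF n) (hν : PTF ν) (hw : PTF w) :
    PTF (fun a => pS (n a) (ν a) (w a)) :=
  ptf_pwY hν (ptf_lead (ptf_take hn (PTF.drop (PTF.mul (PTF.const 2) (PTF.pow hn 2)) hw)))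

theorem ptf_pY {n ν : α → ℕ} {w : α → S} (hn : PTF n) (hν : PTF ν) (hw : PTF w) :
    PTF (fun a => pY (n a) (ν a) (w a)) :=
  ptf_fre (PTF.append (ptf_take (PTF.pow hn 2) hw)
    (ptf_replicate (PTF.sub (ptf_pS hn hν hw) (PTF.pow hn 2)) (PTF.const false)))

theorem ptf_pY2 {n ν : α → ℕ} {w : α → S} (hn : PTF n) (hν : PTF ν) (hw : PTF w) :
    PTF (fun a => pY2 (n a) (ν a) (w a)) :=
  ptf_fre (PTF.append (ptf_take (PTF.pow hn 2) (PTF.drop (PTF.pow hn 2) hw))
    (ptf_replicate (PTF.sub (ptf_pS hn hν hw) (PTF.pow hn 2)) (PTF.const false)))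

/-- Any function of the constant part (`ptf_fin`). -/
theorem ptf_pC (F : Cst → β) {n : α → ℕ} {w : α → S} (hn : PTF n) (hw : PTF w) :
    PTF (fun a => F (pC (n a) (w a))) :=
  ptf_fin CC (fun δ => F (dec δ))
    (PTF.drop (PTF.add (PTF.mul (PTF.const 2) (PTF.pow hn 2)) hn) hw)

theorem ptf_pB {n : α → ℕ} {w : α → S} (hn : PTF n) (hw : PTF w) :
    PTF (fun a => pB (n a) (w a)) :=
  ptf_pC (fun c => c.1) hn hw

/-- `sv X p x` is `1` if `x = []`, `X x` if `x` begins with `true`, `0` if `x` has length `1`, and `p` otherwise. -/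
theorem ptf_sv {X : α → S → Bool} {p : α → Bool} {x : α → S}
    (hX : PTF (fun y : α × S => X y.1 y.2)) (hp : PTF p) (hx : PTF x) :
    PTF (fun a => sv (X a) (p a) (x a)) := by
  have hX' : PTF (fun a => X a (x a)) := hX.comp (PTF.pair PTF.id hx)
  refine (PTF.cond (PTF.eq hx (PTF.const ([] : S))) (PTF.const true)
    (PTF.cond (ptf_headD hx (PTF.const false)) hX'
      (PTF.cond (PTF.eq hx (PTF.const ([false] : S))) (PTF.const false) hp))).of_eq fun a => ?_
  rcases x a with _ | ⟨b, _ | ⟨c, l⟩⟩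
  · rfl
  · cases b <;> rfl
  · cases b <;> rfl

theorem ptf_hv {X : α → S → Bool} {p : α → Bool} {h : α → Hst}
    (hX : PTF (fun y : α × S => X y.1 y.2)) (hp : PTF p) (hh : PTF h) :
    PTF (fun a => hv (X a) (p a) (h a)) :=
  PTF.and (PTF.or (ptf_sv hX hp hh.fst) (ptf_sv hX hp hh.snd.fst)) (ptf_sv hX hp hh.snd.snd)

theorem ptf_fv {X : α → S → Bool} {p : α → Bool} {H : α → List (S × Hst)} {q : α → S}
    (hX : PTF (fun y : α × S => X y.1 y.2)) (hp : PTF p) (hH : PTF H) (hq : PTF q) :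
    PTF (fun a => fv (X a) (p a) (H a) (q a)) := by
  have hX' : PTF (fun y : (α × S × Hst) × S => X y.1.1 y.2) :=
    hX.comp (PTF.pair PTF.id.fst.fst PTF.id.snd)
  exact PTF.any (f := fun a r => decide (r.1 = q a) && hv (X a) (p a) r.2) hH
    (PTF.and (PTF.eq PTF.id.snd.fst (hq.comp PTF.id.fst))
      (ptf_hv (α := α × S × Hst) (X := fun y => X y.1) (p := fun y => p y.1) (h := fun y => y.2.2)
        hX' (hp.comp PTF.id.fst) PTF.id.snd.snd))

theorem ptf_sym {L : α → List S} {j : α → ℕ} (hL : PTF L) (hj : PTF j) :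
    PTF (fun a => sym (L a) (j a)) :=
  PTF.ite (PTF.eq hj (PTF.const 0)) (PTF.const [false])
    (PTF.ite (PTF.eq hj (PTF.const 1)) (PTF.const [])
      (PTF.ite (PTF.eq hj (PTF.const 2)) (PTF.const [false, true])
        (PTF.cons (PTF.const true)
          (ptf_rest (ptf_getD (PTF.sub hj (PTF.const 3)) hL (PTF.const []))))))

theorem ptf_isI {x : α → S} (hx : PTF x) : PTF (fun a => isI (x a)) :=
  ptf_headD hx (PTF.const false)

theorem ptf_isP {x : α → S} (hx : PTF x) : PTF (fun a => isP (x a)) :=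
  PTF.and (PTF.not (ptf_headD hx (PTF.const false))) (PTF.le (PTF.const 2) (PTF.length hx))

/-- `kd` with a clock or with witnesses is a parameter. -/
theorem ptf_sy {kd : α → S → Bool} {p : α → Bool} {l : α → ℕ} {x : α → S}
    (hk : PTF (fun y : α × S => kd y.1 y.2)) (hp : PTF p) (hl : PTF l) (hx : PTF x) :
    PTF (fun a => sy (kd a) (p a) (l a) (x a)) := by
  have hk' : PTF (fun a => kd a (x a).tail) := hk.comp (PTF.pair PTF.id (PTF.tail hx))
  refine (PTF.cond (PTF.eq hx (PTF.const ([] : S))) (PTF.const true)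
    (PTF.cond (ptf_headD hx (PTF.const false))
      (PTF.and (PTF.le (PTF.length (PTF.tail hx)) hl) hk')
      (PTF.cond (PTF.eq hx (PTF.const ([false] : S))) (PTF.const false) hp))).of_eq fun a => ?_
  rcases x a with _ | ⟨b, _ | ⟨c, l⟩⟩
  · rfl
  · cases b <;> rfl
  · cases b <;> rfl

theorem ptf_fvg {k0 k1 k2 : α → S → Bool} {p : α → Bool} {l : α → ℕ} {H : α → List (S × Hst)}
    {q : α → S} (h0 : PTF (fun y : α × S => k0 y.1 y.2)) (h1 : PTF (fun y : α × S => k1 y.1 y.2))
    (h2 : PTF (fun y : α × S => k2 y.1 y.2)) (hp : PTF p) (hl : PTF l) (hH : PTF H) (hq : PTF q) :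
    PTF (fun a => fvg (k0 a) (k1 a) (k2 a) (p a) (l a) (H a) (q a)) := by
  have hK : ∀ k : α → S → Bool, PTF (fun y : α × S => k y.1 y.2) →
      PTF (fun y : (α × S × Hst) × S => k y.1.1 y.2) := fun k h =>
    h.comp (PTF.pair PTF.id.fst.fst PTF.id.snd)
  have hp' : PTF (fun y : α × S × Hst => p y.1) := hp.comp PTF.id.fst
  have hl' : PTF (fun y : α × S × Hst => l y.1) := hl.comp PTF.id.fst
  have hr : PTF (fun y : α × S × Hst => y.2.2) := PTF.id.snd.snd
  exact PTF.any (f := fun a r => decide (r.1 = q a) &&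
      ((sy (k0 a) (p a) (l a) r.2.1 || sy (k1 a) (p a) (l a) r.2.2.1) &&
        sy (k2 a) (p a) (l a) r.2.2.2)) hH
    (PTF.and (PTF.eq PTF.id.snd.fst (hq.comp PTF.id.fst))
      (PTF.and (PTF.or
        (ptf_sy (α := α × S × Hst) (kd := fun y => k0 y.1) (hK k0 h0) hp' hl' hr.fst)
        (ptf_sy (α := α × S × Hst) (kd := fun y => k1 y.1) (hK k1 h1) hp' hl' hr.snd.fst))
        (ptf_sy (α := α × S × Hst) (kd := fun y => k2 y.1) (hK k2 h2) hp' hl' hr.snd.snd)))

theorem ptf_usb (R : ℕ) {l : α → ℕ} {c : α → S × S} (hl : PTF l) (hc : PTF c) :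
    PTF (fun a => usb R (l a) (c a)) :=
  PTF.and (PTF.le (PTF.length hc.fst) (PTF.add (PTF.pow hl R) (PTF.const R)))
    (PTF.le (PTF.length hc.snd) (PTF.add (PTF.pow hl R) (PTF.const R)))

theorem ptf_scok {n x : α → ℕ} {c : α → S × S} (hn : PTF n) (hc : PTF c) (hx : PTF x) :
    PTF (fun a => scok (n a) (c a) (x a)) :=
  PTF.and (PTF.and (PTF.and (PTF.le (PTF.pow hn 2) hx) (PTF.le (PTF.length hc.fst) hx))
    (PTF.le (PTF.length hc.snd) hx))
    (PTF.or (PTF.or (PTF.le hx (PTF.mul (PTF.const 2) (PTF.pow hn 2)))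
      (PTF.le hx (PTF.mul (PTF.const 2) (PTF.length hc.fst))))
      (PTF.le hx (PTF.mul (PTF.const 2) (PTF.length hc.snd))))

theorem ptf_rul {att b f κ β : α → Bool} {n : α → ℕ} {q : α → S} (hatt : PTF att) (hn : PTF n)
    (hb : PTF b) (hf : PTF f) (hκ : PTF κ) (hβ : PTF β) (hq : PTF q) :
    PTF (fun a => rul (att a) (n a) (b a) (f a) (κ a) (β a) (q a)) := by
  have hfi : PTF (fun a => fi (b a)) :=
    (PTF.cond hb (PTF.const 1) (PTF.const 0)).of_eq fun a => by
      unfold fi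
      cases b a <;> rfl
  refine (PTF.cond (ptf_isCod 3 hq)
    (PTF.cond hatt
      (PTF.cond (ptf_isMsk hq) (PTF.and hb (PTF.eq (ptf_lev hq) hn))
        (PTF.cond (PTF.and (ptf_isSh 3 hq) (PTF.eq (ptf_idx hq) hfi)) hκ hf))
      (PTF.cond (ptf_isMsk hq) hβ
        (PTF.cond (ptf_isFre hq) (PTF.const false)
          (PTF.ite (PTF.eq (ptf_idx hq) (PTF.const 0)) (PTF.or hκ hβ) (PTF.and hκ hβ)))))
    (PTF.const false)).of_eq fun a => ?_
  unfold rul
  cases isCod 3 (q a) <;> cases att a <;> cases isMsk (q a) <;> cases isFre (q a) <;>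
    cases isSh 3 (q a) && decide (idx (q a) = fi (b a)) <;> rfl

end Pool.Agent.Helper21.BY
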