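import Pool.Agent.Helper21.BY.P1

/-!
Project BY (MP_4a5e7e_lc, `k = 3`): computations in polynomial time, II: the parts of a plan.
-/

namespace Pool.Agent.Helper21.BY

open Pool.Agent.Helper91.PolyTime
open Pool.Agent.Helper21.BX

variable {α β γ : Type} [PEnc α] [PEnc β] [PEnc γ]

/-- A fixed list is mapped item by item. -/
theorem ptf_mapc {ι : Type} (l : List ι) {f : ι → α → β} (hf : ∀ i, PTF (f i)) :
    PTF (fun a => l.map (fun i => f i a)) := by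
  induction l with
  | nil => exact PTF.const []
  | cons i l ih => exact PTF.cons (hf i) ih

variable {E : Env} {e w : α → S} {n ν t : α → ℕ}

theorem ptf_pZ (hE : UP E) (he : PTF e) (ht : PTF t) (hn : PTF n) (hν : PTF ν) (hw : PTF w) :
    PTF (fun a => pZ (mac E (e a) (t a)) (n a) (ν a) (w a)) := by
  exact ptf_getD (ptf_pC (fun c => (c.2.1 : ℕ)) hn hw) (ptf_qs hE he ht (ptf_pY hn hν hw))
    (PTF.const [])

theorem ptf_pZ2 (hE : UP E) (he : PTF e) (ht : PTF t) (hn : PTF n) (hν : PTF ν) (hw : PTF w) :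
    PTF (fun a => pZ2 (mac E (e a) (t a)) (n a) (ν a) (w a)) := by
  exact ptf_getD (ptf_pC (fun c => (c.2.2.1 : ℕ)) hn hw) (ptf_qs hE he ht (ptf_pY2 hn hν hw))
    (PTF.const [])

theorem ptf_tgt (hE : UP E) (he : PTF e) (ht : PTF t) (hn : PTF n) (hν : PTF ν) (hw : PTF w) :
    PTF (fun a => tgt (mac E (e a) (t a)) (n a) (ν a) (w a)) := by
  exact PTF.cons (ptf_pY hn hν hw) (PTF.cons (ptf_pY2 hn hν hw)
    (PTF.cons (ptf_pZ hE he ht hn hν hw) (PTF.cons (ptf_pZ2 hE he ht hn hν hw) (PTF.const []))))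

theorem ptf_rel (hE : UP E) (he : PTF e) (ht : PTF t) (hn : PTF n) (hν : PTF ν) (hw : PTF w) :
    PTF (fun a => rel (mac E (e a) (t a)) (n a) (ν a) (w a)) := by
  unfold rel
  refine PTF.append (ptf_tgt hE he ht hn hν hw) (PTF.flatMap
    (f := fun a q => (mac E (e a) (t a)).qs q) (ptf_tgt hE he ht hn hν hw) ?_)
  exact ptf_qs hE (PTF.comp he PTF.id.fst) (PTF.comp ht PTF.id.fst) PTF.id.snd

theorem ptf_pK (hE : UP E) (he : PTF e) (ht : PTF t) (hn : PTF n) (hν : PTF ν) (hw : PTF w) :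
    PTF (fun a => pK (mac E (e a) (t a)) (n a) (ν a) (w a)) := by
  exact ptf_getD (ptf_pC (fun c => (c.2.2.2.1 : ℕ)) hn hw) (ptf_rel hE he ht hn hν hw)
    (PTF.const [])

theorem ptf_pR1 (hE : UP E) (he : PTF e) (ht : PTF t) (hn : PTF n) (hν : PTF ν) (hw : PTF w) :
    PTF (fun a => pR1 (mac E (e a) (t a)) (n a) (ν a) (w a)) := by
  exact ptf_rest (ptf_getD (ptf_pC (fun c => (c.2.2.2.2.1 : ℕ)) hn hw)
    (ptf_rel hE he ht hn hν hw) (PTF.const []))

theorem ptf_pR2 (hE : UP E) (he : PTF e) (ht : PTF t) (hn : PTF n) (hν : PTF ν) (hw : PTF w) :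
    PTF (fun a => pR2 (mac E (e a) (t a)) (n a) (ν a) (w a)) := by
  exact ptf_rest (ptf_getD (ptf_pC (fun c => (c.2.2.2.2.2.1 : ℕ)) hn hw)
    (ptf_rel hE he ht hn hν hw) (PTF.const []))

/-- `ptf_mapc` with `List.finRange 16`, `ptf_sym`, `ptf_pC`. -/
theorem ptf_pH (hE : UP E) (he : PTF e) (ht : PTF t) (hn : PTF n) (hν : PTF ν) (hw : PTF w) :
    PTF (fun a => pH (mac E (e a) (t a)) (n a) (ν a) (w a)) := by
  unfold pH
  have hr := ptf_rel hE he ht hn hν hw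
  refine ptf_mapc (List.finRange 16) (f := fun (i : Fin 16) (a : α) =>
    ((rel (mac E (e a) (t a)) (n a) (ν a) (w a)).getD (i : ℕ) [],
      (sym (rel (mac E (e a) (t a)) (n a) (ν a) (w a)) ((pC (n a) (w a)).2.2.2.2.2.2 i).1,
        sym (rel (mac E (e a) (t a)) (n a) (ν a) (w a)) ((pC (n a) (w a)).2.2.2.2.2.2 i).2.1,
        sym (rel (mac E (e a) (t a)) (n a) (ν a) (w a)) ((pC (n a) (w a)).2.2.2.2.2.2 i).2.2)))
    (fun i => ?_)
  refine PTF.pair (ptf_getD (PTF.const (i : ℕ)) hr (PTF.const [])) (PTF.pair ?_ (PTF.pair ?_ ?_))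
  · exact ptf_sym hr (ptf_pC (fun c => ((c.2.2.2.2.2.2 i).1 : ℕ)) hn hw)
  · exact ptf_sym hr (ptf_pC (fun c => ((c.2.2.2.2.2.2 i).2.1 : ℕ)) hn hw)
  · exact ptf_sym hr (ptf_pC (fun c => ((c.2.2.2.2.2.2 i).2.2 : ℕ)) hn hw)

theorem ptf_sok (hE : UP E) (κ : ℕ) {l : α → ℕ} {x : α → S} (he : PTF e) (ht : PTF t) (hn : PTF n)
    (hν : PTF ν) (hw : PTF w) (hl : PTF l) (hx : PTF x) :
    PTF (fun a => sok (mac E (e a) (t a)) κ (n a) (ν a) (w a) (l a) (x a)) := by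
  unfold sok
  refine PTF.and (PTF.or (PTF.not (ptf_isI hx)) (PTF.le (PTF.length hx) (PTF.succ hl)))
    (PTF.or (PTF.not (ptf_isP hx)) (PTF.and
      (PTF.or (PTF.const _) (PTF.le (ptf_pS hn hν hw) hl))
      (PTF.or (PTF.const _) (PTF.and (PTF.and (PTF.le hn hl)
        (PTF.le (PTF.length (ptf_pR1 hE he ht hn hν hw)) hl))
        (PTF.le (PTF.length (ptf_pR2 hE he ht hn hν hw)) hl)))))

theorem ptf_legit (hE : UP E) (κ : ℕ) {τ : α → ℕ} (he : PTF e) (ht : PTF t) (hn : PTF n)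
    (hν : PTF ν) (hτ : PTF τ) (hw : PTF w) :
    PTF (fun a => legit (mac E (e a) (t a)) κ (n a) (ν a) (τ a) (w a)) := by
  unfold legit
  refine PTF.and ?_ (PTF.or (PTF.const _) (PTF.and
    (PTF.le (PTF.length (ptf_pR1 hE he ht hn hν hw)) hτ)
    (PTF.le (PTF.length (ptf_pR2 hE he ht hn hν hw)) hτ)))
  refine PTF.all (f := fun a (r : S × Hst) =>
    sok (mac E (e a) (t a)) κ (n a) (ν a) (w a) (lev r.1) r.2.1 &&
      sok (mac E (e a) (t a)) κ (n a) (ν a) (w a) (lev r.1) r.2.2.1 &&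
      sok (mac E (e a) (t a)) κ (n a) (ν a) (w a) (lev r.1) r.2.2.2)
    (ptf_pH hE he ht hn hν hw) ?_
  have he' : PTF (fun p : α × (S × Hst) => e p.1) := PTF.comp he PTF.id.fst
  have ht' : PTF (fun p : α × (S × Hst) => t p.1) := PTF.comp ht PTF.id.fst
  have hn' : PTF (fun p : α × (S × Hst) => n p.1) := PTF.comp hn PTF.id.fst
  have hν' : PTF (fun p : α × (S × Hst) => ν p.1) := PTF.comp hν PTF.id.fst
  have hw' : PTF (fun p : α × (S × Hst) => w p.1) := PTF.comp hw PTF.id.fst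
  have hl' : PTF (fun p : α × (S × Hst) => lev p.2.1) := ptf_lev PTF.id.snd.fst
  exact PTF.and (PTF.and (ptf_sok hE κ he' ht' hn' hν' hw' hl' PTF.id.snd.snd.fst)
    (ptf_sok hE κ he' ht' hn' hν' hw' hl' PTF.id.snd.snd.snd.fst))
    (ptf_sok hE κ he' ht' hn' hν' hw' hl' PTF.id.snd.snd.snd.snd)

theorem ptf_keyok (hE : UP E) {s : α → ℕ} (he : PTF e) (ht : PTF t) (hn : PTF n) (hν : PTF ν)
    (hs : PTF s) (hw : PTF w) :
    PTF (fun a => keyok (mac E (e a) (t a)) (n a) (ν a) (s a) (w a)) := by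
  have hK := ptf_pK hE he ht hn hν hw
  exact PTF.and (PTF.and (PTF.and (ptf_isSh 3 hK) (PTF.eq (ptf_idx hK) (PTF.const 0)))
    (PTF.le hs (ptf_lev hK))) (PTF.lt (ptf_lev hK) hn)

theorem ptf_nms {L : α → List S} (hL : PTF L) : PTF (fun a => nms (L a)) := by
  unfold nms
  refine PTF.flatMap (f := fun _ q => [false :: q, true :: rest q]) hL ?_
  exact PTF.cons (PTF.cons (PTF.const false) PTF.id.snd)
    (PTF.cons (PTF.cons (PTF.const true) (ptf_rest PTF.id.snd)) (PTF.const []))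

end Pool.Agent.Helper21.BY
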