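import Pool.Agent.Helper21.BY.P2

/-!
Project BY (MP_4a5e7e_lc, `k = 3`): computations in polynomial time, III: validity of plans.
-/

namespace Pool.Agent.Helper21.BY

open Pool.Agent.Helper91.PolyTime
open Pool.Agent.Helper21.BX

variable {α β γ : Type} [PEnc α] [PEnc β] [PEnc γ]

/-- Composition, compare `BX.ptf_ev`. -/
theorem ptf_evY {n t a : α → ℕ} {mode : α → Bool} {low : α → S → Bool} {key : α → S}
    {b p : α → Bool} {H : α → List (S × Hst)} {X : α → S → Bool} {q : α → S} (hn : PTF n)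
    (ht : PTF t) (ha : PTF a) (hmode : PTF mode) (hlow : PTF (fun p : α × S => low p.1 p.2))
    (hkey : PTF key) (hb : PTF b) (hH : PTF H) (hp : PTF p)
    (hX : PTF (fun p : α × S => X p.1 p.2)) (hq : PTF q) :
    PTF (fun x => ev (n x) (t x) (a x) (mode x) (low x) (key x) (b x) (H x) (p x) (X x) (q x)) := by
  unfold ev
  have hlev : PTF (fun x => lev (q x)) := ptf_lev hq
  have hXq : PTF (fun x => X x (false :: q x)) :=
    PTF.comp hX (PTF.id.pair (PTF.cons (PTF.const false) hq))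
  have hXr : PTF (fun x => X x (true :: rest (q x))) :=
    PTF.comp hX (PTF.id.pair (PTF.cons (PTF.const true) (ptf_rest hq)))
  have hfi : PTF (fun x => fi (b x)) := ptf_iteY hb (PTF.const 1) (PTF.const 0)
  refine ptf_iteY (ptf_isCod 3 hq) (ptf_iteY (ptf_inI hn ht hq)
    (ptf_iteY (ptf_isMsk hq) (PTF.and hb (PTF.eq hlev hn))
      (ptf_iteY (PTF.and (ptf_isSh 3 hq) (PTF.eq (ptf_idx hq) hfi)) hXr (ptf_fv hX hp hH hq)))
    (PTF.ite (PTF.lt hlev hn)
      (ptf_iteY hmode
        (PTF.ite (PTF.lt hlev ha) (PTF.comp hlow (PTF.id.pair hq))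
          (PTF.and (PTF.and (ptf_isSh 3 hq) (PTF.eq (ptf_idx hq) (PTF.const 0))) hXq))
        (PTF.or (PTF.eq hq hkey) hXq))
      hXq)) (PTF.const false)

variable {E : Env} {e w : α → S} {n ν t : α → ℕ}

private theorem P3_beq {f g : α → Bool} (hf : PTF f) (hg : PTF g) : PTF (fun a => f a == g a) :=
  (PTF.eq hf hg).of_eq fun a => by cases f a <;> cases g a <;> rfl

theorem ptf_cnd (hE : UP E) (κ : ℕ) {X : α → S → Bool} {p : α → Bool} (he : PTF e) (ht : PTF t)
    (hn : PTF n) (hν : PTF ν) (hw : PTF w) (hX : PTF (fun p : α × S => X p.1 p.2)) (hp : PTF p) :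
    PTF (fun a => cnd (mac E (e a) (t a)) κ (n a) (ν a) (w a) (X a) (p a)) := by
  have h1 : PTF (fun a => X a (true :: pR1 (mac E (e a) (t a)) (n a) (ν a) (w a))) :=
    PTF.comp hX (PTF.id.pair (PTF.cons (PTF.const true) (ptf_pR1 hE he ht hn hν hw)))
  have h2 : PTF (fun a => X a (true :: pR2 (mac E (e a) (t a)) (n a) (ν a) (w a))) :=
    PTF.comp hX (PTF.id.pair (PTF.cons (PTF.const true) (ptf_pR2 hE he ht hn hν hw)))
  unfold cnd
  by_cases h0 : κ = 0
  · simp only [if_pos h0]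
    exact PTF.not hp
  · by_cases h3 : κ = 1
    · simp only [if_neg h0, if_pos h3]
      exact P3_beq hp h1
    · simp only [if_neg h0, if_neg h3]
      exact P3_beq hp (PTF.not (PTF.and h1 h2))

/-- `evP`, composition. -/
theorem ptf_evPY (hE : UP E) (κ : ℕ) {s : α → ℕ} {mode p : α → Bool} {low X : α → S → Bool}
    {q : α → S} (he : PTF e) (ht : PTF t) (hn : PTF n) (hν : PTF ν) (hs : PTF s) (hmode : PTF mode)
    (hlow : PTF (fun p : α × S => low p.1 p.2)) (hw : PTF w) (hp : PTF p)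
    (hX : PTF (fun p : α × S => X p.1 p.2)) (hq : PTF q) :
    PTF (fun a => evP (mac E (e a) (t a)) κ (n a) (ν a) (t a) (s a) (mode a) (low a) (w a) (p a)
      (X a) (q a)) := by
  have hk : PTF (fun a => if κ = 0 then pK (mac E (e a) (t a)) (n a) (ν a) (w a) else []) := by
    by_cases h0 : κ = 0
    · simp only [if_pos h0]
      exact ptf_pK hE he ht hn hν hw
    · simp only [if_neg h0]
      exact PTF.const []
  exact ptf_evY hn ht hs hmode hlow hk (ptf_pB hn hw) (ptf_pH hE he ht hn hν hw) hp hX hq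

/-- Composition, compare `BX.ptf_val`; the lists `allB 32` and `[false, true]` are constants (never let
anything compute `allB 32`). -/
theorem ptf_valY (hE : UP E) (κ : ℕ) {s : α → ℕ} {mode : α → Bool} {low : α → S → Bool}
    (he : PTF e) (hn : PTF n) (hν : PTF ν) (ht : PTF t) (hs : PTF s) (hmode : PTF mode)
    (hlow : PTF (fun p : α × S => low p.1 p.2)) (hw : PTF w) :
    PTF (fun a => val (mac E (e a) (t a)) κ (n a) (ν a) (t a) (s a) (mode a) (low a) (w a)) := by
  unfold val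
  -- the unknown bits
  have hXX : ∀ {δ : Type} [PEnc δ] {g : δ → α} {xs : δ → List Bool} {x : δ → S},
      PTF g → PTF xs → PTF x →
      PTF (fun y : δ => decide (x y ∈ sel (xs y)
        (nms (rel (mac E (e (g y)) (t (g y))) (n (g y)) (ν (g y)) (w (g y)))))) := by
    intro δ _ g xs x hg hxs hx
    exact (ptf_mem hx (ptf_sel hxs (ptf_nms (ptf_rel hE (he.comp hg) (ht.comp hg) (hn.comp hg)
      (hν.comp hg) (hw.comp hg))))).of_eq fun p => decide_eq_decide.2 Iff.rfl
  have hev : PTF (fun y : (((α × List Bool) × Bool) × S) × S =>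
      evP (mac E (e y.1.1.1.1) (t y.1.1.1.1)) κ (n y.1.1.1.1) (ν y.1.1.1.1) (t y.1.1.1.1)
        (s y.1.1.1.1) (mode y.1.1.1.1) (low y.1.1.1.1) (w y.1.1.1.1) y.1.1.2
        (fun z => decide (z ∈ sel y.1.1.1.2
          (nms (rel (mac E (e y.1.1.1.1) (t y.1.1.1.1)) (n y.1.1.1.1) (ν y.1.1.1.1)
            (w y.1.1.1.1))))) y.2) := by
    have r : PTF (fun y : (((α × List Bool) × Bool) × S) × S => y.1.1.1.1) :=
      PTF.id.fst.fst.fst.fst
    refine ptf_evPY hE κ (e := fun y : (((α × List Bool) × Bool) × S) × S => e y.1.1.1.1)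
      (t := fun y => t y.1.1.1.1) (n := fun y => n y.1.1.1.1) (ν := fun y => ν y.1.1.1.1)
      (s := fun y => s y.1.1.1.1) (mode := fun y => mode y.1.1.1.1)
      (low := fun y => low y.1.1.1.1) (w := fun y => w y.1.1.1.1) (p := fun y => y.1.1.2)
      (X := fun y z => decide (z ∈ sel y.1.1.1.2
          (nms (rel (mac E (e y.1.1.1.1) (t y.1.1.1.1)) (n y.1.1.1.1) (ν y.1.1.1.1)
            (w y.1.1.1.1))))) (q := fun y => y.2)
      (he.comp r) (ht.comp r) (hn.comp r) (hν.comp r) (hs.comp r) (hmode.comp r)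
      (hlow.comp ((r.comp PTF.id.fst).pair PTF.id.snd)) (hw.comp r) PTF.id.fst.fst.snd
      ?_ PTF.id.snd
    exact hXX (δ := ((((α × List Bool) × Bool) × S) × S) × S) (g := fun y => y.1.1.1.1.1)
      (xs := fun y => y.1.1.1.1.2) (x := fun y => y.2) PTF.id.fst.fst.fst.fst.fst
      PTF.id.fst.fst.fst.fst.snd PTF.id.snd
  -- one target
  have hvio : PTF (fun y : ((α × List Bool) × Bool) × S =>
      vio (mac E (e y.1.1.1) (t y.1.1.1))
        (evP (mac E (e y.1.1.1) (t y.1.1.1)) κ (n y.1.1.1) (ν y.1.1.1) (t y.1.1.1)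
          (s y.1.1.1) (mode y.1.1.1) (low y.1.1.1) (w y.1.1.1) y.1.2
          (fun z => decide (z ∈ sel y.1.1.2
            (nms (rel (mac E (e y.1.1.1) (t y.1.1.1)) (n y.1.1.1) (ν y.1.1.1)
              (w y.1.1.1)))))) y.2) :=
    ptf_vio hE (c := fun (y : ((α × List Bool) × Bool) × S) (q : S) =>
        evP (mac E (e y.1.1.1) (t y.1.1.1)) κ (n y.1.1.1) (ν y.1.1.1) (t y.1.1.1)
          (s y.1.1.1) (mode y.1.1.1) (low y.1.1.1) (w y.1.1.1) y.1.2
          (fun z => decide (z ∈ sel y.1.1.2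
            (nms (rel (mac E (e y.1.1.1) (t y.1.1.1)) (n y.1.1.1) (ν y.1.1.1)
              (w y.1.1.1))))) q)
      (he.comp PTF.id.fst.fst.fst) (ht.comp PTF.id.fst.fst.fst) hev PTF.id.snd
  have r2 : PTF (fun y : (α × List Bool) × Bool => y.1.1) := PTF.id.fst.fst
  have hany : PTF (fun y : (α × List Bool) × Bool =>
      (tgt (mac E (e y.1.1) (t y.1.1)) (n y.1.1) (ν y.1.1) (w y.1.1)).any
        (vio (mac E (e y.1.1) (t y.1.1))
          (evP (mac E (e y.1.1) (t y.1.1)) κ (n y.1.1) (ν y.1.1) (t y.1.1)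
            (s y.1.1) (mode y.1.1) (low y.1.1) (w y.1.1) y.2
            (fun z => decide (z ∈ sel y.1.2
              (nms (rel (mac E (e y.1.1) (t y.1.1)) (n y.1.1) (ν y.1.1) (w y.1.1)))))))) :=
    PTF.any (ptf_tgt hE (he.comp r2) (ht.comp r2) (hn.comp r2) (hν.comp r2) (hw.comp r2)) hvio
  have hcnd : PTF (fun y : (α × List Bool) × Bool =>
      cnd (mac E (e y.1.1) (t y.1.1)) κ (n y.1.1) (ν y.1.1) (w y.1.1)
        (fun z => decide (z ∈ sel y.1.2
          (nms (rel (mac E (e y.1.1) (t y.1.1)) (n y.1.1) (ν y.1.1) (w y.1.1))))) y.2) := by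
    refine ptf_cnd hE κ (X := fun (y : (α × List Bool) × Bool) z => decide (z ∈ sel y.1.2
          (nms (rel (mac E (e y.1.1) (t y.1.1)) (n y.1.1) (ν y.1.1) (w y.1.1)))))
      (he.comp r2) (ht.comp r2) (hn.comp r2) (hν.comp r2) (hw.comp r2) ?_ PTF.id.snd
    exact hXX (δ := ((α × List Bool) × Bool) × S) (g := fun y => y.1.1.1)
      (xs := fun y => y.1.1.2) (x := fun y => y.2) PTF.id.fst.fst.fst PTF.id.fst.fst.snd
      PTF.id.snd
  refine PTF.and (PTF.and (ptf_legit hE κ he ht hn hν ht hw)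
    (PTF.or (PTF.or (PTF.const _) hmode) (ptf_keyok hE he ht hn hν hs hw)))
    (PTF.all (l := fun _ : α => allB 32) (PTF.const _)
      (PTF.all (l := fun _ : α × List Bool => [false, true]) (PTF.const _)
        (PTF.or (PTF.not hcnd) hany)))

end Pool.Agent.Helper21.BY
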