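import Pool.Agent.Helper21.BY.P3

/-!
Project BY (MP_4a5e7e_lc, `k = 3`): the clocked functions, and computations in polynomial time, IV.

The clock `C` replaces the exponential numbers, as in project BX.
-/

namespace Pool.Agent.Helper21.BY

open Pool.Agent.Helper91.PolyTime
open Pool.Agent.Helper21.BX

variable {α β γ : Type} [PEnc α] [PEnc β] [PEnc γ]

/-- The start of the search. -/
noncomputable def zz (n : ℕ) : S := List.replicate (WW n) false

noncomputable def xwC (E : Env) (C : ℕ) (e : S) (n ν t a : ℕ) : Option S :=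
  fnd (xP (mac E (pgs true e) t) n ν t a) C (zz n)

noncomputable def alC (E : Env) (C : ℕ) (e : S) (n ν t a : ℕ) : S × S :=
  ins (mac E (pgs true e) t) n ν (xwC E C e n ν t a)

noncomputable def hwC (E : Env) (C : ℕ) (e : S) (n ν t a : ℕ) : Option S :=
  fnd (hP (mac E (pgs false e) t) (alC E C e n ν t a) n ν t a) C (zz n)

noncomputable def ddC (E : Env) (C : ℕ) (e : S) (n ν t a : ℕ) : S × S :=
  ((ins (mac E (pgs false e) t) n ν (hwC E C e n ν t a)).1,
    (ins (mac E (pgs false e) t) n ν (hwC E C e n ν t a)).1)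

noncomputable def spiC (E : Env) (C : ℕ) (s : Bool) (e : S) (n ν t a : ℕ) : S × S :=
  if s then ddC E C e n ν t a else alC E C e n ν t a

noncomputable def fbkC (E : Env) (C : ℕ) (s : Bool) (e : S) (n ν t a : ℕ) : Option S :=
  if s then xwC E C e n ν t a else hwC E C e n ν t a

noncomputable def spvC (E : Env) (C R : ℕ) (s : Bool) (e : S) (n ν t a l : ℕ) : Bool :=
  usb R l (spiC E C s e n ν t a) &&
    (KdC E C (spiC E C s e n ν t a).1 && KdC E C (spiC E C s e n ν t a).2)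

noncomputable def v0C (E : Env) (s : Bool) (e : S) (n ν t a l : ℕ) (w : S) : Bool :=
  val (mac E (pgs s e) t) 0 n ν t a false (fun _ => false) w &&
    decide (lev (pK (mac E (pgs s e) t) n ν w) = l)

noncomputable def blC (E : Env) (C : ℕ) (s : Bool) (e : S) (n ν t a l : ℕ) : Bool :=
  decide (l < n) && (fnd (v0C E s e n ν t a l) C (zz n)).isSome

/-- The parameters of the window `(m, a)`: start, bound of the scales, end. -/
def pn (C : ℕ) (x : ℕ × ℕ) : ℕ := BX.pw C x.2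

def pv (C : ℕ) (x : ℕ × ℕ) : ℕ := BX.pw C (x.2 * x.1)

def pt (C : ℕ) (x : ℕ × ℕ) : ℕ := BX.pw C (x.2 ^ 2)

/-- The set with a clock, if `P` is the plan of the window; `x` is the window `wpar (lev q)`. -/
noncomputable def inC (E : Env) (C R : ℕ) (s : Bool) (P : Bool × S) (x : ℕ × ℕ) (q : S) : Bool :=
  rul (inI (pn C x) (pt C x) q) (pn C x) (pB (pn C x) P.2)
    (fvg (KdC E C) (KdC E C) (KdC E C)
      (P.1 && spvC E C R s (pg x.1) (pn C x) (pv C x) (pt C x) x.2 (lev q)) (lev q)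
      (pH (mac E (pgs s (pg x.1)) (pt C x)) (pn C x) (pv C x) P.2) q)
    (isSh 3 q && KdC E C (rest q))
    (blC E C s (pg x.1) (pn C x) (pv C x) (pt C x) x.2 (lev q)) q

/-- The set with a clock, if `h` is the list of the plans. -/
noncomputable def lowC (E : Env) (C R : ℕ) (s : Bool) (h : List (Bool × S)) (q : S) : Bool :=
  inC E C R s (h.getD (wpar (lev q)).1 (false, [])) (wpar (lev q)) q

theorem ptf_zz {n : α → ℕ} (hn : PTF n) : PTF (fun a => zz (n a)) := by
  unfold zz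
  exact ptf_replicate (ptf_WW hn) (PTF.const false)

theorem ptf_pgs (s : Bool) {e : α → S} (he : PTF e) : PTF (fun a => pgs s (e a)) := by
  have h0 : PTF (fun a => Str.ofList (e a)) := PTF.strOfList he
  have h1 : PTF (fun a => Str.ofList (upr (e a)).1) := PT.fst h0
  have h2 : PTF (fun a => Str.ofList (upr (e a)).2) := PT.snd h0
  have h3 : PTF (fun a => (upr (e a)).1) := PTF.strToList h1
  have h4 : PTF (fun a => (upr (e a)).2) := PTF.strToList h2
  cases s
  · exact h3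
  · exact h4

section

variable {E : Env} {e w : α → S} {C n ν t s : α → ℕ}

/-- `ins` of an optional plan. -/
theorem ptf_ins (hE : UP E) {o : α → Option S} (he : PTF e) (ht : PTF t) (hn : PTF n)
    (hν : PTF ν) (ho : PTF o) :
    PTF (fun a => ins (mac E (e a) (t a)) (n a) (ν a) (o a)) := by
  have p1 : PTF (fun p : α × S => p.1) := PTF.id.fst
  have hs : PTF (fun p : α × S => (pR1 (mac E (e p.1) (t p.1)) (n p.1) (ν p.1) p.2,
      pR2 (mac E (e p.1) (t p.1)) (n p.1) (ν p.1) p.2)) :=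
    PTF.pair (ptf_pR1 hE (he.comp p1) (ht.comp p1) (hn.comp p1) (hν.comp p1) PTF.id.snd)
      (ptf_pR2 hE (he.comp p1) (ht.comp p1) (hn.comp p1) (hν.comp p1) PTF.id.snd)
  refine (PTF.optCase (s := fun a w => (pR1 (mac E (e a) (t a)) (n a) (ν a) w,
    pR2 (mac E (e a) (t a)) (n a) (ν a) w)) ho (PTF.const (([], []) : S × S)) hs).of_eq fun a => ?_
  cases o a <;> rfl

theorem ptf_xwC (hE : UP E) (hC : PTF C) (he : PTF e) (hn : PTF n) (hν : PTF ν) (ht : PTF t)
    (hs : PTF s) : PTF (fun a => xwC E (C a) (e a) (n a) (ν a) (t a) (s a)) := by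
  unfold xwC
  have p1 : PTF (fun p : α × S => p.1) := PTF.id.fst
  have hP : PTF (fun p : α × S => xP (mac E (pgs true (e p.1)) (t p.1)) (n p.1) (ν p.1) (t p.1)
      (s p.1) p.2) := by
    unfold xP
    exact PTF.and (ptf_valY hE 2 (ptf_pgs true (he.comp p1)) (hn.comp p1) (hν.comp p1)
      (ht.comp p1) (hs.comp p1) (PTF.const false) (PTF.const false) PTF.id.snd)
      (PTF.eq (ptf_pS (hn.comp p1) (hν.comp p1) PTF.id.snd) (PTF.pow (hn.comp p1) 2))
  exact ptf_fnd (P := fun a w => xP (mac E (pgs true (e a)) (t a)) (n a) (ν a) (t a) (s a) w) hP hC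
    (ptf_zz hn)

theorem ptf_alC (hE : UP E) (hC : PTF C) (he : PTF e) (hn : PTF n) (hν : PTF ν) (ht : PTF t)
    (hs : PTF s) : PTF (fun a => alC E (C a) (e a) (n a) (ν a) (t a) (s a)) := by
  unfold alC
  exact ptf_ins hE (ptf_pgs true he) ht hn hν (ptf_xwC hE hC he hn hν ht hs)

theorem ptf_hwC (hE : UP E) (hC : PTF C) (he : PTF e) (hn : PTF n) (hν : PTF ν) (ht : PTF t)
    (hs : PTF s) : PTF (fun a => hwC E (C a) (e a) (n a) (ν a) (t a) (s a)) := by
  unfold hwC
  have p1 : PTF (fun p : α × S => p.1) := PTF.id.fst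
  have hal := ptf_alC hE hC he hn hν ht hs
  have hP : PTF (fun p : α × S => hP (mac E (pgs false (e p.1)) (t p.1))
      (alC E (C p.1) (e p.1) (n p.1) (ν p.1) (t p.1) (s p.1)) (n p.1) (ν p.1) (t p.1)
      (s p.1) p.2) := by
    unfold BY.hP
    exact PTF.and (ptf_valY hE 1 (ptf_pgs false (he.comp p1)) (hn.comp p1) (hν.comp p1)
      (ht.comp p1) (hs.comp p1) (PTF.const false) (PTF.const false) PTF.id.snd)
      (ptf_scok (hn.comp p1) (hal.comp p1) (ptf_pS (hn.comp p1) (hν.comp p1) PTF.id.snd))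
  exact ptf_fnd (P := fun a w => BY.hP (mac E (pgs false (e a)) (t a))
    (alC E (C a) (e a) (n a) (ν a) (t a) (s a)) (n a) (ν a) (t a) (s a) w) hP hC (ptf_zz hn)

private theorem P4_ddC (hE : UP E) (hC : PTF C) (he : PTF e) (hn : PTF n) (hν : PTF ν)
    (ht : PTF t) (hs : PTF s) :
    PTF (fun a => ddC E (C a) (e a) (n a) (ν a) (t a) (s a)) := by
  unfold ddC
  have h := ptf_ins hE (ptf_pgs false he) ht hn hν (ptf_hwC hE hC he hn hν ht hs)
  exact PTF.pair h.fst h.fst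

theorem ptf_spiC (hE : UP E) (σ : Bool) (hC : PTF C) (he : PTF e) (hn : PTF n) (hν : PTF ν)
    (ht : PTF t) (hs : PTF s) :
    PTF (fun a => spiC E (C a) σ (e a) (n a) (ν a) (t a) (s a)) := by
  cases σ
  · exact ptf_alC hE hC he hn hν ht hs
  · exact P4_ddC hE hC he hn hν ht hs

theorem ptf_fbkC (hE : UP E) (σ : Bool) (hC : PTF C) (he : PTF e) (hn : PTF n) (hν : PTF ν)
    (ht : PTF t) (hs : PTF s) :
    PTF (fun a => fbkC E (C a) σ (e a) (n a) (ν a) (t a) (s a)) := by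
  cases σ
  · exact ptf_hwC hE hC he hn hν ht hs
  · exact ptf_xwC hE hC he hn hν ht hs

theorem ptf_spvC (hE : UP E) (hV : VP E) (R : ℕ) (σ : Bool) {l : α → ℕ} (hC : PTF C) (he : PTF e)
    (hn : PTF n) (hν : PTF ν) (ht : PTF t) (hs : PTF s) (hl : PTF l) :
    PTF (fun a => spvC E (C a) R σ (e a) (n a) (ν a) (t a) (s a) (l a)) := by
  unfold spvC
  have h := ptf_spiC hE σ hC he hn hν ht hs
  exact PTF.and (ptf_usb R hl h) (PTF.and (ptf_KdC hV hC h.fst) (ptf_KdC hV hC h.snd))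

theorem ptf_v0CY (hE : UP E) (σ : Bool) {l : α → ℕ} (he : PTF e) (hn : PTF n) (hν : PTF ν)
    (ht : PTF t) (hs : PTF s) (hl : PTF l) (hw : PTF w) :
    PTF (fun a => v0C E σ (e a) (n a) (ν a) (t a) (s a) (l a) (w a)) := by
  unfold v0C
  exact PTF.and (ptf_valY hE 0 (ptf_pgs σ he) hn hν ht hs (PTF.const false) (PTF.const false) hw)
    (PTF.eq (ptf_lev (ptf_pK hE (ptf_pgs σ he) ht hn hν hw)) hl)

theorem ptf_blCY (hE : UP E) (σ : Bool) {l : α → ℕ} (hC : PTF C) (he : PTF e) (hn : PTF n)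
    (hν : PTF ν) (ht : PTF t) (hs : PTF s) (hl : PTF l) :
    PTF (fun a => blC E (C a) σ (e a) (n a) (ν a) (t a) (s a) (l a)) := by
  unfold blC
  have p1 : PTF (fun p : α × S => p.1) := PTF.id.fst
  have hP : PTF (fun p : α × S => v0C E σ (e p.1) (n p.1) (ν p.1) (t p.1) (s p.1) (l p.1) p.2) :=
    ptf_v0CY hE σ (he.comp p1) (hn.comp p1) (hν.comp p1) (ht.comp p1) (hs.comp p1) (hl.comp p1)
      PTF.id.snd
  exact PTF.and (PTF.lt hl hn) (ptf_isSome (ptf_fnd
    (P := fun a w => v0C E σ (e a) (n a) (ν a) (t a) (s a) (l a) w) hP hC (ptf_zz hn)))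

end

theorem ptf_pnv {C : α → ℕ} {x : α → ℕ × ℕ} (hC : PTF C) (hx : PTF x) :
    PTF (fun a => pn (C a) (x a)) ∧ PTF (fun a => pv (C a) (x a)) ∧
      PTF (fun a => pt (C a) (x a)) :=
  ⟨BX.ptf_pw hC hx.snd, BX.ptf_pw hC (PTF.mul hx.snd hx.fst), BX.ptf_pw hC (PTF.pow hx.snd 2)⟩

theorem ptf_inCY {E : Env} (hE : UP E) (hV : VP E) (R : ℕ) (σ : Bool) {C : α → ℕ}
    {P : α → Bool × S} {x : α → ℕ × ℕ} {q : α → S} (hC : PTF C) (hP : PTF P) (hx : PTF x)
    (hq : PTF q) : PTF (fun a => inC E (C a) R σ (P a) (x a) (q a)) := by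
  unfold inC
  obtain ⟨hn, hν, ht⟩ := ptf_pnv hC hx
  have hlev : PTF (fun a => lev (q a)) := ptf_lev hq
  have he : PTF (fun a => pg (x a).1) := ptf_pg hx.fst
  have hK : PTF (fun y : α × S => KdC E (C y.1) y.2) := ptf_KdC hV (hC.comp PTF.id.fst) PTF.id.snd
  exact ptf_rul (ptf_inI hn ht hq) hn (ptf_pB hn hP.snd)
    (ptf_fvg (k0 := fun a => KdC E (C a)) (k1 := fun a => KdC E (C a)) (k2 := fun a => KdC E (C a))
      hK hK hK (PTF.and hP.fst (ptf_spvC hE hV R σ hC he hn hν ht hx.snd hlev)) hlev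
      (ptf_pH hE (ptf_pgs σ he) ht hn hν hP.snd) hq)
    (PTF.and (ptf_isSh 3 hq) (ptf_KdC hV hC (ptf_rest hq)))
    (ptf_blCY hE σ hC he hn hν ht hx.snd hlev) hq

theorem ptf_lowCY {E : Env} (hE : UP E) (hV : VP E) (R : ℕ) (σ : Bool) {C : α → ℕ}
    {h : α → List (Bool × S)} {q : α → S} (hC : PTF C) (hh : PTF h) (hq : PTF q) :
    PTF (fun a => lowC E (C a) R σ (h a) (q a)) := by
  unfold lowC
  have hw := ptf_wpar (ptf_lev hq)
  exact ptf_inCY hE hV R σ hC (ptf_getD hw.fst hh (PTF.const (false, []))) hw hq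

end Pool.Agent.Helper21.BY
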