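import Pool.Agent.Helper21.BY.P4
import Pool.Agent.Helper21.BX.Fb

/-!
Project BY (MP_4a5e7e_lc, `k = 3`): the history of the plans with a clock (compare `BX.Px8`).
-/

namespace Pool.Agent.Helper21.BY

open Pool.Agent.Helper91.PolyTime
open Pool.Agent.Helper21.BX

variable {α β γ : Type} [PEnc α] [PEnc β] [PEnc γ]

/-- The plan of a window, with a clock. -/
noncomputable def planC (E : Env) (C R : ℕ) (s : Bool) (e : S) (n ν t a : ℕ)
    (h : List (Bool × S)) : Bool × S :=
  match fnd (val (mac E (pgs s e) t) 0 n ν t a false (fun _ => false)) C (zz n) with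
  | some w => (false, w)
  | none =>
    match fnd (val (mac E (pgs s e) t) 0 n ν t a true (lowC E C R s h)) C (zz n) with
    | some w => (false, w)
    | none =>
      match fbkC E C s e n ν t a with
      | some w => (true, w)
      | none => (false, zz n)

/-- One step of the history: number of the window, its start, the list of the plans. -/
noncomputable def hst (E : Env) (C R : ℕ) (s : Bool) (z : (ℕ × ℕ) × List (Bool × S)) :
    (ℕ × ℕ) × List (Bool × S) :=
  ((z.1.1 + 1, BX.pw C (z.1.2 ^ 2 + 1)),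
    z.2 ++ [planC E C R s (pg z.1.1) (pn C z.1) (pv C z.1) (pt C z.1) z.1.2 z.2])

/-- The history with a clock. -/
noncomputable def hisC (E : Env) (C R : ℕ) (s : Bool) (m : ℕ) : List (Bool × S) :=
  ((hst E C R s)^[m] ((0, 0), [])).2

theorem ptf_planC {E : Env} (hE : UP E) (hV : VP E) (R : ℕ) (σ : Bool) {C : α → ℕ} {e : α → S}
    {n ν t s : α → ℕ} {h : α → List (Bool × S)} (hC : PTF C) (he : PTF e) (hn : PTF n)
    (hν : PTF ν) (ht : PTF t) (hs : PTF s) (hh : PTF h) :
    PTF (fun a => planC E (C a) R σ (e a) (n a) (ν a) (t a) (s a) (h a)) := by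
  have p1 : PTF (fun p : α × S => p.1) := PTF.id.fst
  have q1 : PTF (fun p : (α × S) × S => p.1.1) := PTF.id.fst.fst
  have hz : PTF (fun a => zz (n a)) := ptf_zz hn
  have hval : PTF (fun p : α × S => val (mac E (pgs σ (e p.1)) (t p.1)) 0 (n p.1) (ν p.1) (t p.1)
      (s p.1) false (fun _ => false) p.2) :=
    ptf_valY hE 0 (e := fun p : α × S => pgs σ (e p.1)) (w := fun p => p.2) (n := fun p => n p.1)
      (ν := fun p => ν p.1) (t := fun p => t p.1) (s := fun p => s p.1) (mode := fun _ => false)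
      (low := fun _ _ => false) (ptf_pgs σ (he.comp p1)) (hn.comp p1) (hν.comp p1) (ht.comp p1)
      (hs.comp p1) (PTF.const false) (PTF.const false) PTF.id.snd
  have hval2 : PTF (fun p : α × S => val (mac E (pgs σ (e p.1)) (t p.1)) 0 (n p.1) (ν p.1) (t p.1)
      (s p.1) true (lowC E (C p.1) R σ (h p.1)) p.2) :=
    ptf_valY hE 0 (e := fun p : α × S => pgs σ (e p.1)) (w := fun p => p.2) (n := fun p => n p.1)
      (ν := fun p => ν p.1) (t := fun p => t p.1) (s := fun p => s p.1) (mode := fun _ => true)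
      (low := fun p => lowC E (C p.1) R σ (h p.1)) (ptf_pgs σ (he.comp p1)) (hn.comp p1)
      (hν.comp p1) (ht.comp p1) (hs.comp p1) (PTF.const true)
      (ptf_lowCY hE hV R σ (hC.comp q1) (hh.comp q1) PTF.id.snd) PTF.id.snd
  have h1 := ptf_fnd (P := fun a w => val (mac E (pgs σ (e a)) (t a)) 0 (n a) (ν a) (t a) (s a) false
      (fun _ => false) w) hval hC hz
  have h2 := ptf_fnd (P := fun a w => val (mac E (pgs σ (e a)) (t a)) 0 (n a) (ν a) (t a) (s a) true
      (lowC E (C a) R σ (h a)) w) hval2 hC hz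
  have h3 := PTF.optCase (s := fun _ w => (true, w)) (ptf_fbkC hE σ hC he hn hν ht hs)
    (PTF.pair (PTF.const false) hz) (PTF.pair (PTF.const true) PTF.id.snd)
  have h4 := PTF.optCase (s := fun _ w => (false, w)) h2 h3 (PTF.pair (PTF.const false) PTF.id.snd)
  refine (PTF.optCase (s := fun _ w => (false, w)) h1 h4
    (PTF.pair (PTF.const false) PTF.id.snd)).of_eq fun a => ?_
  unfold planC
  cases fnd (val (mac E (pgs σ (e a)) (t a)) 0 (n a) (ν a) (t a) (s a) false (fun _ => false)) (C a)
      (zz (n a)) with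
  | some w => rfl
  | none =>
    cases fnd (val (mac E (pgs σ (e a)) (t a)) 0 (n a) (ν a) (t a) (s a) true
        (lowC E (C a) R σ (h a))) (C a) (zz (n a)) with
    | some w => rfl
    | none => cases fbkC E (C a) σ (e a) (n a) (ν a) (t a) (s a) <;> rfl

/-- All the plans have the length `WW n` (`fnd_some`). -/
theorem planC_length (E : Env) (C R : ℕ) (s : Bool) (e : S) (n ν t a : ℕ)
    (h : List (Bool × S)) : (planC E C R s e n ν t a h).2.length = WW n := by
  have hz : (zz n).length = WW n := by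
    unfold zz
    rw [List.length_replicate]
  unfold planC
  split
  · rename_i w hw
    rw [(fnd_some hw).1, hz]
  · split
    · rename_i w hw
      rw [(fnd_some hw).1, hz]
    · split
      · rename_i w hw
        unfold fbkC xwC hwC at hw
        split_ifs at hw
        · rw [(fnd_some hw).1, hz]
        · rw [(fnd_some hw).1, hz]
      · exact hz

private theorem P5_pw_le (C n : ℕ) : BX.pw C n ≤ C := by
  unfold BX.pw
  split_ifs with h
  · exact h
  · exact Nat.zero_le _

private theorem P5_WW {m n : ℕ} (h : m ≤ n) : WW m ≤ WW n := by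
  unfold WW
  have := Nat.pow_le_pow_left h 2
  omega

private theorem P5_encS (w : S) : (enc w).length = 3 * w.length := by
  induction w with
  | nil => rfl
  | cons b w ih =>
    rw [length_enc_cons, ih, enc_bool]
    simp only [List.length_cons, List.length_nil]
    omega

private theorem P5_encL (L : List (Bool × S)) (W : ℕ) (h : ∀ w ∈ L, w.2.length ≤ W) :
    (enc L).length ≤ L.length * (6 * W + 7) := by
  induction L with
  | nil => exact Nat.zero_le _
  | cons w L ih =>
    have h1 := ih fun v hv => h v (List.mem_cons_of_mem _ hv)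
    have h2 := h w List.mem_cons_self
    obtain ⟨b, u⟩ := w
    rw [length_enc_cons, length_enc_prod, P5_encS, enc_bool]
    simp only [List.length_cons, List.length_nil] at h2 ⊢
    rw [Nat.add_mul, Nat.one_mul]
    omega

private theorem P5_hst (E : Env) (C R : ℕ) (s : Bool) (i : ℕ) :
    ((hst E C R s)^[i] ((0, 0), [])).1.1 = i ∧ ((hst E C R s)^[i] ((0, 0), [])).1.2 ≤ C ∧
      ((hst E C R s)^[i] ((0, 0), [])).2.length = i ∧
      ∀ w ∈ ((hst E C R s)^[i] ((0, 0), [])).2, w.2.length ≤ WW C := by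
  induction i with
  | zero => exact ⟨rfl, Nat.zero_le _, rfl, fun w hw => absurd hw List.not_mem_nil⟩
  | succ i ih =>
    rw [Function.iterate_succ_apply']
    generalize (hst E C R s)^[i] ((0, 0), []) = z at ih ⊢
    obtain ⟨h1, h2, h3, h4⟩ := ih
    refine ⟨congrArg (· + 1) h1, P5_pw_le _ _, ?_, ?_⟩
    · show (z.2 ++ [_]).length = _
      rw [List.length_append, h3]
      rfl
    · intro w hw
      rcases List.mem_append.1 hw with hw | hw
      · exact h4 w hw
      · rw [List.mem_singleton.1 hw, planC_length]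
        exact P5_WW (P5_pw_le _ _)

/-- As `BX.ptf_hisC`. -/
theorem ptf_hisC {E : Env} (hE : UP E) (hV : VP E) (R : ℕ) (σ : Bool) {C m : α → ℕ}
    (hC : PTF C) (hm : PTF m) : PTF (fun a => hisC E (C a) R σ (m a)) := by
  obtain ⟨p, hp⟩ := hm.length_le
  obtain ⟨r, hr⟩ := hC.length_le
  have c1 : PTF (fun x : α × ((ℕ × ℕ) × List (Bool × S)) => C x.1) := hC.comp PTF.id.fst
  have s2 : PTF (fun x : α × ((ℕ × ℕ) × List (Bool × S)) => x.2.1.2) := PTF.id.snd.fst.snd
  have s1 : PTF (fun x : α × ((ℕ × ℕ) × List (Bool × S)) => x.2.1.1) := PTF.id.snd.fst.fst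
  have s0 : PTF (fun x : α × ((ℕ × ℕ) × List (Bool × S)) => x.2.1) := PTF.id.snd.fst
  have hL : PTF (fun x : α × ((ℕ × ℕ) × List (Bool × S)) => x.2.2) := PTF.id.snd.snd
  obtain ⟨h5, h6, h7⟩ := ptf_pnv c1 s0
  have hF : PTF (fun x : α × ((ℕ × ℕ) × List (Bool × S)) => hst E (C x.1) R σ x.2) := by
    refine PTF.pair (PTF.pair (PTF.succ s1) (BX.ptf_pw c1 (PTF.succ (PTF.pow s2 2)))) ?_
    refine PTF.append hL (PTF.cons ?_ (PTF.const []))
    exact ptf_planC hE hV R σ c1 (ptf_pg s1) h5 h6 h7 s2 hL
  have h := PTF.iterate (F := fun a z => hst E (C a) R σ z) hm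
    (PTF.const (((0, 0), []) : (ℕ × ℕ) × List (Bool × S))) hF
    (2 * (2 * p + r + 1) + p * (6 * (2 * r ^ 2 + r + (CC : Polynomial ℕ)) + 7) + 1) ?_
  · exact h.snd
  · intro a i hi
    obtain ⟨h1, h2, h3, h4⟩ := P5_hst E (C a) R σ i
    have hl := hp a
    have hc := hr a
    rw [length_enc_nat] at hl hc
    show (enc ((hst E (C a) R σ)^[i] ((0, 0), []))).length ≤ _
    generalize (hst E (C a) R σ)^[i] ((0, 0), []) = s at h1 h2 h3 h4
    have h5 := P5_encL s.2 _ h4
    rw [show s = ((s.1.1, s.1.2), s.2) from rfl, length_enc_prod, length_enc_prod, length_enc_nat,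
      length_enc_nat]
    rw [h3] at h5
    simp only [Polynomial.eval_add, Polynomial.eval_mul, Polynomial.eval_one,
      Polynomial.eval_ofNat, Polynomial.eval_pow, Polynomial.eval_natCast, Nat.cast_id]
    have h6 : WW (C a) ≤ 2 * (r.eval (enc a).length) ^ 2 + r.eval (enc a).length + CC :=
      P5_WW hc
    have h7 : i * (6 * WW (C a) + 7) ≤ p.eval (enc a).length *
        (6 * (2 * (r.eval (enc a).length) ^ 2 + r.eval (enc a).length + CC) + 7) :=
      Nat.mul_le_mul (hi.trans hl) (by omega)
    omega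

end Pool.Agent.Helper21.BY
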