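import Pool.Agent.Helper21.BY.P5

/-!
Project BY (MP_4a5e7e_lc, `k = 3`): the verifier of the set.

The string `g` consists of blocks of length `B = 2 ^ (l ^ R + R + l)`, `l` the level of `q`: blocks `0`, `1`, `2`
for the three symbols of a host, `3` for the forced share, `4`, `5` for the special bit; then a plan for the
bit of the level.
-/

namespace Pool.Agent.Helper21.BY

open Pool.Agent.Helper91.PolyTime
open Pool.Agent.Helper21.BX

variable {α β γ : Type} [PEnc α] [PEnc β] [PEnc γ]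

/-- A part of `g`. -/
def seg (g : S) (B j L : ℕ) : S := (g.drop (j * B)).take L

/-- The witness for the instance `c` in block `j`. -/
def vk (E : Env) (g : S) (B j : ℕ) (c : S) : Bool :=
  E.V c (seg g B j (BX.pw g.length c.length))

/-- The length of the blocks. -/
def bB (R : ℕ) (C l : ℕ) : ℕ := BX.pw C (l ^ R + R + l)

/-- The verifier with the window `x`, the plan `P`, the instances `c` of the special bit. -/
noncomputable def VB (E : Env) (R : ℕ) (s : Bool) (x : ℕ × ℕ) (P : Bool × S) (c : S × S)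
    (B : ℕ) (q g : S) : Bool :=
  rul (inI (pn g.length x) (pt g.length x) q) (pn g.length x) (pB (pn g.length x) P.2)
    (fvg (vk E g B 0) (vk E g B 1) (vk E g B 2)
      (P.1 && (usb R (lev q) c && (vk E g B 4 c.1 && vk E g B 5 c.2))) (lev q)
      (pH (mac E (pgs s (pg x.1)) (pt g.length x)) (pn g.length x) (pv g.length x) P.2) q)
    (isSh 3 q && vk E g B 3 (rest q))
    (decide (lev q < pn g.length x) &&
      v0C E s (pg x.1) (pn g.length x) (pv g.length x) (pt g.length x) x.2 (lev q)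
        (seg g B 6 (WW (pn g.length x)))) q

/-- The verifier of the set. -/
noncomputable def VA (E : Env) (R : ℕ) (s : Bool) (q g : S) : Bool :=
  VB E R s (wpar (lev q))
    ((hisC E g.length R s ((wpar (lev q)).1 + 1)).getD (wpar (lev q)).1 (false, []))
    (spiC E g.length s (pg (wpar (lev q)).1) (pn g.length (wpar (lev q)))
      (pv g.length (wpar (lev q))) (pt g.length (wpar (lev q))) (wpar (lev q)).2)
    (bB R g.length (lev q)) q g

theorem ptf_seg {g : α → S} {B j L : α → ℕ} (hg : PTF g) (hB : PTF B) (hj : PTF j)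
    (hL : PTF L) : PTF (fun a => seg (g a) (B a) (j a) (L a)) :=
  ptf_take hL (PTF.drop (PTF.mul hj hB) hg)

theorem ptf_vk {E : Env} (hV : VP E) (j : ℕ) {g c : α → S} {B : α → ℕ} (hg : PTF g) (hB : PTF B)
    (hc : PTF c) : PTF (fun a => vk E (g a) (B a) j (c a)) :=
  PTF.comp₂ (h := fun x y => E.V x y) hV hc
    (ptf_seg hg hB (PTF.const j) (BX.ptf_pw (PTF.length hg) (PTF.length hc)))

theorem ptf_bB (R : ℕ) {C l : α → ℕ} (hC : PTF C) (hl : PTF l) :
    PTF (fun a => bB R (C a) (l a)) :=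
  BX.ptf_pw hC (PTF.add (PTF.add (PTF.pow hl R) (PTF.const R)) hl)

theorem ptf_VB {E : Env} (hE : UP E) (hV : VP E) (R : ℕ) (σ : Bool) {x : α → ℕ × ℕ}
    {P : α → Bool × S} {c : α → S × S} {B : α → ℕ} {q g : α → S} (hx : PTF x) (hP : PTF P)
    (hc : PTF c) (hB : PTF B) (hq : PTF q) (hg : PTF g) :
    PTF (fun a => VB E R σ (x a) (P a) (c a) (B a) (q a) (g a)) := by
  have hC : PTF (fun a => (g a).length) := PTF.length hg
  obtain ⟨hn, hν, ht⟩ := ptf_pnv hC hx
  have hlev := ptf_lev hq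
  have hk : ∀ j : ℕ, PTF (fun y : α × S => vk E (g y.1) (B y.1) j y.2) := fun j =>
    ptf_vk hV j (hg.comp PTF.id.fst) (hB.comp PTF.id.fst) PTF.id.snd
  have hp : PTF (fun a => (P a).1 && (usb R (lev (q a)) (c a) &&
      (vk E (g a) (B a) 4 (c a).1 && vk E (g a) (B a) 5 (c a).2))) :=
    PTF.and hP.fst (PTF.and (ptf_usb R hlev hc)
      (PTF.and (ptf_vk hV 4 hg hB hc.fst) (ptf_vk hV 5 hg hB hc.snd)))
  have he : PTF (fun a => pgs σ (pg (x a).1)) := ptf_pgs σ (ptf_pg hx.fst)
  have hH := ptf_pH hE he ht hn hν hP.snd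
  have hf := ptf_fvg (k0 := fun a => vk E (g a) (B a) 0) (k1 := fun a => vk E (g a) (B a) 1)
    (k2 := fun a => vk E (g a) (B a) 2) (hk 0) (hk 1) (hk 2) hp hlev hH hq
  have hv0 := ptf_v0CY hE σ (ptf_pg hx.fst) hn hν ht hx.snd hlev
    (ptf_seg hg hB (PTF.const 6) (ptf_WW hn))
  exact ptf_rul (ptf_inI hn ht hq) hn (ptf_pB hn hP.snd) hf
    (PTF.and (ptf_isSh 3 hq) (ptf_vk hV 3 hg hB (ptf_rest hq)))
    (PTF.and (PTF.lt hlev hn) hv0) hq

theorem ptf_VAY {E : Env} (hE : UP E) (hV : VP E) (R : ℕ) (σ : Bool) :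
    PTF (fun p : S × S => VA E R σ p.1 p.2) := by
  have hq : PTF (fun p : S × S => p.1) := PTF.id.fst
  have hg : PTF (fun p : S × S => p.2) := PTF.id.snd
  have hC : PTF (fun p : S × S => p.2.length) := PTF.length hg
  have hlev := ptf_lev hq
  have hw := ptf_wpar hlev
  obtain ⟨hn, hν, ht⟩ := ptf_pnv hC hw
  have hP : PTF (fun p : S × S =>
      (hisC E p.2.length R σ ((wpar (lev p.1)).1 + 1)).getD (wpar (lev p.1)).1 (false, [])) :=
    ptf_getD hw.fst (ptf_hisC hE hV R σ hC (PTF.succ hw.fst)) (PTF.const (false, []))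
  have hc := ptf_spiC hE σ hC (ptf_pg hw.fst) hn hν ht hw.snd
  exact ptf_VB hE hV R σ hw hP hc (ptf_bB R hC hlev) hq hg

end Pool.Agent.Helper21.BY
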